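import Mathlib

set_option autoImplicit false
set_option linter.unusedSectionVars false

/-!
Basic finite probability facts used for the power saving bound on 2-comparable sets.
-/

namespace Pool.Agent.Work.MP_7eddf1_co

open Finset

variable {Ω : Type*} [Fintype Ω]

/-- The weight of an event `E` for the weight function `p`. -/
noncomputable def Pr (p : Ω → ℝ) (E : Ω → Prop) : ℝ := ∑ t, Set.indicator {t | E t} p t

lemma ind_nonneg {p : Ω → ℝ} (hp : ∀ t, 0 < p t) (S : Set Ω) (t : Ω) :
    0 ≤ S.indicator p t := Set.indicator_nonneg (fun x _ => (hp x).le) t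

lemma Pr_nonneg {p : Ω → ℝ} (hp : ∀ t, 0 < p t) (E : Ω → Prop) : 0 ≤ Pr p E :=
  Finset.sum_nonneg fun t _ => ind_nonneg hp _ t

lemma Pr_mono {p : Ω → ℝ} (hp : ∀ t, 0 < p t) {E F : Ω → Prop} (h : ∀ t, E t → F t) :
    Pr p E ≤ Pr p F := by
  unfold Pr
  apply Finset.sum_le_sum
  intro t _
  exact Set.indicator_le_indicator_of_subset (fun x hx => h x hx) (fun x => (hp x).le) t

lemma Pr_congr {p : Ω → ℝ} {E F : Ω → Prop} (h : ∀ t, E t ↔ F t) :
    Pr p E = Pr p F := by
  have : E = F := by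
    funext t
    exact propext (h t)
  rw [this]

lemma Pr_false (p : Ω → ℝ) {E : Ω → Prop} (h : ∀ t, ¬ E t) : Pr p E = 0 := by
  unfold Pr
  apply Finset.sum_eq_zero
  intro t _
  exact Set.indicator_of_notMem (h t) p

lemma le_Pr {p : Ω → ℝ} (hp : ∀ t, 0 < p t) {E : Ω → Prop} {t : Ω} (h : E t) :
    p t ≤ Pr p E := by
  unfold Pr
  calc p t = Set.indicator {t | E t} p t := (Set.indicator_of_mem (s := {t | E t}) h p).symm
    _ ≤ _ := Finset.single_le_sum (f := fun t => Set.indicator {t | E t} p t)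
      (fun s _ => ind_nonneg hp _ s) (Finset.mem_univ t)

lemma Pr_pos {p : Ω → ℝ} (hp : ∀ t, 0 < p t) {E : Ω → Prop} {t : Ω} (h : E t) :
    0 < Pr p E := lt_of_lt_of_le (hp t) (le_Pr hp h)

lemma Pr_true {p : Ω → ℝ} (hs : ∑ t, p t = 1) : Pr p (fun _ => True) = 1 := by
  unfold Pr
  simp [hs]

lemma Pr_le_one {p : Ω → ℝ} (hp : ∀ t, 0 < p t) (hs : ∑ t, p t = 1) (E : Ω → Prop) :
    Pr p E ≤ 1 := by
  rw [← Pr_true hs]
  exact Pr_mono hp fun _ _ => trivial

lemma Pr_or_le {p : Ω → ℝ} (hp : ∀ t, 0 < p t) (E F : Ω → Prop) :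
    Pr p (fun t => E t ∨ F t) ≤ Pr p E + Pr p F := by
  classical
  unfold Pr
  rw [← Finset.sum_add_distrib]
  apply Finset.sum_le_sum
  intro t _
  simp only [Set.indicator_apply, Set.mem_ofPred_eq]
  have := (hp t).le
  by_cases h1 : E t <;> by_cases h2 : F t <;> simp [h1, h2] <;> linarith

lemma Pr_split {p : Ω → ℝ} (E F : Ω → Prop) :
    Pr p E = Pr p (fun t => E t ∧ F t) + Pr p (fun t => E t ∧ ¬ F t) := by
  classical
  unfold Pr
  rw [← Finset.sum_add_distrib]
  apply Finset.sum_congr rfl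
  intro t _
  simp only [Set.indicator_apply, Set.mem_ofPred_eq]
  by_cases h1 : E t <;> by_cases h2 : F t <;> simp [h1, h2]

lemma Pr_not {p : Ω → ℝ} (hs : ∑ t, p t = 1) (E : Ω → Prop) :
    Pr p (fun t => ¬ E t) = 1 - Pr p E := by
  have h := Pr_split (p := p) (fun _ => True) E
  rw [Pr_true hs] at h
  have h1 : Pr p (fun t => True ∧ E t) = Pr p E := Pr_congr (by simp)
  have h2 : Pr p (fun t => True ∧ ¬ E t) = Pr p (fun t => ¬ E t) := Pr_congr (by simp)
  rw [h1, h2] at h
  linarith

/-- Decomposition of the weight of an event along the values of a function. -/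
lemma sum_Pr_fiber {κ : Type*} {p : Ω → ℝ} (f : Ω → κ) (s : Finset κ)
    (hf : ∀ t, f t ∈ s) (E : Ω → Prop) :
    ∑ a ∈ s, Pr p (fun t => f t = a ∧ E t) = Pr p E := by
  classical
  unfold Pr
  rw [Finset.sum_comm]
  apply Finset.sum_congr rfl
  intro t _
  simp only [Set.indicator_apply, Set.mem_ofPred_eq]
  by_cases hE : E t
  · simp [hE, hf t]
  · simp [hE]

/-- Sum over a family of events, counted by the number of events containing each point. -/
lemma sum_Pr_le_count {κ : Type*} {p : Ω → ℝ} (hp : ∀ t, 0 < p t) (hs : ∑ t, p t = 1)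
    (Q : Finset κ) (R : κ → Ω → Prop) (c : ℝ)
    (hc : ∀ t, ∀ Q' ⊆ Q, (∀ q ∈ Q', R q t) → (Q'.card : ℝ) ≤ c) :
    ∑ q ∈ Q, Pr p (R q) ≤ c := by
  classical
  have h1 : ∑ q ∈ Q, Pr p (R q) = ∑ t, ((Q.filter fun q => R q t).card : ℝ) * p t := by
    unfold Pr
    rw [Finset.sum_comm]
    apply Finset.sum_congr rfl
    intro t _
    simp only [Set.indicator_apply, Set.mem_ofPred_eq]
    rw [← Finset.sum_filter, Finset.sum_const, nsmul_eq_mul]
  rw [h1]
  calc ∑ t, ((Q.filter fun q => R q t).card : ℝ) * p t ≤ ∑ t, c * p t := by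
        apply Finset.sum_le_sum
        intro t _
        apply mul_le_mul_of_nonneg_right _ (hp t).le
        exact hc t _ (Finset.filter_subset _ _) (fun q hq => (Finset.mem_filter.mp hq).2)
    _ = c := by rw [← Finset.mul_sum, hs, mul_one]

/-- Any two different points with the same `W` value are strictly ordered in the same way by
`U` and by `V`. -/
def Chain (W U V : Ω → ℕ) : Prop :=
  ∀ s t, W s = W t → s ≠ t → (U s < U t ∧ V s < V t) ∨ (U t < U s ∧ V t < V s)

lemma Chain.symm {W U V : Ω → ℕ} (h : Chain W U V) : Chain W V U := by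
  intro s t hst hne
  rcases h s t hst hne with h | h
  · exact Or.inl ⟨h.2, h.1⟩
  · exact Or.inr ⟨h.2, h.1⟩

/-- If `U s < U t` on a fibre of `W` then also `V s < V t`. -/
lemma Chain.lt {W U V : Ω → ℕ} (h : Chain W U V) {s t : Ω} (hW : W s = W t)
    (hU : U s < U t) : V s < V t := by
  have hne : s ≠ t := by
    rintro rfl
    exact lt_irrefl _ hU
  rcases h s t hW hne with h | h
  · exact h.2
  · omega

/-- `I` is a monotone function of `U`. -/
def CellOf (U I : Ω → ℕ) : Prop := ∀ s t, U s ≤ U t → I s ≤ I t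

lemma CellOf.eq {U I : Ω → ℕ} (h : CellOf U I) {s t : Ω} (hst : U s = U t) : I s = I t :=
  le_antisymm (h s t hst.le) (h t s hst.ge)

lemma CellOf.lt {U I : Ω → ℕ} (h : CellOf U I) {s t : Ω} (hst : I s < I t) : U s < U t := by
  by_contra hcon
  push Not at hcon
  exact absurd (h t s hcon) (by omega)

/-- The number of values of `φ` on a set is at most that of `g` when `g` separates `φ`. -/
lemma card_image_le_of_sep {κ : Type*} [DecidableEq κ] (F : Finset Ω) (φ : Ω → κ) (g : Ω → ℕ)
    (M : ℕ) (hg : ∀ s ∈ F, g s < M) (hsep : ∀ s ∈ F, ∀ t ∈ F, g s = g t → φ s = φ t) :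
    (F.image φ).card ≤ M := by
  classical
  by_cases hF : F.Nonempty
  · obtain ⟨s0, hs0⟩ := hF
    let ψ : ℕ → κ := fun n => if h : ∃ s ∈ F, g s = n then φ h.choose else φ s0
    have h1 : F.image φ ⊆ (range M).image ψ := by
      intro x hx
      obtain ⟨s, hs, rfl⟩ := Finset.mem_image.mp hx
      refine Finset.mem_image.mpr ⟨g s, Finset.mem_range.mpr (hg s hs), ?_⟩
      have hex : ∃ s' ∈ F, g s' = g s := ⟨s, hs, rfl⟩
      simp only [ψ, dif_pos hex]
      exact hsep _ hex.choose_spec.1 _ hs hex.choose_spec.2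
    calc (F.image φ).card ≤ ((range M).image ψ).card := Finset.card_le_card h1
      _ ≤ (range M).card := Finset.card_image_le
      _ = M := Finset.card_range M
  · rw [Finset.not_nonempty_iff_eq_empty] at hF
    simp [hF]

/-- On a fibre of `W` the pair of cells takes at most `2 N` values. -/
lemma sep_of_chain {W U V I J : Ω → ℕ} (h : Chain W U V) (hI : CellOf U I) (hJ : CellOf V J)
    {s t : Ω} (hW : W s = W t) (hst : I s + J s = I t + J t) : I s = I t ∧ J s = J t := by
  by_cases hne : s = t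
  · subst hne
    exact ⟨rfl, rfl⟩
  · rcases h s t hW hne with h | h
    · have h1 := hI s t h.1.le
      have h2 := hJ s t h.2.le
      omega
    · have h1 := hI t s h.1.le
      have h2 := hJ t s h.2.le
      omega

end Pool.Agent.Work.MP_7eddf1_co
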