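import Pool.Agent.Work.MP_7eddf1_co.Core

set_option autoImplicit false
set_option linter.unusedSectionVars false
set_option linter.unusedVariables false

/-!
A good block exists, and it leads to a contradiction.
-/

namespace Pool.Agent.Work.MP_7eddf1_co

open Finset

variable {Ω : Type*} [Fintype Ω]

/-- Summing the weights of the blocks. -/
lemma sum_block {p : Ω → ℝ} (hp : ∀ t, 0 < p t) (hs : ∑ t, p t = 1) (A B : Ω → ℕ) (r : ℕ)
    (E : Ω → Prop) :
    ∑ i ∈ range (2 ^ r), ∑ j ∈ range (2 ^ r),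
      Pr p (fun t => cell p A r t = i ∧ (cell p B r t = j ∧ E t)) = Pr p E := by
  have h1 : ∀ i ∈ range (2 ^ r), ∑ j ∈ range (2 ^ r),
      Pr p (fun t => cell p A r t = i ∧ (cell p B r t = j ∧ E t)) =
      Pr p (fun t => cell p A r t = i ∧ E t) := by
    intro i _
    rw [← sum_Pr_fiber (cell p B r) (range (2 ^ r))
      (fun t => Finset.mem_range.mpr (cell_lt hp hs B r t)) (fun t => cell p A r t = i ∧ E t)]
    apply Finset.sum_congr rfl
    intro j _
    apply Pr_congr
    intro t
    tauto
  rw [Finset.sum_congr rfl h1, sum_Pr_fiber]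
  intro t
  exact Finset.mem_range.mpr (cell_lt hp hs A r t)

/-- The choice of a good block. -/
lemma exists_block {p : Ω → ℝ} (hp : ∀ t, 0 < p t) (hs : ∑ t, p t = 1) (A B C : Ω → ℕ)
    (r m : ℕ) (Typ : Ω → Prop) {M e : ℝ} (he : 0 < e)
    (hT : Pr p (fun t => ¬ Typ t) ≤ 35 / 100)
    (hV : Pr p (fun t => M < 2 ^ r * vis p C (cell p A r) (cell p B r)
      (cell p A r t) (cell p B r t)) ≤ 2 / 100)
    (hE1 : ∑ u ∈ univ.image A, ∑ J ∈ range (2 ^ r), dev p A B r m u J ≤ e)
    (hE2 : ∑ u ∈ univ.image B, ∑ J ∈ range (2 ^ r), dev p B A r m u J ≤ e) :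
    ∃ i j, blockDev p A B r m i j + blockDev p B A r m j i ≤
        20 * e * Pr p (fun t => cell p A r t = i ∧ cell p B r t = j) ∧
      Pr p (fun t => cell p A r t = i ∧ (cell p B r t = j ∧ ¬ Typ t)) ≤
        1 / 2 * Pr p (fun t => cell p A r t = i ∧ cell p B r t = j) ∧
      2 ^ r * vis p C (cell p A r) (cell p B r) i j ≤ M ∧
      1 / 16 < 4 ^ r * Pr p (fun t => cell p A r t = i ∧ cell p B r t = j) := by
  classical
  by_contra hcon
  push Not at hcon
  set bigV : Ω → Prop := fun t => M < 2 ^ r * vis p C (cell p A r) (cell p B r)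
      (cell p A r t) (cell p B r t) with hbigV
  have h4r : (0 : ℝ) < 4 ^ r := by positivity
  have hterm : ∀ i ∈ range (2 ^ r), ∀ j ∈ range (2 ^ r),
      Pr p (fun t => cell p A r t = i ∧ (cell p B r t = j ∧ True)) ≤
      (blockDev p A B r m i j + blockDev p B A r m j i) / (20 * e) +
      2 * Pr p (fun t => cell p A r t = i ∧ (cell p B r t = j ∧ ¬ Typ t)) +
      Pr p (fun t => cell p A r t = i ∧ (cell p B r t = j ∧ bigV t)) + 1 / 16 / 4 ^ r := by
    intro i _ j _
    have hP : Pr p (fun t => cell p A r t = i ∧ (cell p B r t = j ∧ True)) =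
        Pr p (fun t => cell p A r t = i ∧ cell p B r t = j) := by
      apply Pr_congr
      intro t
      tauto
    rw [hP]
    set P := Pr p (fun t => cell p A r t = i ∧ cell p B r t = j) with hPdef
    have hb1 := blockDev_nonneg p A B r m i j
    have hb2 := blockDev_nonneg p B A r m j i
    have ht1 : 0 ≤ (blockDev p A B r m i j + blockDev p B A r m j i) / (20 * e) := by positivity
    have ht2 : 0 ≤ Pr p (fun t => cell p A r t = i ∧ (cell p B r t = j ∧ ¬ Typ t)) :=
      Pr_nonneg hp _
    have ht3 : 0 ≤ Pr p (fun t => cell p A r t = i ∧ (cell p B r t = j ∧ bigV t)) :=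
      Pr_nonneg hp _
    have ht4 : (0 : ℝ) ≤ 1 / 16 / 4 ^ r := by positivity
    by_cases c1 : blockDev p A B r m i j + blockDev p B A r m j i ≤ 20 * e * P
    · by_cases c2 : Pr p (fun t => cell p A r t = i ∧ (cell p B r t = j ∧ ¬ Typ t)) ≤ 1 / 2 * P
      · by_cases c3 : 2 ^ r * vis p C (cell p A r) (cell p B r) i j ≤ M
        · have c4 := hcon i j c1 c2 c3
          have : P ≤ 1 / 16 / 4 ^ r := by
            rw [le_div_iff₀ h4r, mul_comm]
            exact c4
          linarith
        · have : Pr p (fun t => cell p A r t = i ∧ (cell p B r t = j ∧ bigV t)) = P := by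
            rw [hPdef]
            apply Pr_congr
            intro t
            constructor
            · rintro ⟨h1, h2, -⟩
              exact ⟨h1, h2⟩
            · rintro ⟨h1, h2⟩
              refine ⟨h1, h2, ?_⟩
              simp only [hbigV]
              rw [h1, h2]
              push Not at c3
              exact c3
          linarith
      · push Not at c2
        linarith
    · push Not at c1
      have : P ≤ (blockDev p A B r m i j + blockDev p B A r m j i) / (20 * e) := by
        rw [le_div_iff₀ (by positivity)]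
        linarith
      linarith
  have hsum := Finset.sum_le_sum fun i hi => Finset.sum_le_sum fun j hj => hterm i hi j hj
  rw [sum_block hp hs A B r (fun _ => True), Pr_true hs] at hsum
  simp only [Finset.sum_add_distrib] at hsum
  rw [← Finset.sum_congr rfl (fun i _ => Finset.mul_sum _ _ _), ← Finset.mul_sum,
    sum_block hp hs A B r (fun t => ¬ Typ t), sum_block hp hs A B r bigV] at hsum
  have g1 : ∑ i ∈ range (2 ^ r), ∑ j ∈ range (2 ^ r),
      (blockDev p A B r m i j + blockDev p B A r m j i) / (20 * e) ≤ 1 / 10 := by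
    have k1 : ∑ i ∈ range (2 ^ r), ∑ j ∈ range (2 ^ r),
      (blockDev p A B r m i j + blockDev p B A r m j i) / (20 * e) =
      (∑ i ∈ range (2 ^ r), ∑ j ∈ range (2 ^ r), blockDev p A B r m i j +
        ∑ i ∈ range (2 ^ r), ∑ j ∈ range (2 ^ r), blockDev p B A r m i j) / (20 * e) := by
      rw [Finset.sum_comm (f := fun i j => blockDev p B A r m i j), ← Finset.sum_add_distrib,
        Finset.sum_div]
      apply Finset.sum_congr rfl
      intro i _
      rw [← Finset.sum_add_distrib, Finset.sum_div]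
    rw [k1, sum_blockDev hp hs, sum_blockDev hp hs, div_le_iff₀ (by positivity)]
    linarith
  have g2 : ∑ i ∈ range (2 ^ r), ∑ j ∈ range (2 ^ r), (1 : ℝ) / 16 / 4 ^ r = 1 / 16 := by
    rw [Finset.sum_const, Finset.sum_const, Finset.card_range]
    simp only [nsmul_eq_mul]
    push_cast
    have : (4 : ℝ) ^ r = 2 ^ r * 2 ^ r := by
      rw [← mul_pow]
      norm_num
    rw [this]
    field_simp
  rw [g2] at hsum
  linarith

/-- The number of cells of `B` met by a fibre of `C` inside the typical part of a good block. -/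
lemma few_rows {p : Ω → ℝ} (hp : ∀ t, 0 < p t) {A B C : Ω → ℕ}
    (hA : Chain A B C) (hB : Chain B A C) (hC : Chain C A B)
    (r m : ℕ) {D : ℕ} (hD : 0 < D) (Typ : Ω → Prop) {δ : ℝ} (hδ : 0 < δ) (hδ1 : δ ≤ 1)
    (hT1 : ∀ t, Typ t → δ * Pr p (fun t' => cell p A (r + m) t' = cell p A (r + m) t ∧
      cell p B (r + m) t' = cell p B (r + m) t) ≤
      drop p A C (cell p A (r + m)) (cell p B (r + m)) (cell p C (r + m)) D t)
    {i j : ℕ} (hP0 : 0 < Pr p (fun t => cell p A r t = i ∧ cell p B r t = j))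
    (hdev : blockDev p A B r m i j + blockDev p B A r m j i ≤
      δ / 4 * (Pr p (fun t => cell p A r t = i ∧ cell p B r t = j) / 4 ^ m)) (c : ℕ)
    (F : Finset Ω) (hF : ∀ t ∈ F, C t = c ∧ Typ t ∧ cell p A r t = i ∧ cell p B r t = j) :
    (F.image (cell p B (r + m))).card ≤ (⌊8 / δ⌋₊ + 1) * D := by
  classical
  set P := Pr p (fun t => cell p A r t = i ∧ cell p B r t = j) with hP
  set η := δ / 4 * (P / 4 ^ m) with hη
  have h4m : (0 : ℝ) < 4 ^ m := by positivity
  have hη0 : 0 < η := by positivity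
  set I := cell p A (r + m) with hI
  set J := cell p B (r + m) with hJ
  set K := cell p C (r + m) with hK
  have hIc : CellOf A I := cell_mono hp A (r + m)
  have hJc : CellOf B J := cell_mono hp B (r + m)
  set Nc : Ω → ℝ := fun t => Pr p (fun s => I s = I t ∧ (J s = J t ∧ C s < c)) with hNc
  have hIr : ∀ t, I t / 2 ^ m = cell p A r t := fun t => cell_nest p A r m t
  have hJr : ∀ t, J t / 2 ^ m = cell p B r t := fun t => cell_nest p B r m t
  -- weight of the fine cells
  have hw : ∀ t ∈ F, |Pr p (fun s => I s = I t ∧ J s = J t) - P / 4 ^ m| ≤ η := by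
    intro t ht
    obtain ⟨-, -, h3, h4⟩ := hF t ht
    have := fine_weight hp A B r m (I t) (J t)
    rw [← hI, ← hJ, hIr, hJr, h3, h4] at this
    exact le_trans this hdev
  have hη4 : η ≤ 1 / 4 * (P / 4 ^ m) := by
    rw [hη]
    apply mul_le_mul_of_nonneg_right _ (by positivity)
    linarith
  -- the key inequality
  have key : ∀ s ∈ F, ∀ t ∈ F, J s + D ≤ J t → Nc t + η ≤ Nc s := by
    intro s hs t ht hst
    obtain ⟨s1, s2, s3, s4⟩ := hF s hs
    obtain ⟨t1, t2, t3, t4⟩ := hF t ht
    have hBlt : B s < B t := hJc.lt (by omega)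
    have hAlt : A s < A t := hC.symm.lt (s1.trans t1.symm) hBlt
    have hII : I s ≤ I t := hIc s t hAlt.le
    have c1 := comp1 hp hA r m hD s (j' := J t) hst (by
      rw [← hJ, hJr, hJr, s4, t4])
    have c2 := comp2 hp hB r m c (i := I s) (i' := I t) (j := J t) hII (by
      rw [hIr, hIr, s3, t3])
    rw [← hI, ← hJ, ← hK] at c1
    rw [← hI, ← hJ, hIr, hJr, s3, t4] at c2
    rw [s1, s3, s4] at c1
    have d1 := hT1 s s2
    have w1 := (abs_le.mp (hw s hs)).1
    have d2 : δ * (3 / 4 * (P / 4 ^ m)) ≤ δ * Pr p (fun t' => I t' = I s ∧ J t' = J s) := by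
      apply mul_le_mul_of_nonneg_left _ hδ.le
      linarith
    have d3 : δ * (3 / 4 * (P / 4 ^ m)) = 3 * η := by
      rw [hη]
      ring
    simp only [hNc]
    linarith
  have hNc0 : ∀ t, 0 ≤ Nc t := fun t => Pr_nonneg hp _
  have hNcU : ∀ t ∈ F, Nc t ≤ 8 / δ * η := by
    intro t ht
    have h1 : Nc t ≤ Pr p (fun s => I s = I t ∧ J s = J t) :=
      Pr_mono hp fun s hs => ⟨hs.1, hs.2.1⟩
    have h2 := (abs_le.mp (hw t ht)).2
    have h3 : 8 / δ * η = 2 * (P / 4 ^ m) := by
      rw [hη]
      field_simp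
      ring
    rw [h3]
    linarith
  apply card_image_le_of_sep F J (fun t => ⌊Nc t / η⌋₊ * D + J t % D)
  · intro t ht
    have h1 : ⌊Nc t / η⌋₊ ≤ ⌊8 / δ⌋₊ := by
      apply Nat.floor_le_floor
      rw [div_le_iff₀ hη0]
      exact hNcU t ht
    have h2 := Nat.mod_lt (J t) hD
    calc ⌊Nc t / η⌋₊ * D + J t % D < ⌊Nc t / η⌋₊ * D + D := by omega
      _ = (⌊Nc t / η⌋₊ + 1) * D := by ring
      _ ≤ (⌊8 / δ⌋₊ + 1) * D := Nat.mul_le_mul_right _ (by omega)
  · have aux : ∀ s ∈ F, ∀ t ∈ F, ⌊Nc s / η⌋₊ * D + J s % D = ⌊Nc t / η⌋₊ * D + J t % D →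
        ¬ J s < J t := by
      intro s hs t ht hst hlt
      have m1 := Nat.mod_lt (J s) hD
      have m2 := Nat.mod_lt (J t) hD
      have q1 : ⌊Nc s / η⌋₊ = ⌊Nc t / η⌋₊ := by
        have h1 : (⌊Nc s / η⌋₊ * D + J s % D) / D = ⌊Nc s / η⌋₊ := by
          rw [mul_comm, Nat.mul_add_div hD, Nat.div_eq_of_lt m1, add_zero]
        have h2 : (⌊Nc t / η⌋₊ * D + J t % D) / D = ⌊Nc t / η⌋₊ := by
          rw [mul_comm, Nat.mul_add_div hD, Nat.div_eq_of_lt m2, add_zero]
        rw [← h1, ← h2, hst]
      have q2 : J s % D = J t % D := by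
        rw [q1] at hst
        omega
      have q3 : J s + D ≤ J t := by
        have e1 := Nat.div_add_mod (J s) D
        have e2 := Nat.div_add_mod (J t) D
        have e3 : J s / D < J t / D := by
          by_contra hcon
          push Not at hcon
          have := Nat.mul_le_mul_left D hcon
          omega
        have e4 : D * (J s / D) + D ≤ D * (J t / D) := by
          calc D * (J s / D) + D = D * (J s / D + 1) := by ring
            _ ≤ D * (J t / D) := Nat.mul_le_mul_left D e3
        omega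
      have q4 := key s hs t ht q3
      have q5 : Nc t / η + 1 ≤ Nc s / η := by
        rw [← sub_nonneg]
        have : Nc s / η - (Nc t / η + 1) = (Nc s - (Nc t + η)) / η := by
          field_simp
        rw [this]
        apply div_nonneg _ hη0.le
        linarith
      have q6 : ⌊Nc t / η⌋₊ + 1 ≤ ⌊Nc s / η⌋₊ := by
        rw [← Nat.floor_add_one (div_nonneg (hNc0 t) hη0.le)]
        exact Nat.floor_le_floor q5
      omega
    intro s hs t ht hst
    have h1 := aux s hs t ht hst
    have h2 := aux t ht s hs hst.symm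
    omega

/-- The contradiction. -/
theorem block_false {p : Ω → ℝ} (hp : ∀ t, 0 < p t) (hs : ∑ t, p t = 1) {A B C : Ω → ℕ}
    (hA : Chain A B C) (hB : Chain B A C) (hC : Chain C A B)
    (r m : ℕ) {D : ℕ} (hD : 0 < D) (Typ : Ω → Prop) {δ lam M e : ℝ} (hδ : 0 < δ)
    (hδ1 : δ ≤ 1) (hlam : 0 < lam) (hM : 0 < M) (he : 0 < e)
    (hT1 : ∀ t, Typ t → δ * Pr p (fun t' => cell p A (r + m) t' = cell p A (r + m) t ∧
      cell p B (r + m) t' = cell p B (r + m) t) ≤
      drop p A C (cell p A (r + m)) (cell p B (r + m)) (cell p C (r + m)) D t)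
    (hT2 : ∀ t, Typ t → 2 ^ (r + m) * Pr p (fun s => C s = C t ∧
      cell p B (r + m) s = cell p B (r + m) t) ≤ lam * Pr p (fun s => C s = C t))
    (hT : Pr p (fun t => ¬ Typ t) ≤ 35 / 100)
    (hV : Pr p (fun t => M < 2 ^ r * vis p C (cell p A r) (cell p B r)
      (cell p A r t) (cell p B r t)) ≤ 2 / 100)
    (hE1 : ∑ u ∈ univ.image A, ∑ J ∈ range (2 ^ r), dev p A B r m u J ≤ e)
    (hE2 : ∑ u ∈ univ.image B, ∑ J ∈ range (2 ^ r), dev p B A r m u J ≤ e)
    (hee : 20 * e ≤ δ / 4 / 4 ^ m)
    (hm : 32 * (((⌊8 / δ⌋₊ + 1) * D : ℕ) : ℝ) * lam * M ≤ 2 ^ m) : False := by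
  classical
  obtain ⟨i, j, hb1, hb2, hb3, hb4⟩ := exists_block hp hs A B C r m Typ he hT hV hE1 hE2
  set P := Pr p (fun t => cell p A r t = i ∧ cell p B r t = j) with hP
  set R := (⌊8 / δ⌋₊ + 1) * D with hR
  have hP0 : 0 < P := by
    by_contra hcon
    push Not at hcon
    have : (4 : ℝ) ^ r * P ≤ 0 := mul_nonpos_of_nonneg_of_nonpos (by positivity) hcon
    linarith
  have hdev : blockDev p A B r m i j + blockDev p B A r m j i ≤ δ / 4 * (P / 4 ^ m) := by
    refine le_trans hb1 ?_
    calc 20 * e * P ≤ (δ / 4 / 4 ^ m) * P := mul_le_mul_of_nonneg_right hee hP0.le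
      _ = _ := by ring
  -- typical part of the block
  set blockTyp : Ω → Prop := fun t => cell p A r t = i ∧ (cell p B r t = j ∧ Typ t) with hbt
  have h1 : P / 2 ≤ Pr p blockTyp := by
    have e1 := Pr_split (p := p) (fun t => cell p A r t = i ∧ cell p B r t = j) Typ
    have e2 : Pr p (fun t => (cell p A r t = i ∧ cell p B r t = j) ∧ Typ t) = Pr p blockTyp := by
      apply Pr_congr
      intro t
      simp only [hbt]
      tauto
    have e3 : Pr p (fun t => (cell p A r t = i ∧ cell p B r t = j) ∧ ¬ Typ t) =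
        Pr p (fun t => cell p A r t = i ∧ (cell p B r t = j ∧ ¬ Typ t)) := by
      apply Pr_congr
      intro t
      tauto
    rw [e2, e3, ← hP] at e1
    linarith
  -- upper bound
  set J := cell p B (r + m) with hJ
  have h2 : Pr p blockTyp ≤ (R : ℝ) * (lam / 2 ^ (r + m)) *
      vis p C (cell p A r) (cell p B r) i j := by
    have e1 : Pr p blockTyp = ∑ c ∈ univ.image C, Pr p (fun t => C t = c ∧ blockTyp t) := by
      rw [sum_Pr_fiber C]
      intro t
      simp
    have e2 : vis p C (cell p A r) (cell p B r) i j = ∑ c ∈ univ.image C,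
        Pr p (fun t => C t = c ∧ ∃ s, C s = C t ∧ cell p A r s = i ∧ cell p B r s = j) := by
      unfold vis
      rw [sum_Pr_fiber C]
      intro t
      simp
    rw [e1, e2, Finset.mul_sum]
    apply Finset.sum_le_sum
    intro c _
    by_cases hex : ∃ t, C t = c ∧ blockTyp t
    · obtain ⟨t0, ht0, hbt0⟩ := hex
      have f1 : Pr p (fun t => C t = c ∧
          ∃ s, C s = C t ∧ cell p A r s = i ∧ cell p B r s = j) = Pr p (fun t => C t = c) := by
        apply Pr_congr
        intro t
        constructor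
        · exact fun h => h.1
        · intro h
          exact ⟨h, t0, ht0.trans h.symm, hbt0.1, hbt0.2.1⟩
      rw [f1]
      set F := univ.filter fun t => C t = c ∧ blockTyp t with hF
      have hcard := few_rows hp hA hB hC r m hD Typ hδ hδ1 hT1 hP0 hdev c F (by
        intro t ht
        have : C t = c ∧ blockTyp t := by simpa [hF] using ht
        exact ⟨this.1, this.2.2.2, this.2.1, this.2.2.1⟩)
      rw [← hJ, ← hR] at hcard
      have f2 : Pr p (fun t => C t = c ∧ blockTyp t) =
          ∑ x ∈ F.image J, Pr p (fun t => J t = x ∧ (C t = c ∧ blockTyp t)) := by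
        have g1 : Pr p (fun t => C t = c ∧ blockTyp t) =
            ∑ x ∈ univ.image J, Pr p (fun t => J t = x ∧ (C t = c ∧ blockTyp t)) := by
          rw [sum_Pr_fiber J]
          intro t
          simp
        rw [g1]
        symm
        apply Finset.sum_subset
        · exact Finset.image_subset_image (Finset.subset_univ _)
        · intro x _ hx
          apply Pr_false
          rintro t ⟨h1, h2⟩
          apply hx
          exact Finset.mem_image.mpr ⟨t, by simp [hF, h2], h1⟩
      have f3 : ∀ x ∈ F.image J, Pr p (fun t => J t = x ∧ (C t = c ∧ blockTyp t)) ≤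
          lam / 2 ^ (r + m) * Pr p (fun t => C t = c) := by
        intro x hx
        obtain ⟨t, ht, rfl⟩ := Finset.mem_image.mp hx
        have htF : C t = c ∧ blockTyp t := by simpa [hF] using ht
        have g1 := hT2 t htF.2.2.2
        rw [htF.1] at g1
        have g2 : Pr p (fun s => J s = J t ∧ (C s = c ∧ blockTyp s)) ≤
            Pr p (fun s => C s = c ∧ J s = J t) := Pr_mono hp fun s hs => ⟨hs.2.1, hs.1⟩
        refine le_trans g2 ?_
        rw [div_mul_eq_mul_div, le_div_iff₀ (by positivity), mul_comm]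
        exact g1
      rw [f2]
      calc ∑ x ∈ F.image J, Pr p (fun t => J t = x ∧ (C t = c ∧ blockTyp t))
          ≤ ∑ x ∈ F.image J, lam / 2 ^ (r + m) * Pr p (fun t => C t = c) :=
            Finset.sum_le_sum f3
        _ = ((F.image J).card : ℝ) * (lam / 2 ^ (r + m) * Pr p (fun t => C t = c)) := by
            rw [Finset.sum_const, nsmul_eq_mul]
        _ ≤ (R : ℝ) * (lam / 2 ^ (r + m) * Pr p (fun t => C t = c)) := by
            apply mul_le_mul_of_nonneg_right
            · exact_mod_cast hcard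
            · have := Pr_nonneg hp (fun t => C t = c)
              positivity
        _ = _ := by ring
    · push Not at hex
      rw [Pr_false p (E := fun t => C t = c ∧ blockTyp t) (by
        rintro t ⟨h1, h2⟩
        exact hex t h1 h2)]
      have := Pr_nonneg hp (fun t => C t = c ∧
        ∃ s, C s = C t ∧ cell p A r s = i ∧ cell p B r s = j)
      positivity
  -- combine
  have h2r : (0 : ℝ) < 2 ^ r := by positivity
  have h2m : (0 : ℝ) < 2 ^ m := by positivity
  have h4r : (4 : ℝ) ^ r = 2 ^ r * 2 ^ r := by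
    rw [← mul_pow]
    norm_num
  have h3 : (4 : ℝ) ^ r * P * 2 ^ m ≤ 2 * (R : ℝ) * lam * M := by
    have g1 : P / 2 ≤ (R : ℝ) * (lam / 2 ^ (r + m)) *
      vis p C (cell p A r) (cell p B r) i j := le_trans h1 h2
    have g2 : (R : ℝ) * (lam / 2 ^ (r + m)) * vis p C (cell p A r) (cell p B r) i j ≤
        (R : ℝ) * (lam / 2 ^ (r + m)) * (M / 2 ^ r) := by
      apply mul_le_mul_of_nonneg_left _ (by positivity)
      rw [le_div_iff₀ h2r, mul_comm]
      exact hb3
    have g3 : P ≤ 2 * ((R : ℝ) * (lam / 2 ^ (r + m)) * (M / 2 ^ r)) := by linarith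
    calc (4 : ℝ) ^ r * P * 2 ^ m
        ≤ (4 : ℝ) ^ r * (2 * ((R : ℝ) * (lam / 2 ^ (r + m)) * (M / 2 ^ r))) * 2 ^ m := by
          apply mul_le_mul_of_nonneg_right _ h2m.le
          exact mul_le_mul_of_nonneg_left g3 (by positivity)
      _ = 2 * (R : ℝ) * lam * M := by
          rw [h4r, pow_add]
          field_simp
  have h5 : (1 : ℝ) / 16 * 2 ^ m < (4 : ℝ) ^ r * P * 2 ^ m :=
    mul_lt_mul_of_pos_right hb4 h2m
  nlinarith

end Pool.Agent.Work.MP_7eddf1_co
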