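import Pool.Agent.Work.MP_7eddf1_co.Basic

set_option autoImplicit false
set_option linter.unusedSectionVars false

/-!
Quantile cells of a coordinate function.
-/

namespace Pool.Agent.Work.MP_7eddf1_co

open Finset

variable {Ω : Type*} [Fintype Ω]

/-- The level `l` quantile cell of the coordinate `U`. -/
noncomputable def cell (p : Ω → ℝ) (U : Ω → ℕ) (l : ℕ) (t : Ω) : ℕ :=
  ⌊(2 : ℝ) ^ l * Pr p (fun s => U s < U t)⌋₊

lemma cell_mono {p : Ω → ℝ} (hp : ∀ t, 0 < p t) (U : Ω → ℕ) (l : ℕ) :
    CellOf U (cell p U l) := by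
  intro s t hst
  unfold cell
  apply Nat.floor_le_floor
  apply mul_le_mul_of_nonneg_left _ (by positivity)
  exact Pr_mono hp fun x hx => lt_of_lt_of_le hx hst

lemma Pr_lt_lt_one {p : Ω → ℝ} (hp : ∀ t, 0 < p t) (hs : ∑ t, p t = 1) (U : Ω → ℕ) (t : Ω) :
    Pr p (fun s => U s < U t) < 1 := by
  have h := Pr_not hs (fun s => U s < U t)
  have h2 : 0 < Pr p (fun s => ¬ U s < U t) := Pr_pos hp (t := t) (by simp)
  linarith

lemma cell_lt {p : Ω → ℝ} (hp : ∀ t, 0 < p t) (hs : ∑ t, p t = 1) (U : Ω → ℕ) (l : ℕ) (t : Ω) :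
    cell p U l t < 2 ^ l := by
  unfold cell
  have h0 : 0 ≤ (2 : ℝ) ^ l * Pr p (fun s => U s < U t) :=
    mul_nonneg (by positivity) (Pr_nonneg hp _)
  rw [Nat.floor_lt h0]
  push_cast
  have h1 := Pr_lt_lt_one hp hs U t
  have h2 : (0 : ℝ) < 2 ^ l := by positivity
  nlinarith

lemma cell_nest (p : Ω → ℝ) (U : Ω → ℕ) (r m : ℕ) (t : Ω) :
    cell p U (r + m) t / 2 ^ m = cell p U r t := by
  unfold cell
  have h := Nat.floor_div_natCast ((2 : ℝ) ^ (r + m) * Pr p (fun s => U s < U t)) (2 ^ m)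
  rw [← h]
  congr 1
  push_cast
  rw [pow_add]
  have : (2 : ℝ) ^ m ≠ 0 := by positivity
  field_simp

lemma cell_mass {p : Ω → ℝ} (hp : ∀ t, 0 < p t) (hs : ∑ t, p t = 1) (U : Ω → ℕ) (l : ℕ)
    (hat : ∀ u, Pr p (fun s => U s = u) ≤ 1 / 2 ^ l) (i : ℕ) :
    Pr p (fun s => cell p U l s = i) ≤ 2 / 2 ^ l := by
  classical
  by_cases hne : ∃ t, cell p U l t = i
  · set F := univ.filter fun t => cell p U l t = i with hF
    have hFne : F.Nonempty := by
      obtain ⟨t, ht⟩ := hne
      exact ⟨t, by simp [hF, ht]⟩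
    obtain ⟨t1, ht1, hmin⟩ := Finset.exists_min_image F U hFne
    obtain ⟨t2, ht2, hmax⟩ := Finset.exists_max_image F U hFne
    have hc1 : cell p U l t1 = i := by simpa [hF] using ht1
    have hc2 : cell p U l t2 = i := by simpa [hF] using ht2
    set x1 := Pr p (fun s => U s < U t1) with hx1
    set x2 := Pr p (fun s => U s < U t2) with hx2
    have h2l : (0 : ℝ) < 2 ^ l := by positivity
    have hlow : (i : ℝ) ≤ 2 ^ l * x1 := by
      rw [← hc1]
      exact Nat.floor_le (mul_nonneg h2l.le (Pr_nonneg hp _))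
    have hup : 2 ^ l * x2 < (i : ℝ) + 1 := by
      have := Nat.lt_floor_add_one ((2 : ℝ) ^ l * x2)
      have h3 : ((⌊(2 : ℝ) ^ l * x2⌋₊ : ℕ) : ℝ) = i := by
        change ((cell p U l t2 : ℕ) : ℝ) = i
        rw [hc2]
      rw [h3] at this
      exact this
    have hsub : Pr p (fun s => cell p U l s = i) + x1 ≤ x2 + Pr p (fun s => U s = U t2) := by
      have e1 : Pr p (fun s => cell p U l s = i) + x1 ≤ Pr p (fun s => U s ≤ U t2) := by
        rw [Pr_split (fun s => U s ≤ U t2) (fun s => U s < U t1), add_comm]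
        apply add_le_add
        · apply Pr_mono hp
          intro s hs1
          have h12 : U t1 ≤ U t2 := hmin t2 ht2
          exact ⟨by omega, hs1⟩
        · apply Pr_mono hp
          intro s hs1
          have hmem : s ∈ F := by simp [hF, hs1]
          have h1 := hmin s hmem
          have h2 := hmax s hmem
          exact ⟨h2, by omega⟩
      have e2 : Pr p (fun s => U s ≤ U t2) ≤ x2 + Pr p (fun s => U s = U t2) := by
        have := Pr_or_le hp (fun s => U s < U t2) (fun s => U s = U t2)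
        refine le_trans (Pr_mono hp ?_) this
        intro s hs1
        rcases lt_or_eq_of_le hs1 with h | h
        · exact Or.inl h
        · exact Or.inr h
      linarith
    have hat2 := hat (U t2)
    have h4 : 2 ^ l * Pr p (fun s => cell p U l s = i) ≤ 2 := by
      have h5 : 2 ^ l * (Pr p (fun s => cell p U l s = i) + x1) ≤
          2 ^ l * (x2 + Pr p (fun s => U s = U t2)) :=
        mul_le_mul_of_nonneg_left hsub h2l.le
      have h6 : 2 ^ l * Pr p (fun s => U s = U t2) ≤ 1 := by
        have := mul_le_mul_of_nonneg_left hat2 h2l.le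
        rw [mul_one_div, div_self h2l.ne'] at this
        exact this
      nlinarith
    rw [le_div_iff₀ h2l]
    linarith
  · push Not at hne
    rw [Pr_false p (fun t => hne t)]
    positivity

end Pool.Agent.Work.MP_7eddf1_co
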