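import Pool.Agent.Work.MP_7eddf1_co.Span

set_option autoImplicit false
set_option linter.unusedSectionVars false
set_option linter.unusedVariables false

/-!
Typical points.
-/

namespace Pool.Agent.Work.MP_7eddf1_co

open Finset

variable {Ω : Type*} [Fintype Ω]

lemma half_loss {κ : Type*} {p : Ω → ℝ} (hp : ∀ t, 0 < p t) (φ : Ω → κ) (Good : Ω → Prop) :
    Pr p (fun t => 2 * Pr p (fun s => φ s = φ t ∧ Good s) < Pr p (fun s => φ s = φ t)) ≤
      2 * Pr p (fun s => ¬ Good s) := by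
  classical
  set bad : Ω → Prop := fun t =>
    2 * Pr p (fun s => φ s = φ t ∧ Good s) < Pr p (fun s => φ s = φ t) with hbad
  have h1 : Pr p bad = ∑ q ∈ univ.image φ, Pr p (fun t => φ t = q ∧ bad t) := by
    rw [sum_Pr_fiber φ]
    intro t
    simp
  have h2 : Pr p (fun s => ¬ Good s) =
      ∑ q ∈ univ.image φ, Pr p (fun t => φ t = q ∧ ¬ Good t) := by
    rw [sum_Pr_fiber φ]
    intro t
    simp
  rw [h1, h2, Finset.mul_sum]
  apply Finset.sum_le_sum
  intro q _
  by_cases hex : ∃ t, φ t = q ∧ bad t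
  · obtain ⟨t, ht, hb⟩ := hex
    simp only [hbad, ht] at hb
    have e1 : Pr p (fun t => φ t = q ∧ bad t) ≤ Pr p (fun s => φ s = q) :=
      Pr_mono hp fun s hs => hs.1
    have e2 := Pr_split (p := p) (fun s => φ s = q) Good
    linarith
  · push Not at hex
    rw [Pr_false p (E := fun t => φ t = q ∧ bad t) (by
      rintro t ⟨h1, h2⟩
      exact hex t h1 h2)]
    have := Pr_nonneg hp (fun t => φ t = q ∧ ¬ Good t)
    linarith

lemma low_rank {κ : Type*} [DecidableEq κ] {p : Ω → ℝ} (hp : ∀ t, 0 < p t)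
    (hs : ∑ t, p t = 1) (φ : Ω → κ)
    (Good : Ω → Prop) (C : Ω → ℕ) {ε : ℝ} (hε : ∀ c, Pr p (fun s => C s = c) ≤ ε) {n : ℕ}
    (hcard : (univ.image φ).card ≤ n) :
    Pr p (fun t => Good t ∧ 4 * Pr p (fun s => φ s = φ t ∧ Good s ∧ C s < C t) <
      Pr p (fun s => φ s = φ t ∧ Good s)) ≤ 1 / 4 + n * ε := by
  classical
  set bad : Ω → Prop := fun t => Good t ∧
    4 * Pr p (fun s => φ s = φ t ∧ Good s ∧ C s < C t) <
      Pr p (fun s => φ s = φ t ∧ Good s) with hbad
  have hε0 : 0 ≤ ε := le_trans (Pr_nonneg hp _) (hε 0)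
  have h1 : Pr p bad = ∑ q ∈ univ.image φ, Pr p (fun t => φ t = q ∧ bad t) := by
    rw [sum_Pr_fiber φ]
    intro t
    simp
  have h3 : ∑ q ∈ univ.image φ, Pr p (fun t => φ t = q ∧ Good t) ≤ 1 := by
    rw [sum_Pr_fiber φ _ (by intro t; simp)]
    exact Pr_le_one hp hs _
  have h2 : ∀ q ∈ univ.image φ, Pr p (fun t => φ t = q ∧ bad t) ≤
      1 / 4 * Pr p (fun t => φ t = q ∧ Good t) + ε := by
    intro q _
    have hnn : 0 ≤ Pr p (fun t => φ t = q ∧ Good t) := Pr_nonneg hp _
    set F := univ.filter fun t => φ t = q ∧ bad t with hF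
    by_cases hne : F.Nonempty
    · obtain ⟨t1, ht1, hmax⟩ := Finset.exists_max_image F C hne
      have hm1 : φ t1 = q ∧ bad t1 := by simpa [hF] using ht1
      obtain ⟨hq, hg, hb⟩ := hm1
      rw [hq] at hb
      have e1 : Pr p (fun t => φ t = q ∧ bad t) ≤
          Pr p (fun s => φ s = q ∧ Good s ∧ C s < C t1) + Pr p (fun s => C s = C t1) := by
        refine le_trans (Pr_mono hp ?_) (Pr_or_le hp _ _)
        intro t ht
        have hmem : t ∈ F := by simp [hF, ht.1, ht.2]
        rcases lt_or_eq_of_le (hmax t hmem) with h | h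
        · exact Or.inl ⟨ht.1, ht.2.1, h⟩
        · exact Or.inr h
      have e2 := hε (C t1)
      linarith
    · rw [Finset.not_nonempty_iff_eq_empty] at hne
      rw [Pr_false p (E := fun t => φ t = q ∧ bad t) (by
        intro t ht
        have hmem : t ∈ F := by simp [hF, ht.1, ht.2]
        rw [hne] at hmem
        exact absurd hmem (Finset.notMem_empty t))]
      positivity
  rw [h1]
  calc ∑ q ∈ univ.image φ, Pr p (fun t => φ t = q ∧ bad t)
      ≤ ∑ q ∈ univ.image φ, (1 / 4 * Pr p (fun t => φ t = q ∧ Good t) + ε) :=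
        Finset.sum_le_sum h2
    _ = 1 / 4 * ∑ q ∈ univ.image φ, Pr p (fun t => φ t = q ∧ Good t) +
        (univ.image φ).card * ε := by
        rw [Finset.sum_add_distrib, ← Finset.mul_sum, Finset.sum_const, nsmul_eq_mul]
    _ ≤ 1 / 4 * 1 + n * ε := by
        apply add_le_add
        · linarith
        · apply mul_le_mul_of_nonneg_right _ hε0
          exact_mod_cast hcard
    _ = 1 / 4 + n * ε := by ring

/-- The weight of the earlier points of the box of `t` whose cell has short span. -/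
noncomputable def drop (p : Ω → ℝ) (A C I J K : Ω → ℕ) (D : ℕ) (t : Ω) : ℝ :=
  Pr p (fun s => (I s, J s, K s) = (I t, J t, K t) ∧ ¬ Span A J K D (A s) (K s) ∧ C s < C t)

/-- Typical points see a positive proportion of the weight of their cell before them. -/
theorem drop_large {p : Ω → ℝ} (hp : ∀ t, 0 < p t) (hs : ∑ t, p t = 1) {β : ℝ}
    (hβ1 : 1 / 2 ≤ β) (hβ2 : β ≤ 2 / 3) {A B C I J K : Ω → ℕ} {N : ℕ} (hN : 0 < N)
    (hNβ : (1 / (N : ℝ) ^ 3) ^ β ≤ 2 / (N : ℝ) ^ 2) (hbox : BoxLe p β A B C)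
    (hA : Chain A B C) (hB : Chain B A C) (hC : Chain C A B)
    (hI : CellOf A I) (hJ : CellOf B J) (hK : CellOf C K) (hIN : ∀ t, I t < N)
    (hJN : ∀ t, J t < N) (hKN : ∀ t, K t < N) (hIm : ∀ i, Pr p (fun t => I t = i) ≤ 2 / N)
    (hJm : ∀ j, Pr p (fun t => J t = j) ≤ 2 / N) (hKm : ∀ j, Pr p (fun t => K t = j) ≤ 2 / N)
    {ε : ℝ} (hε : ∀ c, Pr p (fun s => C s = c) ≤ ε)
    {lam M s : ℝ} {D : ℕ} (hlam : 1 ≤ lam) (hM : 1 ≤ M) (hs0 : 0 < s) (hD : 0 < D) :
    Pr p (fun t => drop p A C I J K D t <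
      s ^ 3 / (96 * M) * Pr p (fun t' => I t' = I t ∧ J t' = J t)) ≤
      4 * s + 24 * M ^ (β - 1) + 3 * (15 * lam ^ (β - 1) + lam / D) +
        (1 / 4 + (N : ℝ) ^ 3 * ε) := by
  classical
  have hNr : (0 : ℝ) < N := by exact_mod_cast hN
  set φ : Ω → ℕ × ℕ × ℕ := fun t => (I t, J t, K t) with hφ
  set Good : Ω → Prop := fun t => ¬ Span A J K D (A t) (K t) with hGood
  -- the weight of the complement of `Good`
  have hη : Pr p (fun t => ¬ Good t) ≤ 15 * lam ^ (β - 1) + lam / D := by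
    have e1 := tail hp hs hβ1 hβ2 hN hNβ hbox.swap23 hB hI hK hIN hKN hIm hKm hlam
    have e2 := span_small hp hs hN hA hJ hK hJN hKN hD (lam := lam) (by linarith)
    refine le_trans (Pr_mono hp ?_) (le_trans (Pr_or_le hp _ _) (add_le_add e1 e2))
    intro t ht
    simp only [hGood, not_not] at ht
    rcases le_total (lam * Pr p (fun s => A s = A t))
      (N * Pr p (fun s => A s = A t ∧ K s = K t)) with h | h
    · exact Or.inl h
    · exact Or.inr ⟨ht, h⟩
  set e4 : Ω → Prop := fun t =>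
    (N : ℝ) ^ 2 * Pr p (fun t' => I t' = I t ∧ J t' = J t ∧ K t' = K t) < s ^ 3 with he4
  set e5 : Ω → Prop := fun t => M < N * vis p C I J (I t) (J t) with he5
  set e6 : Ω → Prop := fun t =>
    2 * Pr p (fun s => φ s = φ t ∧ Good s) < Pr p (fun s => φ s = φ t) with he6
  set e7 : Ω → Prop := fun t => Good t ∧
    4 * Pr p (fun s => φ s = φ t ∧ Good s ∧ C s < C t) <
      Pr p (fun s => φ s = φ t ∧ Good s) with he7
  have p4 : Pr p e4 ≤ 4 * s := small_box hp hs hβ1 hβ2 hN hNβ hbox hA hB hC hI hJ hK hIN hJN hKN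
    hIm hJm hKm hs0
  have p5 : Pr p e5 ≤ 24 * M ^ (β - 1) := big_u hp hs hβ1 hβ2 hN hNβ hbox hC hI hJ hIN hJN
    hIm hJm hM
  have p6 : Pr p e6 ≤ 2 * Pr p (fun s => ¬ Good s) := half_loss hp φ Good
  have hcard : (univ.image φ).card ≤ N ^ 3 := by
    have : univ.image φ ⊆ range N ×ˢ (range N ×ˢ range N) := by
      intro q hq
      obtain ⟨t, -, rfl⟩ := Finset.mem_image.mp hq
      simp [hφ, hIN t, hJN t, hKN t]
    refine le_trans (Finset.card_le_card this) ?_
    simp only [Finset.card_product, Finset.card_range]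
    exact le_of_eq (by ring)
  have p7 : Pr p e7 ≤ 1 / 4 + ((N ^ 3 : ℕ) : ℝ) * ε := low_rank hp hs φ Good C hε hcard
  have hcov : ∀ t, drop p A C I J K D t <
      s ^ 3 / (96 * M) * Pr p (fun t' => I t' = I t ∧ J t' = J t) →
      (e4 t ∨ (e5 t ∨ (e6 t ∨ (¬ Good t ∨ e7 t)))) := by
    intro t ht
    by_contra hcon
    push Not at hcon
    obtain ⟨c4, c5, c6, c8, c7⟩ := hcon
    have d4 : s ^ 3 ≤ (N : ℝ) ^ 2 * Pr p (fun s => φ s = φ t) := by
      have : Pr p (fun s => φ s = φ t) =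
          Pr p (fun t' => I t' = I t ∧ J t' = J t ∧ K t' = K t) := by
        apply Pr_congr
        intro t'
        simp [hφ, Prod.ext_iff]
      rw [this]
      simpa [he4] using c4
    have d5 : N * vis p C I J (I t) (J t) ≤ M := by simpa [he5] using c5
    have d6 : Pr p (fun s => φ s = φ t) ≤ 2 * Pr p (fun s => φ s = φ t ∧ Good s) := by
      simpa [he6] using c6
    have d7 : Pr p (fun s => φ s = φ t ∧ Good s) ≤ 4 * drop p A C I J K D t := by
      have : ¬ (4 * Pr p (fun s => φ s = φ t ∧ Good s ∧ C s < C t) <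
        Pr p (fun s => φ s = φ t ∧ Good s)) := fun h => c7 ⟨c8, h⟩
      exact not_lt.mp this
    have d8 := cell_light hp hs hβ1 hβ2 hN hNβ hbox hI hJ hIm hJm hM (I t) (J t)
    have hMb : M ^ (β - 1) ≤ 1 := Real.rpow_le_one_of_one_le_of_nonpos hM (by linarith)
    have hMb0 : 0 ≤ M ^ (β - 1) := Real.rpow_nonneg (by linarith) _
    have hv0 : 0 ≤ vis p C I J (I t) (J t) := Pr_nonneg hp _
    have d9 : (N : ℝ) ^ 2 * Pr p (fun t' => I t' = I t ∧ J t' = J t) ≤ 12 * M := by
      calc (N : ℝ) ^ 2 * Pr p (fun t' => I t' = I t ∧ J t' = J t)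
          ≤ (N : ℝ) ^ 2 * (6 / (N : ℝ) ^ 2 * M ^ (β - 1) *
            (M + N * vis p C I J (I t) (J t))) :=
            mul_le_mul_of_nonneg_left d8 (by positivity)
        _ = 6 * (M ^ (β - 1) * (M + N * vis p C I J (I t) (J t))) := by
            field_simp
        _ ≤ 6 * (1 * (M + M)) := by
            apply mul_le_mul_of_nonneg_left _ (by norm_num)
            apply mul_le_mul hMb _ (by positivity) (by norm_num)
            linarith
        _ = 12 * M := by ring
    have d10 : s ^ 3 ≤ (N : ℝ) ^ 2 * (8 * drop p A C I J K D t) := by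
      refine le_trans d4 (mul_le_mul_of_nonneg_left ?_ (by positivity))
      linarith
    have d11 : s ^ 3 / (96 * M) * Pr p (fun t' => I t' = I t ∧ J t' = J t) ≤
        drop p A C I J K D t := by
      rw [div_mul_eq_mul_div, div_le_iff₀ (by positivity)]
      have hP0 : 0 ≤ Pr p (fun t' => I t' = I t ∧ J t' = J t) := Pr_nonneg hp _
      have hd0 : 0 ≤ drop p A C I J K D t := Pr_nonneg hp _
      calc s ^ 3 * Pr p (fun t' => I t' = I t ∧ J t' = J t)
          ≤ ((N : ℝ) ^ 2 * (8 * drop p A C I J K D t)) *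
            Pr p (fun t' => I t' = I t ∧ J t' = J t) := mul_le_mul_of_nonneg_right d10 hP0
        _ = (8 * drop p A C I J K D t) *
            ((N : ℝ) ^ 2 * Pr p (fun t' => I t' = I t ∧ J t' = J t)) := by ring
        _ ≤ (8 * drop p A C I J K D t) * (12 * M) :=
            mul_le_mul_of_nonneg_left d9 (by positivity)
        _ = drop p A C I J K D t * (96 * M) := by ring
    linarith
  calc Pr p (fun t => drop p A C I J K D t <
      s ^ 3 / (96 * M) * Pr p (fun t' => I t' = I t ∧ J t' = J t))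
      ≤ Pr p (fun t => e4 t ∨ (e5 t ∨ (e6 t ∨ (¬ Good t ∨ e7 t)))) := Pr_mono hp hcov
    _ ≤ Pr p e4 + (Pr p e5 + (Pr p e6 + (Pr p (fun t => ¬ Good t) + Pr p e7))) := by
        refine le_trans (Pr_or_le hp _ _) ?_
        gcongr
        refine le_trans (Pr_or_le hp _ _) ?_
        gcongr
        refine le_trans (Pr_or_le hp _ _) ?_
        gcongr
        exact Pr_or_le hp _ _
    _ ≤ _ := by
        push_cast at p7
        linarith

end Pool.Agent.Work.MP_7eddf1_co
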