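import Pool.Agent.Work.MP_7eddf1_co.Window
import Pool.Agent.Work.MP_7eddf1_co.Typ

set_option autoImplicit false
set_option linter.unusedSectionVars false
set_option linter.unusedVariables false

/-!
The contradiction inside a good block.
-/

namespace Pool.Agent.Work.MP_7eddf1_co

open Finset

variable {Ω : Type*} [Fintype Ω]

/-- The cell of a value. -/
noncomputable def cv (p : Ω → ℝ) (U : Ω → ℕ) (l u : ℕ) : ℕ :=
  ⌊(2 : ℝ) ^ l * Pr p (fun s => U s < u)⌋₊

lemma cell_eq_cv (p : Ω → ℝ) (U : Ω → ℕ) (l : ℕ) (t : Ω) : cell p U l t = cv p U l (U t) := rfl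

lemma cv_nest (p : Ω → ℝ) (U : Ω → ℕ) (r m u : ℕ) :
    cv p U (r + m) u / 2 ^ m = cv p U r u := by
  unfold cv
  have h := Nat.floor_div_natCast ((2 : ℝ) ^ (r + m) * Pr p (fun s => U s < u)) (2 ^ m)
  rw [← h]
  congr 1
  push_cast
  rw [pow_add]
  have : (2 : ℝ) ^ m ≠ 0 := by positivity
  field_simp

/-- The values of `U` in a cell. -/
noncomputable def vals (p : Ω → ℝ) (U : Ω → ℕ) (l i : ℕ) : Finset ℕ :=
  (univ.image U).filter fun u => cv p U l u = i

lemma Pr_cell_and (p : Ω → ℝ) (U : Ω → ℕ) (l i : ℕ) (E : Ω → Prop) :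
    Pr p (fun t => cell p U l t = i ∧ E t) =
      ∑ u ∈ vals p U l i, Pr p (fun t => U t = u ∧ E t) := by
  classical
  rw [← sum_Pr_fiber U (univ.image U) (by intro t; simp) (fun t => cell p U l t = i ∧ E t)]
  unfold vals
  rw [Finset.sum_filter]
  apply Finset.sum_congr rfl
  intro u _
  split_ifs with h
  · apply Pr_congr
    intro t
    rw [cell_eq_cv]
    constructor
    · rintro ⟨h1, h2, h3⟩
      exact ⟨h1, h3⟩
    · rintro ⟨h1, h2⟩
      exact ⟨h1, by rw [h1]; exact h, h2⟩
  · apply Pr_false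
    rintro t ⟨h1, h2, h3⟩
    apply h
    rw [← h2, cell_eq_cv, h1]

lemma vals_sub (p : Ω → ℝ) (U : Ω → ℕ) (r m i : ℕ) :
    vals p U (r + m) i ⊆ vals p U r (i / 2 ^ m) := by
  classical
  intro u hu
  unfold vals at hu ⊢
  rw [Finset.mem_filter] at hu ⊢
  refine ⟨hu.1, ?_⟩
  rw [← cv_nest p U r m, hu.2]

/-- The deviation in a block. -/
noncomputable def blockDev (p : Ω → ℝ) (U V : Ω → ℕ) (r m i j : ℕ) : ℝ :=
  ∑ u ∈ vals p U r i, dev p U V r m u j

lemma blockDev_nonneg (p : Ω → ℝ) (U V : Ω → ℕ) (r m i j : ℕ) :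
    0 ≤ blockDev p U V r m i j := Finset.sum_nonneg fun _ _ => dev_nonneg U V r m _ _

lemma sum_blockDev {p : Ω → ℝ} (hp : ∀ t, 0 < p t) (hs : ∑ t, p t = 1) (U V : Ω → ℕ)
    (r m : ℕ) :
    ∑ i ∈ range (2 ^ r), ∑ j ∈ range (2 ^ r), blockDev p U V r m i j =
      ∑ u ∈ univ.image U, ∑ j ∈ range (2 ^ r), dev p U V r m u j := by
  classical
  have hmaps : ∀ u ∈ univ.image U, cv p U r u ∈ range (2 ^ r) := by
    intro u hu
    obtain ⟨t, -, rfl⟩ := Finset.mem_image.mp hu
    exact Finset.mem_range.mpr (cell_lt hp hs U r t)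
  rw [← Finset.sum_fiberwise_of_maps_to hmaps]
  apply Finset.sum_congr rfl
  intro i _
  unfold blockDev
  rw [Finset.sum_comm]
  rfl

/-- Comparing two cells on one fibre. -/
lemma fibre_step {p : Ω → ℝ} (hp : ∀ t, 0 < p t) {U V C J : Ω → ℕ} (hU : Chain U V C)
    (hJ : CellOf V J) (u c : ℕ) {j j' : ℕ} (hj : j < j') :
    Pr p (fun t => U t = u ∧ (J t = j' ∧ C t < c)) ≤
      Pr p (fun t => U t = u ∧ (J t = j ∧ C t < c)) +
      |Pr p (fun t => U t = u ∧ J t = j) - Pr p (fun t => U t = u ∧ J t = j')| := by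
  by_cases hex : ∃ s, U s = u ∧ (J s = j' ∧ C s < c)
  · obtain ⟨s, hs1, hs2, hs3⟩ := hex
    have h1 : Pr p (fun t => U t = u ∧ (J t = j ∧ C t < c)) =
        Pr p (fun t => U t = u ∧ J t = j) := by
      apply Pr_congr
      intro t
      constructor
      · rintro ⟨h1, h2, -⟩
        exact ⟨h1, h2⟩
      · rintro ⟨h1, h2⟩
        have hV : V t < V s := hJ.lt (by omega)
        have hC : C t < C s := hU.lt (h1.trans hs1.symm) hV
        exact ⟨h1, h2, by omega⟩
    have h2 : Pr p (fun t => U t = u ∧ (J t = j' ∧ C t < c)) ≤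
        Pr p (fun t => U t = u ∧ J t = j') := Pr_mono hp fun t ht => ⟨ht.1, ht.2.1⟩
    rw [h1]
    have h3 := neg_abs_le (Pr p (fun t => U t = u ∧ J t = j) - Pr p (fun t => U t = u ∧ J t = j'))
    linarith
  · push Not at hex
    rw [Pr_false p (E := fun t => U t = u ∧ (J t = j' ∧ C t < c)) (by
      rintro t ⟨h1, h2, h3⟩
      exact absurd h3 (by have := hex t h1 h2; omega))]
    have h1 := Pr_nonneg hp (fun t => U t = u ∧ (J t = j ∧ C t < c))
    positivity

/-- Comparing two cells with the same first cell, on one fibre, in the presence of a point. -/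
lemma fibre_drop {p : Ω → ℝ} (hp : ∀ t, 0 < p t) {A B C I J K : Ω → ℕ} (hA : Chain A B C)
    (hJ : CellOf B J) (hK : CellOf C K) (a : ℕ) {D : ℕ} (hD : 0 < D)
    (t0 : Ω) {j' : ℕ} (hj : J t0 + D ≤ j') :
    Pr p (fun t => A t = a ∧ (J t = j' ∧ C t < C t0)) +
      Pr p (fun t => A t = a ∧ ((I t, J t, K t) = (I t0, J t0, K t0) ∧
        ¬ Span A J K D (A t) (K t) ∧ C t < C t0)) ≤
      Pr p (fun t => A t = a ∧ (J t = J t0 ∧ C t < C t0)) +
      |Pr p (fun t => A t = a ∧ J t = J t0) - Pr p (fun t => A t = a ∧ J t = j')| := by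
  by_cases hex : ∃ s, A s = a ∧ ((I s, J s, K s) = (I t0, J t0, K t0) ∧
        ¬ Span A J K D (A s) (K s) ∧ C s < C t0)
  · obtain ⟨s, hs1, hs2, hs3, hs4⟩ := hex
    simp only [Prod.mk.injEq] at hs2
    obtain ⟨-, hs2, hs5⟩ := hs2
    rw [Pr_false p (E := fun t => A t = a ∧ (J t = j' ∧ C t < C t0)) (by
      rintro t ⟨h1, h2, h3⟩
      apply hs3
      have hB : B s < B t := hJ.lt (by omega)
      have hC : C s < C t := hA.lt (hs1.trans h1.symm) hB
      have hK1 := hK s t hC.le
      have hK2 := hK t t0 h3.le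
      exact ⟨s, t, rfl, h1.trans hs1.symm, rfl, by omega, by omega⟩)]
    have h1 : Pr p (fun t => A t = a ∧ ((I t, J t, K t) = (I t0, J t0, K t0) ∧
        ¬ Span A J K D (A t) (K t) ∧ C t < C t0)) ≤
        Pr p (fun t => A t = a ∧ (J t = J t0 ∧ C t < C t0)) := by
      apply Pr_mono hp
      rintro t ⟨h1, h2, h3, h4⟩
      simp only [Prod.mk.injEq] at h2
      exact ⟨h1, h2.2.1, h4⟩
    have h2 := abs_nonneg (Pr p (fun t => A t = a ∧ J t = J t0) -
      Pr p (fun t => A t = a ∧ J t = j'))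
    linarith
  · push Not at hex
    rw [Pr_false p (E := fun t => A t = a ∧ ((I t, J t, K t) = (I t0, J t0, K t0) ∧
        ¬ Span A J K D (A t) (K t) ∧ C t < C t0)) (by
      rintro t ⟨h1, h2, h3, h4⟩
      exact absurd h4 (by have := hex t h1 h2 h3; omega))]
    rw [add_zero]
    exact fibre_step hp hA hJ a (C t0) (by omega)

lemma abs_sub_le_dev {p : Ω → ℝ} (U V : Ω → ℕ) (r m u : ℕ) {j j' : ℕ} (hne : j ≠ j')
    (hjj : j / 2 ^ m = j' / 2 ^ m) :
    |Pr p (fun t => U t = u ∧ cell p V (r + m) t = j) -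
      Pr p (fun t => U t = u ∧ cell p V (r + m) t = j')| ≤ dev p U V r m u (j / 2 ^ m) := by
  classical
  set X := Pr p (fun t => U t = u ∧ cell p V r t = j / 2 ^ m) / 2 ^ m with hX
  have h1 : |Pr p (fun t => U t = u ∧ cell p V (r + m) t = j) - X| +
      |Pr p (fun t => U t = u ∧ cell p V (r + m) t = j') - X| ≤
      dev p U V r m u (j / 2 ^ m) := by
    unfold dev
    have hsub : ({j, j'} : Finset ℕ) ⊆ blk m (j / 2 ^ m) := by
      intro x hx
      simp only [Finset.mem_insert, Finset.mem_singleton] at hx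
      rw [mem_blk]
      rcases hx with rfl | rfl
      · rfl
      · exact hjj.symm
    have := Finset.sum_le_sum_of_subset_of_nonneg hsub
      (f := fun j => |Pr p (fun t => U t = u ∧ cell p V (r + m) t = j) - X|)
      (fun _ _ _ => abs_nonneg _)
    rw [Finset.sum_pair hne] at this
    exact this
  have h2 := abs_sub_le (Pr p (fun t => U t = u ∧ cell p V (r + m) t = j)) X
    (Pr p (fun t => U t = u ∧ cell p V (r + m) t = j'))
  rw [abs_sub_comm X] at h2
  linarith

/-- First comparison: going up by at least `D` cells of `B` with the cell of `A` fixed. -/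
lemma comp1 {p : Ω → ℝ} (hp : ∀ t, 0 < p t) {A B C : Ω → ℕ} (hA : Chain A B C)
    (r m : ℕ) {D : ℕ} (hD : 0 < D) (t0 : Ω) {j' : ℕ} (hj : cell p B (r + m) t0 + D ≤ j')
    (hjj : cell p B (r + m) t0 / 2 ^ m = j' / 2 ^ m) :
    Pr p (fun t => cell p A (r + m) t = cell p A (r + m) t0 ∧
        (cell p B (r + m) t = j' ∧ C t < C t0)) +
      drop p A C (cell p A (r + m)) (cell p B (r + m)) (cell p C (r + m)) D t0 ≤
      Pr p (fun t => cell p A (r + m) t = cell p A (r + m) t0 ∧
        (cell p B (r + m) t = cell p B (r + m) t0 ∧ C t < C t0)) +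
      blockDev p A B r m (cell p A r t0) (cell p B r t0) := by
  classical
  set I := cell p A (r + m) with hI
  set J := cell p B (r + m) with hJ
  set K := cell p C (r + m) with hK
  have hJc : CellOf B J := cell_mono hp B (r + m)
  have hKc : CellOf C K := cell_mono hp C (r + m)
  have e1 := Pr_cell_and p A (r + m) (I t0) (fun t => J t = j' ∧ C t < C t0)
  have e2 := Pr_cell_and p A (r + m) (I t0) (fun t => J t = J t0 ∧ C t < C t0)
  have e3 : drop p A C I J K D t0 = ∑ a ∈ vals p A (r + m) (I t0),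
      Pr p (fun t => A t = a ∧ ((I t, J t, K t) = (I t0, J t0, K t0) ∧
        ¬ Span A J K D (A t) (K t) ∧ C t < C t0)) := by
    rw [← Pr_cell_and]
    apply Pr_congr
    intro t
    simp only [Prod.mk.injEq, ← hI]
    tauto
  rw [← hI] at e1 e2
  rw [e1, e2, e3, ← Finset.sum_add_distrib]
  have e4 : ∑ a ∈ vals p A (r + m) (I t0), |Pr p (fun t => A t = a ∧ J t = J t0) -
      Pr p (fun t => A t = a ∧ J t = j')| ≤
      blockDev p A B r m (cell p A r t0) (cell p B r t0) := by
    unfold blockDev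
    calc ∑ a ∈ vals p A (r + m) (I t0), |Pr p (fun t => A t = a ∧ J t = J t0) -
        Pr p (fun t => A t = a ∧ J t = j')|
        ≤ ∑ a ∈ vals p A (r + m) (I t0), dev p A B r m a (cell p B r t0) := by
          apply Finset.sum_le_sum
          intro a _
          rw [← cell_nest p B r m t0]
          exact abs_sub_le_dev A B r m a (by omega) hjj
      _ ≤ _ := by
          apply Finset.sum_le_sum_of_subset_of_nonneg
          · have := vals_sub p A r m (I t0)
            rw [hI, cell_nest] at this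
            exact this
          · intro _ _ _
            exact dev_nonneg _ _ _ _ _ _
  calc ∑ a ∈ vals p A (r + m) (I t0), (Pr p (fun t => A t = a ∧ (J t = j' ∧ C t < C t0)) +
      Pr p (fun t => A t = a ∧ ((I t, J t, K t) = (I t0, J t0, K t0) ∧
        ¬ Span A J K D (A t) (K t) ∧ C t < C t0)))
      ≤ ∑ a ∈ vals p A (r + m) (I t0),
        (Pr p (fun t => A t = a ∧ (J t = J t0 ∧ C t < C t0)) +
        |Pr p (fun t => A t = a ∧ J t = J t0) - Pr p (fun t => A t = a ∧ J t = j')|) := by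
        apply Finset.sum_le_sum
        intro a _
        exact fibre_drop hp hA hJc hKc a hD t0 hj
    _ ≤ _ := by
        rw [Finset.sum_add_distrib]
        linarith

/-- Second comparison: going right with the cell of `B` fixed. -/
lemma comp2 {p : Ω → ℝ} (hp : ∀ t, 0 < p t) {A B C : Ω → ℕ} (hB : Chain B A C)
    (r m c : ℕ) {i i' j : ℕ} (hi : i ≤ i') (hii : i / 2 ^ m = i' / 2 ^ m) :
    Pr p (fun t => cell p A (r + m) t = i' ∧ (cell p B (r + m) t = j ∧ C t < c)) ≤
      Pr p (fun t => cell p A (r + m) t = i ∧ (cell p B (r + m) t = j ∧ C t < c)) +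
      blockDev p B A r m (j / 2 ^ m) (i / 2 ^ m) := by
  classical
  rcases Nat.eq_or_lt_of_le hi with h | hlt
  · subst h
    have := blockDev_nonneg p B A r m (j / 2 ^ m) (i / 2 ^ m)
    linarith
  · set I := cell p A (r + m) with hI
    set J := cell p B (r + m) with hJ
    have hIc : CellOf A I := cell_mono hp A (r + m)
    have e1 : Pr p (fun t => I t = i' ∧ (J t = j ∧ C t < c)) =
        ∑ b ∈ vals p B (r + m) j, Pr p (fun t => B t = b ∧ (I t = i' ∧ C t < c)) := by
      rw [← Pr_cell_and]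
      apply Pr_congr
      intro t
      rw [← hJ]
      tauto
    have e2 : Pr p (fun t => I t = i ∧ (J t = j ∧ C t < c)) =
        ∑ b ∈ vals p B (r + m) j, Pr p (fun t => B t = b ∧ (I t = i ∧ C t < c)) := by
      rw [← Pr_cell_and]
      apply Pr_congr
      intro t
      rw [← hJ]
      tauto
    rw [e1, e2]
    have e4 : ∑ b ∈ vals p B (r + m) j, |Pr p (fun t => B t = b ∧ I t = i) -
        Pr p (fun t => B t = b ∧ I t = i')| ≤
        blockDev p B A r m (j / 2 ^ m) (i / 2 ^ m) := by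
      unfold blockDev
      calc ∑ b ∈ vals p B (r + m) j, |Pr p (fun t => B t = b ∧ I t = i) -
          Pr p (fun t => B t = b ∧ I t = i')|
          ≤ ∑ b ∈ vals p B (r + m) j, dev p B A r m b (i / 2 ^ m) := by
            apply Finset.sum_le_sum
            intro b _
            exact abs_sub_le_dev B A r m b (by omega) hii
        _ ≤ _ := by
            apply Finset.sum_le_sum_of_subset_of_nonneg (vals_sub p B r m j)
            intro _ _ _
            exact dev_nonneg _ _ _ _ _ _
    calc ∑ b ∈ vals p B (r + m) j, Pr p (fun t => B t = b ∧ (I t = i' ∧ C t < c))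
        ≤ ∑ b ∈ vals p B (r + m) j, (Pr p (fun t => B t = b ∧ (I t = i ∧ C t < c)) +
          |Pr p (fun t => B t = b ∧ I t = i) - Pr p (fun t => B t = b ∧ I t = i')|) := by
          apply Finset.sum_le_sum
          intro b _
          exact fibre_step hp hB hIc b c hlt
      _ ≤ _ := by
          rw [Finset.sum_add_distrib]
          linarith

/-- The weight of a fine cell is close to the expected fraction of the weight of its block. -/
lemma fine_weight {p : Ω → ℝ} (hp : ∀ t, 0 < p t) (A B : Ω → ℕ) (r m i j : ℕ) :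
    |Pr p (fun t => cell p A (r + m) t = i ∧ cell p B (r + m) t = j) -
      Pr p (fun t => cell p A r t = i / 2 ^ m ∧ cell p B r t = j / 2 ^ m) / 4 ^ m| ≤
      blockDev p A B r m (i / 2 ^ m) (j / 2 ^ m) +
        blockDev p B A r m (j / 2 ^ m) (i / 2 ^ m) := by
  classical
  have h2m : (0 : ℝ) < 2 ^ m := by positivity
  have h1m : (1 : ℝ) ≤ 2 ^ m := one_le_pow₀ (by norm_num)
  -- first step
  have s1 : |Pr p (fun t => cell p A (r + m) t = i ∧ cell p B (r + m) t = j) -
      Pr p (fun t => cell p A (r + m) t = i ∧ cell p B r t = j / 2 ^ m) / 2 ^ m| ≤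
      blockDev p A B r m (i / 2 ^ m) (j / 2 ^ m) := by
    rw [Pr_cell_and, Pr_cell_and, Finset.sum_div, ← Finset.sum_sub_distrib]
    refine le_trans (Finset.abs_sum_le_sum_abs _ _) ?_
    unfold blockDev
    calc ∑ u ∈ vals p A (r + m) i, |Pr p (fun t => A t = u ∧ cell p B (r + m) t = j) -
        Pr p (fun t => A t = u ∧ cell p B r t = j / 2 ^ m) / 2 ^ m|
        ≤ ∑ u ∈ vals p A (r + m) i, dev p A B r m u (j / 2 ^ m) := by
          apply Finset.sum_le_sum
          intro u _
          unfold dev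
          exact Finset.single_le_sum (f := fun j' =>
            |Pr p (fun t => A t = u ∧ cell p B (r + m) t = j') -
              Pr p (fun t => A t = u ∧ cell p B r t = j / 2 ^ m) / 2 ^ m|)
            (fun _ _ => abs_nonneg _) (mem_blk.mpr rfl)
      _ ≤ _ := Finset.sum_le_sum_of_subset_of_nonneg (vals_sub p A r m i)
          (fun _ _ _ => dev_nonneg _ _ _ _ _ _)
  -- second step
  have s2 : |Pr p (fun t => cell p A (r + m) t = i ∧ cell p B r t = j / 2 ^ m) -
      Pr p (fun t => cell p A r t = i / 2 ^ m ∧ cell p B r t = j / 2 ^ m) / 2 ^ m| ≤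
      blockDev p B A r m (j / 2 ^ m) (i / 2 ^ m) := by
    have f1 : Pr p (fun t => cell p A (r + m) t = i ∧ cell p B r t = j / 2 ^ m) =
        Pr p (fun t => cell p B r t = j / 2 ^ m ∧ cell p A (r + m) t = i) := by
      apply Pr_congr
      intro t
      tauto
    have f2 : Pr p (fun t => cell p A r t = i / 2 ^ m ∧ cell p B r t = j / 2 ^ m) =
        Pr p (fun t => cell p B r t = j / 2 ^ m ∧ cell p A r t = i / 2 ^ m) := by
      apply Pr_congr
      intro t
      tauto
    rw [f1, f2, Pr_cell_and, Pr_cell_and, Finset.sum_div, ← Finset.sum_sub_distrib]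
    refine le_trans (Finset.abs_sum_le_sum_abs _ _) ?_
    unfold blockDev
    apply Finset.sum_le_sum
    intro u _
    unfold dev
    exact Finset.single_le_sum (f := fun i' =>
      |Pr p (fun t => B t = u ∧ cell p A (r + m) t = i') -
        Pr p (fun t => B t = u ∧ cell p A r t = i / 2 ^ m) / 2 ^ m|)
      (fun _ _ => abs_nonneg _) (mem_blk.mpr rfl)
  set x := Pr p (fun t => cell p A (r + m) t = i ∧ cell p B (r + m) t = j)
  set y := Pr p (fun t => cell p A (r + m) t = i ∧ cell p B r t = j / 2 ^ m)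
  set z := Pr p (fun t => cell p A r t = i / 2 ^ m ∧ cell p B r t = j / 2 ^ m)
  have h4 : (4 : ℝ) ^ m = 2 ^ m * 2 ^ m := by
    rw [← mul_pow]
    norm_num
  have s3 : |y / 2 ^ m - z / 4 ^ m| ≤ blockDev p B A r m (j / 2 ^ m) (i / 2 ^ m) := by
    have : y / 2 ^ m - z / 4 ^ m = (y - z / 2 ^ m) / 2 ^ m := by
      rw [h4]
      field_simp
    rw [this, abs_div, abs_of_pos h2m]
    exact le_trans (div_le_self (abs_nonneg _) h1m) s2
  have h5 := abs_sub_le x (y / 2 ^ m) (z / 4 ^ m)
  linarith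

end Pool.Agent.Work.MP_7eddf1_co
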