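import Pool.Agent.Work.MP_7eddf1_co.Tail

set_option autoImplicit false
set_option linter.unusedSectionVars false
set_option linter.unusedVariables false

/-!
The extremal weights.
-/

namespace Pool.Agent.Work.MP_7eddf1_co

open Finset

variable {Ω : Type} [Fintype Ω] {n : ℕ}

/-- Extremal weights. -/
structure Opt (β : ℝ) (A B C : Ω → Fin n) (x y z : Fin n → ℝ) (M : ℝ) : Prop where
  hx : ∀ a, 0 ≤ x a
  hy : ∀ a, 0 ≤ y a
  hz : ∀ a, 0 ≤ z a
  sx : ∑ a, x a = 1
  sy : ∑ a, y a = 1
  sz : ∑ a, z a = 1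
  hM : ∑ t, (x (A t) * y (B t) * z (C t)) ^ β = M
  hM0 : 0 < M
  hmax : ∀ x' y' z' : Fin n → ℝ, (∀ a, 0 ≤ x' a) → (∀ a, 0 ≤ y' a) → (∀ a, 0 ≤ z' a) →
    ∑ t, (x' (A t) * y' (B t) * z' (C t)) ^ β ≤
      M * ((∑ a, x' a) * (∑ a, y' a) * (∑ a, z' a)) ^ β

lemma Opt.swap12 {β : ℝ} {A B C : Ω → Fin n} {x y z : Fin n → ℝ} {M : ℝ}
    (h : Opt β A B C x y z M) : Opt β B A C y x z M where
  hx := h.hy
  hy := h.hx
  hz := h.hz
  sx := h.sy
  sy := h.sx
  sz := h.sz
  hM := by
    rw [← h.hM]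
    apply Finset.sum_congr rfl
    intro t _
    rw [mul_comm (y (B t))]
  hM0 := h.hM0
  hmax := by
    intro x' y' z' h1 h2 h3
    have := h.hmax y' x' z' h2 h1 h3
    rw [mul_comm (∑ a, x' a)]
    refine le_trans (le_of_eq ?_) this
    apply Finset.sum_congr rfl
    intro t _
    rw [mul_comm (x' (B t))]

lemma Opt.swap23 {β : ℝ} {A B C : Ω → Fin n} {x y z : Fin n → ℝ} {M : ℝ}
    (h : Opt β A B C x y z M) : Opt β A C B x z y M where
  hx := h.hx
  hy := h.hz
  hz := h.hy
  sx := h.sx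
  sy := h.sz
  sz := h.sy
  hM := by
    rw [← h.hM]
    apply Finset.sum_congr rfl
    intro t _
    rw [mul_right_comm]
  hM0 := h.hM0
  hmax := by
    intro x' y' z' h1 h2 h3
    have := h.hmax x' z' y' h1 h3 h2
    rw [mul_right_comm]
    refine le_trans (le_of_eq ?_) this
    apply Finset.sum_congr rfl
    intro t _
    rw [mul_right_comm]

lemma exists_opt {β : ℝ} (hβ : 0 < β) (hn : 0 < n) [Nonempty Ω] (A B C : Ω → Fin n) :
    ∃ x y z M, Opt β A B C x y z M ∧
      (Fintype.card Ω : ℝ) * ((1 / (n : ℝ)) ^ 3) ^ β ≤ M := by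
  classical
  have : Nonempty (Fin n) := ⟨⟨0, hn⟩⟩
  have hnr : (0 : ℝ) < n := by exact_mod_cast hn
  set D := stdSimplex ℝ (Fin n) with hD
  have hDc : IsCompact D := isCompact_stdSimplex ℝ (Fin n)
  set Ψ : (Fin n → ℝ) × (Fin n → ℝ) × (Fin n → ℝ) → ℝ := fun w =>
    ∑ t, (w.1 (A t) * w.2.1 (B t) * w.2.2 (C t)) ^ β with hΨ
  have hcont : Continuous Ψ := by
    rw [hΨ]
    apply continuous_finsetSum
    intro t _
    apply Continuous.rpow_const
    · fun_prop
    · intro _
      exact Or.inr hβ.le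
  set unif : Fin n → ℝ := fun _ => 1 / (n : ℝ) with hunif
  have hunifD : unif ∈ D := by
    rw [hD]
    refine ⟨fun _ => by positivity, ?_⟩
    simp [hunif]
    field_simp
  obtain ⟨w, hwD, hwmax⟩ := (hDc.prod (hDc.prod hDc)).exists_isMaxOn
    ⟨(unif, unif, unif), hunifD, hunifD, hunifD⟩ hcont.continuousOn
  obtain ⟨hw1, hw2, hw3⟩ := hwD
  have hmaxu : Ψ (unif, unif, unif) ≤ Ψ w := hwmax ⟨hunifD, hunifD, hunifD⟩
  have hΨu : Ψ (unif, unif, unif) = (Fintype.card Ω : ℝ) * ((1 / (n : ℝ)) ^ 3) ^ β := by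
    simp only [hΨ, hunif]
    rw [Finset.sum_const, Finset.card_univ, nsmul_eq_mul]
    congr 2
    ring
  have hcard : (0 : ℝ) < Fintype.card Ω := by exact_mod_cast Fintype.card_pos
  have hM0 : 0 < Ψ w := by
    refine lt_of_lt_of_le ?_ hmaxu
    rw [hΨu]
    positivity
  refine ⟨w.1, w.2.1, w.2.2, Ψ w, ⟨hw1.1, hw2.1, hw3.1, hw1.2, hw2.2, hw3.2, rfl, hM0, ?_⟩, ?_⟩
  · intro x' y' z' hx' hy' hz'
    have hX0 : 0 ≤ ∑ a, x' a := Finset.sum_nonneg fun a _ => hx' a
    have hY0 : 0 ≤ ∑ a, y' a := Finset.sum_nonneg fun a _ => hy' a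
    have hZ0 : 0 ≤ ∑ a, z' a := Finset.sum_nonneg fun a _ => hz' a
    set X := ∑ a, x' a with hX
    set Y := ∑ a, y' a with hY
    set Z := ∑ a, z' a with hZ
    by_cases hall : 0 < X ∧ 0 < Y ∧ 0 < Z
    · obtain ⟨hXp, hYp, hZp⟩ := hall
      have hmem : ((fun a => x' a / X, fun a => y' a / Y, fun a => z' a / Z) :
          (Fin n → ℝ) × (Fin n → ℝ) × (Fin n → ℝ)) ∈ D ×ˢ (D ×ˢ D) := by
        refine ⟨⟨fun a => div_nonneg (hx' a) hX0, ?_⟩, ⟨fun a => div_nonneg (hy' a) hY0, ?_⟩,
          ⟨fun a => div_nonneg (hz' a) hZ0, ?_⟩⟩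
        · simp only
          rw [← Finset.sum_div, ← hX, div_self hXp.ne']
        · simp only
          rw [← Finset.sum_div, ← hY, div_self hYp.ne']
        · simp only
          rw [← Finset.sum_div, ← hZ, div_self hZp.ne']
      have h1 : Ψ (fun a => x' a / X, fun a => y' a / Y, fun a => z' a / Z) ≤ Ψ w :=
        hwmax hmem
      have h2 : Ψ (fun a => x' a / X, fun a => y' a / Y, fun a => z' a / Z) =
          (∑ t, (x' (A t) * y' (B t) * z' (C t)) ^ β) / (X * Y * Z) ^ β := by
        simp only [hΨ]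
        rw [Finset.sum_div]
        apply Finset.sum_congr rfl
        intro t _
        rw [← Real.div_rpow (mul_nonneg (mul_nonneg (hx' _) (hy' _)) (hz' _)) (by positivity)]
        congr 1
        field_simp
      rw [h2, div_le_iff₀ (by positivity)] at h1
      exact h1
    · have hzero : ∀ t, x' (A t) * y' (B t) * z' (C t) = 0 := by
        intro t
        by_contra hne
        apply hall
        have e1 : x' (A t) ≠ 0 := by
          intro h
          apply hne
          rw [h]
          ring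
        have e2 : y' (B t) ≠ 0 := by
          intro h
          apply hne
          rw [h]
          ring
        have e3 : z' (C t) ≠ 0 := by
          intro h
          apply hne
          rw [h]
          ring
        refine ⟨?_, ?_, ?_⟩
        · exact lt_of_lt_of_le (lt_of_le_of_ne (hx' _) (Ne.symm e1))
            (Finset.single_le_sum (fun a _ => hx' a) (Finset.mem_univ _))
        · exact lt_of_lt_of_le (lt_of_le_of_ne (hy' _) (Ne.symm e2))
            (Finset.single_le_sum (fun a _ => hy' a) (Finset.mem_univ _))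
        · exact lt_of_lt_of_le (lt_of_le_of_ne (hz' _) (Ne.symm e3))
            (Finset.single_le_sum (fun a _ => hz' a) (Finset.mem_univ _))
      have : ∑ t, (x' (A t) * y' (B t) * z' (C t)) ^ β = 0 := by
        apply Finset.sum_eq_zero
        intro t _
        rw [hzero, Real.zero_rpow hβ.ne']
      rw [this]
      have : 0 ≤ (X * Y * Z) ^ β := Real.rpow_nonneg (by positivity) _
      positivity
  · rw [← hΨu]
    exact hmaxu

/-- First order optimality. -/
lemma Opt.marg_le {β : ℝ} (hβ0 : 0 < β) (hβ1 : β ≤ 1) {A B C : Ω → Fin n}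
    {x y z : Fin n → ℝ} {M : ℝ} (h : Opt β A B C x y z M) (a : Fin n) :
    x a ^ β * ∑ t ∈ univ.filter (fun t => A t = a), (y (B t) * z (C t)) ^ β ≤ M * x a := by
  classical
  set Q := ∑ t ∈ univ.filter (fun t => A t = a), (y (B t) * z (C t)) ^ β with hQ
  have hxa : 0 ≤ x a := h.hx a
  have hyz : ∀ t, 0 ≤ y (B t) * z (C t) := fun t => mul_nonneg (h.hy _) (h.hz _)
  have hQ0 : 0 ≤ Q := Finset.sum_nonneg fun t _ => Real.rpow_nonneg (hyz t) _
  -- decomposition
  have hdec : ∀ s : ℝ, 0 ≤ s → ∑ t, ((x (A t) + if A t = a then s else 0) * y (B t) *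
      z (C t)) ^ β = ∑ t ∈ univ.filter (fun t => ¬ A t = a),
      (x (A t) * y (B t) * z (C t)) ^ β + (x a + s) ^ β * Q := by
    intro s hs
    rw [← Finset.sum_filter_add_sum_filter_not univ (fun t => A t = a), add_comm]
    congr 1
    · apply Finset.sum_congr rfl
      intro t ht
      rw [Finset.mem_filter] at ht
      rw [if_neg ht.2, add_zero]
    · rw [hQ, Finset.mul_sum]
      apply Finset.sum_congr rfl
      intro t ht
      rw [Finset.mem_filter] at ht
      rw [if_pos ht.2, ht.2, mul_assoc, Real.mul_rpow (by positivity) (hyz t)]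
  have h0 : M = ∑ t ∈ univ.filter (fun t => ¬ A t = a),
      (x (A t) * y (B t) * z (C t)) ^ β + x a ^ β * Q := by
    have := hdec 0 le_rfl
    simp only [ite_self, add_zero] at this
    rw [h.hM] at this
    exact this
  have hstep : ∀ s : ℝ, 0 < s → Q * (x a + s) ^ β ≤ M * (x a + s) := by
    intro s hs
    have hxs : 0 < x a + s := by linarith
    have h1 := h.hmax (fun b => x b + if b = a then s else 0) y z
      (fun b => by
        have := h.hx b
        split_ifs <;> linarith) h.hy h.hz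
    rw [hdec s hs.le, Finset.sum_add_distrib, h.sx, h.sy, h.sz, mul_one, mul_one,
      Finset.sum_ite_eq' univ a (fun _ => s), if_pos (Finset.mem_univ a)] at h1
    have h2 : (1 + s) ^ β ≤ 1 + β * s :=
      rpow_one_add_le_one_add_mul_self (by linarith) hβ0.le hβ1
    have h3 : (1 + -(s / (x a + s))) ^ β ≤ 1 + β * (-(s / (x a + s))) := by
      apply rpow_one_add_le_one_add_mul_self _ hβ0.le hβ1
      have : s / (x a + s) ≤ 1 := by
        rw [div_le_one hxs]
        linarith
      linarith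
    have h4 : x a ^ β ≤ (x a + s) ^ β * (1 + β * (-(s / (x a + s)))) := by
      have e1 : x a = (x a + s) * (1 + -(s / (x a + s))) := by
        field_simp
        ring
      have e2 : 0 ≤ 1 + -(s / (x a + s)) := by
        have : s / (x a + s) ≤ 1 := by
          rw [div_le_one hxs]
          linarith
        linarith
      calc x a ^ β = ((x a + s) * (1 + -(s / (x a + s)))) ^ β := by rw [← e1]
        _ = (x a + s) ^ β * (1 + -(s / (x a + s))) ^ β := Real.mul_rpow hxs.le e2
        _ ≤ _ := mul_le_mul_of_nonneg_left h3 (Real.rpow_nonneg hxs.le _)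
    have hMnn := h.hM0.le
    have h5 : Q * ((x a + s) ^ β * (β * (s / (x a + s)))) ≤ M * (β * s) := by
      have e1 : M * (1 + s) ^ β ≤ M * (1 + β * s) := mul_le_mul_of_nonneg_left h2 hMnn
      have e2 : x a ^ β * Q ≤ (x a + s) ^ β * (1 + β * (-(s / (x a + s)))) * Q :=
        mul_le_mul_of_nonneg_right h4 hQ0
      nlinarith
    have h6 : Q * ((x a + s) ^ β * (β * (s / (x a + s)))) =
        (Q * (x a + s) ^ β) * (β * s) / (x a + s) := by ring
    rw [h6, div_le_iff₀ hxs] at h5
    have hbs : 0 < β * s := by positivity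
    have h7 : (Q * (x a + s) ^ β) * (β * s) ≤ (M * (x a + s)) * (β * s) := by linarith
    exact le_of_mul_le_mul_right h7 hbs
  have hcl : IsClosed {s : ℝ | Q * (x a + s) ^ β ≤ M * (x a + s)} := by
    apply isClosed_le
    · apply Continuous.mul continuous_const
      apply Continuous.rpow_const (by fun_prop)
      intro _
      exact Or.inr hβ0.le
    · fun_prop
  have hsub : Set.Ioi (0 : ℝ) ⊆ {s : ℝ | Q * (x a + s) ^ β ≤ M * (x a + s)} :=
    fun s hs => hstep s hs
  have h8 := hcl.closure_subset_iff.mpr hsub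
  rw [closure_Ioi] at h8
  have h9 := h8 (Set.self_mem_Ici)
  simp only [Set.mem_ofPred_eq, add_zero] at h9
  linarith

lemma Opt.fibre_sum {β : ℝ} {A B C : Ω → Fin n}
    {x y z : Fin n → ℝ} {M : ℝ} (h : Opt β A B C x y z M) (a : Fin n) :
    ∑ t ∈ univ.filter (fun t => A t = a), (x (A t) * y (B t) * z (C t)) ^ β =
      x a ^ β * ∑ t ∈ univ.filter (fun t => A t = a), (y (B t) * z (C t)) ^ β := by
  classical
  rw [Finset.mul_sum]
  apply Finset.sum_congr rfl
  intro t ht
  rw [Finset.mem_filter] at ht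
  rw [ht.2, mul_assoc, Real.mul_rpow (h.hx a) (mul_nonneg (h.hy _) (h.hz _))]

lemma Opt.marg_eq {β : ℝ} (hβ0 : 0 < β) (hβ1 : β ≤ 1) {A B C : Ω → Fin n}
    {x y z : Fin n → ℝ} {M : ℝ} (h : Opt β A B C x y z M) (a : Fin n) :
    ∑ t ∈ univ.filter (fun t => A t = a), (x (A t) * y (B t) * z (C t)) ^ β = M * x a := by
  classical
  have hle : ∀ a ∈ univ, ∑ t ∈ univ.filter (fun t => A t = a),
      (x (A t) * y (B t) * z (C t)) ^ β ≤ M * x a := by
    intro a _
    rw [h.fibre_sum]
    exact h.marg_le hβ0 hβ1 a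
  have hsum : ∑ a, ∑ t ∈ univ.filter (fun t => A t = a),
      (x (A t) * y (B t) * z (C t)) ^ β = ∑ a, M * x a := by
    rw [← Finset.mul_sum, h.sx, mul_one, Finset.sum_fiberwise, h.hM]
  exact (Finset.sum_eq_sum_iff_of_le hle).mp hsum a (Finset.mem_univ a)

/-- The extremal weights are small. -/
lemma Opt.atom {β : ℝ} (hβ0 : 1 / 2 ≤ β) (hβ1 : β ≤ 1) {A B C : Ω → Fin n}
    {x y z : Fin n → ℝ} {M : ℝ} (h : Opt β A B C x y z M)
    (hAB : ∀ s t, A s = A t → B s = B t → s = t)
    (hAC : ∀ s t, A s = A t → C s = C t → s = t) (a : Fin n) :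
    x a * M ≤ 1 := by
  classical
  have hxa1 : x a ≤ 1 := by
    rw [← h.sx]
    exact Finset.single_le_sum (fun b _ => h.hx b) (Finset.mem_univ a)
  have hy1 : ∀ b, y b ≤ 1 := by
    intro b
    rw [← h.sy]
    exact Finset.single_le_sum (fun b _ => h.hy b) (Finset.mem_univ b)
  have hz1 : ∀ b, z b ≤ 1 := by
    intro b
    rw [← h.sz]
    exact Finset.single_le_sum (fun b _ => h.hz b) (Finset.mem_univ b)
  have h1 : M * x a = x a ^ β * ∑ t ∈ univ.filter (fun t => A t = a),
      (y (B t) * z (C t)) ^ β := by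
    rw [← h.marg_eq (by linarith) hβ1 a, h.fibre_sum]
  have h2 : ∀ t, (y (B t) * z (C t)) ^ β ≤ (y (B t) + z (C t)) / 2 := by
    intro t
    have hyz0 : 0 ≤ y (B t) * z (C t) := mul_nonneg (h.hy _) (h.hz _)
    have hyz1 : y (B t) * z (C t) ≤ 1 := mul_le_one₀ (hy1 _) (h.hz _) (hz1 _)
    have e1 : (y (B t) * z (C t)) ^ β ≤ (y (B t) * z (C t)) ^ (1 / 2 : ℝ) :=
      Real.rpow_le_rpow_of_exponent_ge' hyz0 hyz1 (by norm_num) hβ0
    have e2 : (y (B t) * z (C t)) ^ (1 / 2 : ℝ) ≤ (y (B t) + z (C t)) / 2 := by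
      rw [← Real.sqrt_eq_rpow]
      have hn1 := h.hy (B t)
      have hn2 := h.hz (C t)
      rw [Real.sqrt_le_left (by positivity)]
      nlinarith [sq_nonneg (y (B t) - z (C t))]
    linarith
  have h3 : ∑ t ∈ univ.filter (fun t => A t = a), y (B t) ≤ 1 := by
    rw [← h.sy]
    calc ∑ t ∈ univ.filter (fun t => A t = a), y (B t)
        = ∑ b ∈ (univ.filter (fun t => A t = a)).image B, y b := by
          rw [Finset.sum_image]
          intro s hs t ht hst
          simp only [Finset.coe_filter, Finset.mem_univ, true_and, Set.mem_ofPred_eq] at hs ht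
          exact hAB s t (hs.trans ht.symm) hst
      _ ≤ ∑ b, y b := Finset.sum_le_sum_of_subset_of_nonneg (Finset.subset_univ _)
          (fun b _ _ => h.hy b)
  have h4 : ∑ t ∈ univ.filter (fun t => A t = a), z (C t) ≤ 1 := by
    rw [← h.sz]
    calc ∑ t ∈ univ.filter (fun t => A t = a), z (C t)
        = ∑ b ∈ (univ.filter (fun t => A t = a)).image C, z b := by
          rw [Finset.sum_image]
          intro s hs t ht hst
          simp only [Finset.coe_filter, Finset.mem_univ, true_and, Set.mem_ofPred_eq] at hs ht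
          exact hAC s t (hs.trans ht.symm) hst
      _ ≤ ∑ b, z b := Finset.sum_le_sum_of_subset_of_nonneg (Finset.subset_univ _)
          (fun b _ _ => h.hz b)
  have h5 : ∑ t ∈ univ.filter (fun t => A t = a), (y (B t) * z (C t)) ^ β ≤ 1 := by
    calc ∑ t ∈ univ.filter (fun t => A t = a), (y (B t) * z (C t)) ^ β
        ≤ ∑ t ∈ univ.filter (fun t => A t = a), (y (B t) + z (C t)) / 2 :=
          Finset.sum_le_sum fun t _ => h2 t
      _ = (∑ t ∈ univ.filter (fun t => A t = a), y (B t) +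
          ∑ t ∈ univ.filter (fun t => A t = a), z (C t)) / 2 := by
          rw [← Finset.sum_add_distrib, Finset.sum_div]
      _ ≤ 1 := by linarith
  have h6 : x a ^ β ≤ 1 := Real.rpow_le_one (h.hx a) hxa1 (by linarith)
  have h7 : 0 ≤ ∑ t ∈ univ.filter (fun t => A t = a), (y (B t) * z (C t)) ^ β :=
    Finset.sum_nonneg fun t _ => Real.rpow_nonneg (mul_nonneg (h.hy _) (h.hz _)) _
  rw [mul_comm, h1]
  exact mul_le_one₀ h6 h7 h5

end Pool.Agent.Work.MP_7eddf1_co
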