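import Pool.Agent.Work.MP_7eddf1_co.NoSys
import Pool.Agent.Work.MP_7eddf1_co.Opt

set_option autoImplicit false
set_option linter.unusedSectionVars false
set_option linter.unusedVariables false

/-!
The power saving.
-/

namespace Pool.Agent.Work.MP_7eddf1_co

open Finset

/-- The weight of an event on the support of extremal weights. -/
lemma Pr_support {Ω : Type} [Fintype Ω] {n : ℕ} {β : ℝ} (hβ0 : 0 < β) {A B C : Ω → Fin n}
    {x y z : Fin n → ℝ} {M : ℝ} (h : Opt β A B C x y z M)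
    [Fintype {t : Ω // 0 < x (A t) * y (B t) * z (C t)}] (E : Ω → Prop) [DecidablePred E] :
    Pr (fun t : {t : Ω // 0 < x (A t) * y (B t) * z (C t)} =>
      (x (A t.1) * y (B t.1) * z (C t.1)) ^ β / M) (fun t => E t.1) =
      (∑ t ∈ univ.filter E, (x (A t) * y (B t) * z (C t)) ^ β) / M := by
  classical
  unfold Pr
  have h1 : ∀ t : {t : Ω // 0 < x (A t) * y (B t) * z (C t)},
      Set.indicator {t : {t : Ω // 0 < x (A t) * y (B t) * z (C t)} | E t.1}
      (fun t => (x (A t.1) * y (B t.1) * z (C t.1)) ^ β / M) t =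
      (fun t : Ω => if E t then (x (A t) * y (B t) * z (C t)) ^ β / M else 0) t.1 := by
    intro t
    simp only [Set.indicator_apply, Set.mem_ofPred_eq]
  rw [Finset.sum_congr rfl (fun t _ => h1 t)]
  rw [← Finset.sum_subtype (univ.filter fun t => 0 < x (A t) * y (B t) * z (C t))
    (by intro t; simp) (fun t : Ω => if E t then (x (A t) * y (B t) * z (C t)) ^ β / M else 0)]
  rw [Finset.sum_filter, Finset.sum_filter, Finset.sum_div]
  apply Finset.sum_congr rfl
  intro t _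
  by_cases h2 : 0 < x (A t) * y (B t) * z (C t)
  · rw [if_pos h2]
    split_ifs <;> simp
  · rw [if_neg h2]
    have h3 : x (A t) * y (B t) * z (C t) = 0 :=
      le_antisymm (not_lt.mp h2) (mul_nonneg (mul_nonneg (h.hx _) (h.hy _)) (h.hz _))
    rw [h3, Real.zero_rpow hβ0.ne']
    split_ifs <;> simp

/-- The weight of a set of values. -/
lemma Opt.weight {Ω : Type} [Fintype Ω] {n : ℕ} {β : ℝ} (hβ0 : 0 < β) (hβ1 : β ≤ 1)
    {A B C : Ω → Fin n} {x y z : Fin n → ℝ} {M : ℝ} (h : Opt β A B C x y z M)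
    (E : Fin n → Prop) [DecidablePred E] :
    (∑ t ∈ univ.filter (fun t => E (A t)), (x (A t) * y (B t) * z (C t)) ^ β) / M =
      ∑ a ∈ univ.filter E, x a := by
  classical
  have hM := h.hM0
  rw [div_eq_iff hM.ne']
  have h1 : ∑ t ∈ univ.filter (fun t => E (A t)), (x (A t) * y (B t) * z (C t)) ^ β =
      ∑ a ∈ univ.filter E, ∑ t ∈ univ.filter (fun t => A t = a),
        (x (A t) * y (B t) * z (C t)) ^ β := by
    rw [← Finset.sum_fiberwise_of_maps_to (s := univ.filter (fun t => E (A t)))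
      (t := univ.filter E) (g := A) (by
        intro t ht
        simpa using ht)]
    apply Finset.sum_congr rfl
    intro a ha
    apply Finset.sum_congr _ (fun _ _ => rfl)
    ext t
    simp only [Finset.mem_filter, Finset.mem_univ, true_and] at ha ⊢
    constructor
    · exact fun h => h.2
    · exact fun h => ⟨by rw [h]; exact ha, h⟩
  rw [h1, Finset.sum_mul]
  apply Finset.sum_congr rfl
  intro a _
  rw [h.marg_eq hβ0 hβ1 a, mul_comm]

/-- The extremal weights satisfy the box inequality. -/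
lemma Opt.box {Ω : Type} [Fintype Ω] {n : ℕ} {β : ℝ} (hβ0 : 0 < β)
    {A B C : Ω → Fin n} {x y z : Fin n → ℝ} {M : ℝ} (h : Opt β A B C x y z M)
    (E F G : Fin n → Prop) [DecidablePred E] [DecidablePred F] [DecidablePred G] :
    (∑ t ∈ univ.filter (fun t => E (A t) ∧ F (B t) ∧ G (C t)),
      (x (A t) * y (B t) * z (C t)) ^ β) / M ≤
      ((∑ a ∈ univ.filter E, x a) * (∑ a ∈ univ.filter F, y a) *
        (∑ a ∈ univ.filter G, z a)) ^ β := by
  classical
  have hM := h.hM0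
  rw [div_le_iff₀ hM, mul_comm]
  have h1 := h.hmax (fun a => if E a then x a else 0) (fun a => if F a then y a else 0)
    (fun a => if G a then z a else 0)
    (fun a => by have := h.hx a; split_ifs <;> simp [this])
    (fun a => by have := h.hy a; split_ifs <;> simp [this])
    (fun a => by have := h.hz a; split_ifs <;> simp [this])
  rw [← Finset.sum_filter, ← Finset.sum_filter, ← Finset.sum_filter] at h1
  refine le_trans (le_of_eq ?_) h1
  rw [Finset.sum_filter]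
  apply Finset.sum_congr rfl
  intro t _
  by_cases hE : E (A t) <;> by_cases hF : F (B t) <;> by_cases hG : G (C t) <;>
    simp [hE, hF, hG, Real.zero_rpow hβ0.ne']

/-- The three conditions on a family of triples. -/
def Fam {Ω : Type} {n : ℕ} (A B C : Ω → Fin n) : Prop :=
  Chain (fun t => (A t : ℕ)) (fun t => (B t : ℕ)) (fun t => (C t : ℕ)) ∧
  Chain (fun t => (B t : ℕ)) (fun t => (A t : ℕ)) (fun t => (C t : ℕ)) ∧
  Chain (fun t => (C t : ℕ)) (fun t => (A t : ℕ)) (fun t => (B t : ℕ))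

lemma Chain.eq_of {Ω : Type} {W U V : Ω → ℕ} (h : Chain W U V) {s t : Ω} (h1 : W s = W t)
    (h2 : U s = U t) : s = t := by
  by_contra hne
  rcases h s t h1 hne with h | h <;> omega

/-- The bound with a constant. -/
theorem bound_const : ∃ k : ℕ, 2 ≤ k ∧ ∀ (Ω : Type) [Fintype Ω] (n : ℕ)
    (A B C : Ω → Fin n), Fam A B C →
    (Fintype.card Ω : ℝ) ≤ 100 * 8 ^ k * (n : ℝ) ^ (2 - 1 / (k : ℝ)) := by
  classical
  obtain ⟨k, hk2, hno⟩ := no_system
  refine ⟨k, hk2, ?_⟩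
  intro Ω _ n A B C hfam
  obtain ⟨hA, hB, hC⟩ := hfam
  rcases isEmpty_or_nonempty Ω with hemp | hne
  · rw [Fintype.card_eq_zero, Nat.cast_zero]
    have : (0 : ℝ) ≤ (n : ℝ) ^ (2 - 1 / (k : ℝ)) := Real.rpow_nonneg (Nat.cast_nonneg n) _
    positivity
  have hn : 0 < n := lt_of_le_of_lt (Nat.zero_le _) (A hne.some).2
  have hnr : (0 : ℝ) < n := by exact_mod_cast hn
  have hkr : (2 : ℝ) ≤ k := by exact_mod_cast hk2
  have hinv : (1 : ℝ) / k ≤ 1 / 2 := one_div_le_one_div_of_le (by norm_num) hkr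
  have hinv0 : (0 : ℝ) < 1 / k := by positivity
  set β : ℝ := (2 - 1 / (k : ℝ)) / 3 with hβ
  have hβe : 3 * β = 2 - 1 / k := by rw [hβ]; ring
  have hβ1 : 1 / 2 ≤ β := by linarith
  have hβ2 : β ≤ 1 := by linarith
  have hβ0 : 0 < β := by linarith
  obtain ⟨x, y, z, M, hopt, hcard⟩ := exists_opt hβ0 hn A B C
  have hM0 := hopt.hM0
  -- it is enough to bound `M`
  suffices hM : M ≤ 100 * 8 ^ k by
    have h1 : ((1 / (n : ℝ)) ^ 3) ^ β * (n : ℝ) ^ (2 - 1 / (k : ℝ)) = 1 := by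
      have e1 : (1 / (n : ℝ)) ^ 3 = (n : ℝ) ^ (-3 : ℝ) := by
        rw [Real.rpow_neg hnr.le, one_div, inv_pow]
        congr 1
        rw [← Real.rpow_natCast]
        norm_num
      rw [e1, ← Real.rpow_mul hnr.le, ← Real.rpow_add hnr, ← hβe]
      have : -3 * β + 3 * β = 0 := by ring
      rw [this, Real.rpow_zero]
    have h2 : (0 : ℝ) < (n : ℝ) ^ (2 - 1 / (k : ℝ)) := Real.rpow_pos_of_pos hnr _
    calc (Fintype.card Ω : ℝ) = (Fintype.card Ω : ℝ) *
          (((1 / (n : ℝ)) ^ 3) ^ β * (n : ℝ) ^ (2 - 1 / (k : ℝ))) := by rw [h1, mul_one]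
      _ = ((Fintype.card Ω : ℝ) * ((1 / (n : ℝ)) ^ 3) ^ β) * (n : ℝ) ^ (2 - 1 / (k : ℝ)) := by
          ring
      _ ≤ (100 * 8 ^ k) * (n : ℝ) ^ (2 - 1 / (k : ℝ)) :=
          mul_le_mul_of_nonneg_right (le_trans hcard hM) h2.le
  by_contra hMbig
  push Not at hMbig
  set Ω' := {t : Ω // 0 < x (A t) * y (B t) * z (C t)} with hΩ'
  set p : Ω' → ℝ := fun t => (x (A t.1) * y (B t.1) * z (C t.1)) ^ β / M with hp
  have hpos : ∀ t, 0 < p t := by
    intro t
    exact div_pos (Real.rpow_pos_of_pos t.2 _) hM0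
  have hsum : ∑ t, p t = 1 := by
    have h1 := Pr_support hβ0 hopt (fun _ => True)
    have h2 : Pr p (fun _ => True) = ∑ t, p t := by
      unfold Pr
      simp
    rw [← h2]
    refine Eq.trans h1 ?_
    rw [Finset.filter_true_of_mem (fun _ _ => trivial), hopt.hM, div_self hM0.ne']
  -- weights of sets of values
  have hwA : ∀ X : Set ℕ, Pr p (fun t => ((A t.1 : ℕ)) ∈ X) =
      ∑ a ∈ univ.filter (fun a : Fin n => (a : ℕ) ∈ X), x a := by
    intro X
    have h1 := Pr_support hβ0 hopt (fun t => ((A t : ℕ)) ∈ X)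
    refine Eq.trans h1 ?_
    exact hopt.weight hβ0 hβ2 (fun a => (a : ℕ) ∈ X)
  have hwB : ∀ X : Set ℕ, Pr p (fun t => ((B t.1 : ℕ)) ∈ X) =
      ∑ a ∈ univ.filter (fun a : Fin n => (a : ℕ) ∈ X), y a := by
    intro X
    have h1 := Pr_support hβ0 hopt (fun t => ((B t : ℕ)) ∈ X)
    refine Eq.trans h1 ?_
    have h2 := hopt.swap12.weight hβ0 hβ2 (fun a => (a : ℕ) ∈ X)
    refine Eq.trans ?_ h2
    congr 1
    apply Finset.sum_congr rfl
    intro t _
    rw [mul_comm (y (B t))]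
  have hwC : ∀ X : Set ℕ, Pr p (fun t => ((C t.1 : ℕ)) ∈ X) =
      ∑ a ∈ univ.filter (fun a : Fin n => (a : ℕ) ∈ X), z a := by
    intro X
    have h1 := Pr_support hβ0 hopt (fun t => ((C t : ℕ)) ∈ X)
    refine Eq.trans h1 ?_
    have h2 := hopt.swap23.swap12.weight hβ0 hβ2 (fun a => (a : ℕ) ∈ X)
    refine Eq.trans ?_ h2
    congr 1
    apply Finset.sum_congr rfl
    intro t _
    congr 1
    ring
  have hbox : BoxLe p β (fun t => (A t.1 : ℕ)) (fun t => (B t.1 : ℕ))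
      (fun t => (C t.1 : ℕ)) := by
    intro X Y Z
    rw [hwA, hwB, hwC]
    have h1 := Pr_support hβ0 hopt (fun t => ((A t : ℕ)) ∈ X ∧ ((B t : ℕ)) ∈ Y ∧
      ((C t : ℕ)) ∈ Z)
    refine le_trans (le_of_eq h1) ?_
    exact hopt.box hβ0 (fun a => (a : ℕ) ∈ X) (fun a => (a : ℕ) ∈ Y) (fun a => (a : ℕ) ∈ Z)
  have hA' : Chain (fun t : Ω' => (A t.1 : ℕ)) (fun t => (B t.1 : ℕ))
      (fun t => (C t.1 : ℕ)) := fun s t h1 h2 => hA s.1 t.1 h1 (fun h => h2 (Subtype.ext h))
  have hB' : Chain (fun t : Ω' => (B t.1 : ℕ)) (fun t => (A t.1 : ℕ))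
      (fun t => (C t.1 : ℕ)) := fun s t h1 h2 => hB s.1 t.1 h1 (fun h => h2 (Subtype.ext h))
  have hC' : Chain (fun t : Ω' => (C t.1 : ℕ)) (fun t => (A t.1 : ℕ))
      (fun t => (B t.1 : ℕ)) := fun s t h1 h2 => hC s.1 t.1 h1 (fun h => h2 (Subtype.ext h))
  -- atoms
  have hone : ∀ (w : Fin n → ℝ), (∀ a, w a * M ≤ 1) → (∀ a, 0 ≤ w a) → ∀ u : ℕ,
      ∑ a ∈ univ.filter (fun a : Fin n => (a : ℕ) ∈ ({u} : Set ℕ)), w a ≤ 1 / M := by
    intro w hw hw0 u
    rw [le_div_iff₀ hM0]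
    by_cases hu : u < n
    · have : univ.filter (fun a : Fin n => (a : ℕ) ∈ ({u} : Set ℕ)) = {⟨u, hu⟩} := by
        ext a
        simp [Fin.ext_iff]
      rw [this, Finset.sum_singleton]
      exact hw _
    · have : univ.filter (fun a : Fin n => (a : ℕ) ∈ ({u} : Set ℕ)) = ∅ := by
        ext a
        have := a.2
        simp
        omega
      rw [this, Finset.sum_empty, zero_mul]
      norm_num
  have inj : ∀ {U V : Ω → Fin n}, (∀ s t, (U s : ℕ) = U t → (V s : ℕ) = V t → s = t) →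
      ∀ s t, U s = U t → V s = V t → s = t := by
    intro U V h s t h1 h2
    exact h s t (by rw [h1]) (by rw [h2])
  have hatA : ∀ a, x a * M ≤ 1 := hopt.atom hβ1 hβ2
    (inj fun s t h1 h2 => hA.eq_of h1 h2) (inj fun s t h1 h2 => hA.symm.eq_of h1 h2)
  have hatB : ∀ a, y a * M ≤ 1 := hopt.swap12.atom hβ1 hβ2
    (inj fun s t h1 h2 => hB.eq_of h1 h2) (inj fun s t h1 h2 => hB.symm.eq_of h1 h2)
  have hatC : ∀ a, z a * M ≤ 1 := hopt.swap23.swap12.atom hβ1 hβ2
    (inj fun s t h1 h2 => hC.eq_of h1 h2) (inj fun s t h1 h2 => hC.symm.eq_of h1 h2)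
  refine hno Ω' p β (fun t => (A t.1 : ℕ)) (fun t => (B t.1 : ℕ)) (fun t => (C t.1 : ℕ))
    hpos hsum hβe hbox hA' hB' hC' (1 / M) ?_ ?_ ?_ ?_
  · intro u
    have := hwA {u}
    refine le_trans (le_of_eq ?_) (hone x hatA hopt.hx u)
    refine Eq.trans (Pr_congr ?_) (this.trans ?_)
    · intro t
      simp
    · apply Finset.sum_congr _ (fun _ _ => rfl)
      ext a
      simp
  · intro u
    have := hwB {u}
    refine le_trans (le_of_eq ?_) (hone y hatB hopt.hy u)
    refine Eq.trans (Pr_congr ?_) (this.trans ?_)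
    · intro t
      simp
    · apply Finset.sum_congr _ (fun _ _ => rfl)
      ext a
      simp
  · intro u
    have := hwC {u}
    refine le_trans (le_of_eq ?_) (hone z hatC hopt.hz u)
    refine Eq.trans (Pr_congr ?_) (this.trans ?_)
    · intro t
      simp
    · apply Finset.sum_congr _ (fun _ _ => rfl)
      ext a
      simp
  · rw [mul_one_div, mul_div_assoc', div_le_one hM0]
    exact hMbig.le

/-- Lexicographic product of two families. -/
lemma Fam.prod {Ω₁ Ω₂ : Type} {n₁ n₂ : ℕ} {A₁ B₁ C₁ : Ω₁ → Fin n₁} {A₂ B₂ C₂ : Ω₂ → Fin n₂}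
    (h₁ : Fam A₁ B₁ C₁) (h₂ : Fam A₂ B₂ C₂) :
    Fam (fun t : Ω₁ × Ω₂ => finProdFinEquiv (A₁ t.1, A₂ t.2))
      (fun t : Ω₁ × Ω₂ => finProdFinEquiv (B₁ t.1, B₂ t.2))
      (fun t : Ω₁ × Ω₂ => finProdFinEquiv (C₁ t.1, C₂ t.2)) := by
  have hlt : ∀ a b : Fin n₁, ∀ c d : Fin n₂, (a : ℕ) < b →
      (finProdFinEquiv (a, c) : ℕ) < finProdFinEquiv (b, d) := by
    intro a b c d hab
    simp only [finProdFinEquiv_apply_val]
    have hc := c.2
    have h1 : n₂ * (a : ℕ) + n₂ ≤ n₂ * (b : ℕ) := by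
      calc n₂ * (a : ℕ) + n₂ = n₂ * ((a : ℕ) + 1) := by ring
        _ ≤ n₂ * (b : ℕ) := Nat.mul_le_mul_left _ hab
    omega
  have hlt2 : ∀ a : Fin n₁, ∀ c d : Fin n₂, (c : ℕ) < d →
      (finProdFinEquiv (a, c) : ℕ) < finProdFinEquiv (a, d) := by
    intro a c d hcd
    simp only [finProdFinEquiv_apply_val]
    omega
  have main : ∀ (W₁ U₁ V₁ : Ω₁ → Fin n₁) (W₂ U₂ V₂ : Ω₂ → Fin n₂),
      Chain (fun t => (W₁ t : ℕ)) (fun t => (U₁ t : ℕ)) (fun t => (V₁ t : ℕ)) →
      Chain (fun t => (W₂ t : ℕ)) (fun t => (U₂ t : ℕ)) (fun t => (V₂ t : ℕ)) →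
      Chain (fun t : Ω₁ × Ω₂ => (finProdFinEquiv (W₁ t.1, W₂ t.2) : ℕ))
        (fun t : Ω₁ × Ω₂ => (finProdFinEquiv (U₁ t.1, U₂ t.2) : ℕ))
        (fun t : Ω₁ × Ω₂ => (finProdFinEquiv (V₁ t.1, V₂ t.2) : ℕ)) := by
    intro W₁ U₁ V₁ W₂ U₂ V₂ g₁ g₂ s t hst hne
    have h1 : (W₁ s.1, W₂ s.2) = (W₁ t.1, W₂ t.2) :=
      finProdFinEquiv.injective (Fin.ext hst)
    simp only [Prod.mk.injEq] at h1
    by_cases hs : s.1 = t.1
    · have hs2 : s.2 ≠ t.2 := fun h => hne (Prod.ext hs h)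
      simp only [hs]
      rcases g₂ s.2 t.2 (congrArg (fun w : Fin n₂ => (w : ℕ)) h1.2) hs2 with h | h
      · exact Or.inl ⟨hlt2 _ _ _ h.1, hlt2 _ _ _ h.2⟩
      · exact Or.inr ⟨hlt2 _ _ _ h.1, hlt2 _ _ _ h.2⟩
    · rcases g₁ s.1 t.1 (congrArg (fun w : Fin n₁ => (w : ℕ)) h1.1) hs with h | h
      · exact Or.inl ⟨hlt _ _ _ _ h.1, hlt _ _ _ _ h.2⟩
      · exact Or.inr ⟨hlt _ _ _ _ h.1, hlt _ _ _ _ h.2⟩
  exact ⟨main _ _ _ _ _ _ h₁.1 h₂.1, main _ _ _ _ _ _ h₁.2.1 h₂.2.1,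
    main _ _ _ _ _ _ h₁.2.2 h₂.2.2⟩

/-- Powers of a family. -/
lemma Fam.pow {Ω : Type} [Fintype Ω] {n : ℕ} {A B C : Ω → Fin n} (h : Fam A B C) (j : ℕ) :
    ∃ (Ω' : Type) (_ : Fintype Ω') (A' B' C' : Ω' → Fin (n ^ j)), Fam A' B' C' ∧
      Fintype.card Ω' = Fintype.card Ω ^ j := by
  induction j with
  | zero =>
    refine ⟨Unit, inferInstance, fun _ => ⟨0, by simp⟩, fun _ => ⟨0, by simp⟩,
      fun _ => ⟨0, by simp⟩, ⟨?_, ?_, ?_⟩, by simp⟩
    · intro s t _ hne
      exact absurd rfl hne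
    · intro s t _ hne
      exact absurd rfl hne
    · intro s t _ hne
      exact absurd rfl hne
  | succ j ih =>
    obtain ⟨Ω', hF, A', B', C', hfam, hcard⟩ := ih
    have hp := hfam.prod h
    refine ⟨Ω' × Ω, inferInstance, _, _, _, hp, ?_⟩
    rw [Fintype.card_prod, hcard, pow_succ]

/-- The bound without a constant. -/
theorem bound_fam : ∃ k : ℕ, 2 ≤ k ∧ ∀ (Ω : Type) [Fintype Ω] (n : ℕ)
    (A B C : Ω → Fin n), Fam A B C →
    (Fintype.card Ω : ℝ) ≤ (n : ℝ) ^ (2 - 1 / (k : ℝ)) := by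
  obtain ⟨k, hk2, hb⟩ := bound_const
  refine ⟨k, hk2, ?_⟩
  intro Ω _ n A B C hfam
  by_contra hcon
  push Not at hcon
  have hn0 : 0 < n := by
    rcases isEmpty_or_nonempty Ω with hemp | hne
    · rw [Fintype.card_eq_zero, Nat.cast_zero] at hcon
      exact absurd hcon (not_lt.mpr (Real.rpow_nonneg (Nat.cast_nonneg n) _))
    · exact lt_of_le_of_lt (Nat.zero_le _) (A hne.some).2
  have hnr : (0 : ℝ) < n := by exact_mod_cast hn0
  have hpos : (0 : ℝ) < (n : ℝ) ^ (2 - 1 / (k : ℝ)) := Real.rpow_pos_of_pos hnr _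
  set q : ℝ := (Fintype.card Ω : ℝ) / (n : ℝ) ^ (2 - 1 / (k : ℝ)) with hq
  have hq1 : 1 < q := by
    rw [hq, one_lt_div hpos]
    exact hcon
  obtain ⟨j, hj⟩ := pow_unbounded_of_one_lt (100 * 8 ^ k) hq1
  obtain ⟨Ω', hF, A', B', C', hfam', hcard⟩ := hfam.pow j
  have h1 := hb Ω' (n ^ j) A' B' C' hfam'
  rw [hcard] at h1
  push_cast at h1
  have h2 : ((n : ℝ) ^ j) ^ (2 - 1 / (k : ℝ)) = ((n : ℝ) ^ (2 - 1 / (k : ℝ))) ^ j := by
    rw [← Real.rpow_natCast, ← Real.rpow_natCast, ← Real.rpow_mul hnr.le,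
      ← Real.rpow_mul hnr.le, mul_comm]
  rw [h2] at h1
  have h3 : q ^ j ≤ 100 * 8 ^ k := by
    rw [hq, div_pow, div_le_iff₀ (by positivity)]
    exact h1
  linarith

/-- The bound for families of triples, any two of which are comparable in two coordinates. -/
theorem bound_seq : ∃ c : ℝ, 0 < c ∧ ∀ n m : ℕ, ∀ s : Fin m → (Fin 3 → ℕ),
    (∀ k : Fin m, ∀ i : Fin 3, 1 ≤ s k i ∧ s k i ≤ n) →
    (∀ j k : Fin m, j ≠ k →
      2 ≤ (Finset.univ.filter (fun i : Fin 3 => s j i < s k i)).card ∨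
      2 ≤ (Finset.univ.filter (fun i : Fin 3 => s k i < s j i)).card) →
    (m : ℝ) ≤ (n : ℝ) ^ (2 - c) := by
  obtain ⟨k, hk2, hb⟩ := bound_fam
  have hk0 : (0 : ℝ) < k := by
    have : (2 : ℝ) ≤ k := by exact_mod_cast hk2
    linarith
  refine ⟨1 / k, by positivity, ?_⟩
  intro n m s hs hcomp
  have hlt : ∀ k : Fin m, ∀ i : Fin 3, s k i - 1 < n := by
    intro k i
    have := hs k i
    omega
  have hfilt : ∀ u v : Fin 3 → ℕ, 2 ≤ (Finset.univ.filter (fun i : Fin 3 => u i < v i)).card →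
      (u 0 = v 0 → u 1 < v 1 ∧ u 2 < v 2) ∧ (u 1 = v 1 → u 0 < v 0 ∧ u 2 < v 2) ∧
      (u 2 = v 2 → u 0 < v 0 ∧ u 1 < v 1) := by
    intro u v h
    rw [Finset.card_filter, Fin.sum_univ_three] at h
    refine ⟨fun heq => ?_, fun heq => ?_, fun heq => ?_⟩
    · have h0 : ¬ u 0 < v 0 := by omega
      rw [if_neg h0] at h
      constructor
      · by_contra hc
        rw [if_neg hc] at h
        split_ifs at h <;> omega
      · by_contra hc
        rw [if_neg hc] at h
        split_ifs at h <;> omega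
    · have h0 : ¬ u 1 < v 1 := by omega
      rw [if_neg h0] at h
      constructor
      · by_contra hc
        rw [if_neg hc] at h
        split_ifs at h <;> omega
      · by_contra hc
        rw [if_neg hc] at h
        split_ifs at h <;> omega
    · have h0 : ¬ u 2 < v 2 := by omega
      rw [if_neg h0] at h
      constructor
      · by_contra hc
        rw [if_neg hc] at h
        split_ifs at h <;> omega
      · by_contra hc
        rw [if_neg hc] at h
        split_ifs at h <;> omega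
  have h1 := hb (Fin m) n (fun k => ⟨s k 0 - 1, hlt k 0⟩) (fun k => ⟨s k 1 - 1, hlt k 1⟩)
    (fun k => ⟨s k 2 - 1, hlt k 2⟩) ?_
  · rw [Fintype.card_fin] at h1
    exact h1
  · refine ⟨?_, ?_, ?_⟩
    · intro j k hjk hne
      simp only at hjk ⊢
      have a1 := hs j 0
      have a2 := hs k 0
      have a3 := hs j 1
      have a4 := hs k 1
      have a5 := hs j 2
      have a6 := hs k 2
      rcases hcomp j k hne with h | h
      · have := (hfilt _ _ h).1 (by omega)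
        left
        omega
      · have := (hfilt _ _ h).1 (by omega)
        right
        omega
    · intro j k hjk hne
      simp only at hjk ⊢
      have a1 := hs j 0
      have a2 := hs k 0
      have a3 := hs j 1
      have a4 := hs k 1
      have a5 := hs j 2
      have a6 := hs k 2
      rcases hcomp j k hne with h | h
      · have := (hfilt _ _ h).2.1 (by omega)
        left
        omega
      · have := (hfilt _ _ h).2.1 (by omega)
        right
        omega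
    · intro j k hjk hne
      simp only at hjk ⊢
      have a1 := hs j 0
      have a2 := hs k 0
      have a3 := hs j 1
      have a4 := hs k 1
      have a5 := hs j 2
      have a6 := hs k 2
      rcases hcomp j k hne with h | h
      · have := (hfilt _ _ h).2.2 (by omega)
        left
        omega
      · have := (hfilt _ _ h).2.2 (by omega)
        right
        omega

end Pool.Agent.Work.MP_7eddf1_co
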