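import Pool.Agent.Work.MP_7eddf1_co.Block

set_option autoImplicit false
set_option linter.unusedSectionVars false
set_option linter.unusedVariables false

/-!
There is no system with small atoms.
-/

namespace Pool.Agent.Work.MP_7eddf1_co

open Finset

lemma cube_rpow_le {y β : ℝ} (hy : 1 ≤ y) (hβ2 : β ≤ 2 / 3) : (y ^ 3) ^ (β - 1) ≤ 1 / y := by
  have hy0 : 0 < y := by linarith
  have h1 : (y ^ 3) ^ (β - 1) = y ^ (3 * (β - 1)) := by
    rw [← Real.rpow_natCast, ← Real.rpow_mul hy0.le]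
    norm_num
  rw [h1]
  calc y ^ (3 * (β - 1)) ≤ y ^ (-1 : ℝ) :=
        Real.rpow_le_rpow_of_exponent_le hy (by linarith)
    _ = 1 / y := by rw [Real.rpow_neg_one, one_div]

lemma level_rpow {β : ℝ} {k l : ℕ} (hk : 0 < k) (hl : l ≤ k) (hβ : 3 * β = 2 - 1 / k) :
    (1 / (((2 ^ l : ℕ) : ℝ)) ^ 3) ^ β ≤ 2 / (((2 ^ l : ℕ) : ℝ)) ^ 2 := by
  have hkr : (0 : ℝ) < k := by exact_mod_cast hk
  have hlk : (l : ℝ) / k ≤ 1 := by
    rw [div_le_one hkr]
    exact_mod_cast hl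
  have h1 : (1 / (((2 ^ l : ℕ) : ℝ)) ^ 3) = (2 : ℝ) ^ (-(3 * l : ℝ)) := by
    push_cast
    rw [Real.rpow_neg (by norm_num), one_div, ← pow_mul]
    congr 1
    rw [← Real.rpow_natCast]
    congr 1
    push_cast
    ring
  have h2 : 2 / (((2 ^ l : ℕ) : ℝ)) ^ 2 = (2 : ℝ) ^ (1 - 2 * l : ℝ) := by
    push_cast
    rw [Real.rpow_sub (by norm_num), Real.rpow_one, ← pow_mul]
    congr 1
    rw [← Real.rpow_natCast]
    congr 1
    push_cast
    ring
  rw [h1, h2, ← Real.rpow_mul (by norm_num)]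
  apply Real.rpow_le_rpow_of_exponent_le (by norm_num)
  have : -(3 * (l : ℝ)) * β = -(l : ℝ) * (2 - 1 / k) := by
    rw [← hβ]
    ring
  rw [this]
  have h3 : -(l : ℝ) * (2 - 1 / k) = l / k - 2 * l := by ring
  rw [h3]
  linarith

/-- There is a number of levels such that no system has atoms much smaller than the boxes of the
last level. -/
theorem no_system : ∃ k : ℕ, 2 ≤ k ∧ ∀ (Ω : Type) [Fintype Ω] (p : Ω → ℝ) (β : ℝ)
    (A B C : Ω → ℕ), (∀ t, 0 < p t) → ∑ t, p t = 1 → 3 * β = 2 - 1 / k → BoxLe p β A B C →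
    Chain A B C → Chain B A C → Chain C A B → ∀ ε : ℝ, (∀ u, Pr p (fun t => A t = u) ≤ ε) →
    (∀ u, Pr p (fun t => B t = u) ≤ ε) → (∀ u, Pr p (fun t => C t = u) ≤ ε) →
    100 * (8 ^ k * ε) ≤ 1 → False := by
  -- the constants
  set δ : ℝ := (1 / 512) ^ 3 / (96 * 2 ^ 33) with hδdef
  have hδ0 : 0 < δ := by rw [hδdef]; positivity
  have hδ1 : δ ≤ 1 := by rw [hδdef]; norm_num
  obtain ⟨m, hm⟩ : ∃ m : ℕ, 32 * (((⌊8 / δ⌋₊ + 1) * 2 ^ 40 : ℕ) : ℝ) * 2 ^ 33 * 2 ^ 33 ≤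
      (2 : ℝ) ^ m := by
    obtain ⟨m, hm⟩ := pow_unbounded_of_one_lt
      (32 * (((⌊8 / δ⌋₊ + 1) * 2 ^ 40 : ℕ) : ℝ) * 2 ^ 33 * 2 ^ 33) (one_lt_two (α := ℝ))
    exact ⟨m, hm.le⟩
  set e : ℝ := δ / 4 / 4 ^ m / 20 with hedef
  have he0 : 0 < e := by rw [hedef]; positivity
  have he1 : e ≤ 1 := by
    rw [hedef]
    have h4 : (1 : ℝ) ≤ 4 ^ m := one_le_pow₀ (by norm_num)
    rw [div_div, div_div, div_le_one (by positivity)]
    nlinarith
  set y : ℝ := 90 / e with hydef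
  have hy1 : 1 ≤ y := by
    rw [hydef, le_div_iff₀ he0]
    linarith
  have hy0 : 0 < y := by linarith
  obtain ⟨w, hw⟩ : ∃ w : ℕ, 8 * √(y ^ 3) * 2 / (e / 3) / (e / 3) ≤ (w : ℝ) :=
    ⟨_, Nat.le_ceil _⟩
  -- the number of windows
  set W := w + 1 with hW
  have hm0 : 0 < m := by
    by_contra hcon
    have : m = 0 := by omega
    rw [this, pow_zero] at hm
    have h2 : (1 : ℝ) ≤ (((⌊8 / δ⌋₊ + 1) * 2 ^ 40 : ℕ) : ℝ) := by
      have : 1 ≤ (⌊8 / δ⌋₊ + 1) * 2 ^ 40 := by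
        have : 1 ≤ ⌊8 / δ⌋₊ + 1 := by omega
        nlinarith
      exact_mod_cast this
    nlinarith
  refine ⟨2 * m * W, ?_, ?_⟩
  · have : 1 ≤ m * W := Nat.mul_pos hm0 (by omega)
    rw [mul_assoc]
    omega
  intro Ω _ p β A B C hp hs hβ hbox hA hB hC ε hεA hεB hεC hε
  set k := 2 * m * W with hk
  have hk2 : 2 ≤ k := by
    have : 1 ≤ m * W := Nat.mul_pos hm0 (by omega)
    rw [hk, mul_assoc]
    omega
  have hkr : (2 : ℝ) ≤ k := by exact_mod_cast hk2
  have hinv : (1 : ℝ) / k ≤ 1 / 2 := one_div_le_one_div_of_le (by norm_num) hkr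
  have hinv0 : (0 : ℝ) < 1 / k := by positivity
  have hβ1 : 1 / 2 ≤ β := by linarith
  have hβ2 : β ≤ 2 / 3 := by linarith
  have hε0 : 0 ≤ ε := le_trans (Pr_nonneg hp _) (hεA 0)
  -- the window
  obtain ⟨i, hiW, hen1, hen2⟩ := exists_window hp hs A B m W (by omega)
  set r := i * m with hr
  have hrm : r + m ≤ k := by
    have h1 : (i + 1) * m ≤ W * m := Nat.mul_le_mul_right m hiW
    rw [add_mul, one_mul, ← hr] at h1
    rw [hk]
    nlinarith
  -- facts about the levels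
  have hNβ : ∀ l ≤ k, (1 / (((2 ^ l : ℕ) : ℝ)) ^ 3) ^ β ≤ 2 / (((2 ^ l : ℕ) : ℝ)) ^ 2 :=
    fun l hl => level_rpow (by omega) hl hβ
  have h8 : ∀ l ≤ k, 100 * (8 ^ l * ε) ≤ 1 := by
    intro l hl
    refine le_trans ?_ hε
    have : (8 : ℝ) ^ l ≤ 8 ^ k := pow_le_pow_right₀ (by norm_num) hl
    have := mul_le_mul_of_nonneg_right this hε0
    linarith
  have hat : ∀ l ≤ k, ε ≤ 1 / 2 ^ l := by
    intro l hl
    have h1 := h8 l hl
    have h2 : (2 : ℝ) ^ l ≤ 8 ^ l := pow_le_pow_left₀ (by norm_num) (by norm_num) l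
    have h3 := mul_le_mul_of_nonneg_right h2 hε0
    rw [le_div_iff₀ (by positivity), mul_comm]
    have h4 : 0 ≤ 2 ^ l * ε := by positivity
    linarith
  have hmass : ∀ U : Ω → ℕ, (∀ u, Pr p (fun t => U t = u) ≤ ε) → ∀ l ≤ k, ∀ i,
      Pr p (fun s => cell p U l s = i) ≤ 2 / ((2 ^ l : ℕ) : ℝ) := by
    intro U hU l hl i
    push_cast
    exact cell_mass hp hs U l (fun u => le_trans (hU u) (hat l hl)) i
  have hpos : ∀ l : ℕ, 0 < 2 ^ l := fun l => by positivity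
  have hcl : ∀ U : Ω → ℕ, ∀ l, CellOf U (cell p U l) := fun U l => cell_mono hp U l
  have hclt : ∀ U : Ω → ℕ, ∀ l t, cell p U l t < 2 ^ l := fun U l t => cell_lt hp hs U l t
  have hr' : r ≤ k := by omega
  -- constants
  have hlam : (1 : ℝ) ≤ 2 ^ 33 := by norm_num
  have hx : ((2 : ℝ) ^ 33) ^ (β - 1) ≤ 1 / 2 ^ 11 := by
    have := cube_rpow_le (y := 2 ^ 11) (by norm_num) hβ2
    rw [← pow_mul] at this
    norm_num at this ⊢
    exact this
  -- typical points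
  set Typ : Ω → Prop := fun t =>
    δ * Pr p (fun t' => cell p A (r + m) t' = cell p A (r + m) t ∧
      cell p B (r + m) t' = cell p B (r + m) t) ≤
      drop p A C (cell p A (r + m)) (cell p B (r + m)) (cell p C (r + m)) (2 ^ 40) t ∧
    2 ^ (r + m) * Pr p (fun s => C s = C t ∧
      cell p B (r + m) s = cell p B (r + m) t) ≤ 2 ^ 33 * Pr p (fun s => C s = C t) with hTyp
  have hT : Pr p (fun t => ¬ Typ t) ≤ 35 / 100 := by
    have h1 := drop_large hp hs hβ1 hβ2 (hpos (r + m)) (hNβ _ hrm) hbox hA hB hC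
      (hcl A (r + m)) (hcl B (r + m)) (hcl C (r + m)) (hclt A (r + m)) (hclt B (r + m))
      (hclt C (r + m)) (hmass A hεA _ hrm) (hmass B hεB _ hrm) (hmass C hεC _ hrm) hεC
      (lam := 2 ^ 33) (M := 2 ^ 33) (s := 1 / 512) (D := 2 ^ 40) hlam hlam (by norm_num)
      (by norm_num)
    have h2 := tail hp hs hβ1 hβ2 (hpos (r + m)) (hNβ _ hrm) (U := C) (V := B) (W := A)
      hbox.swap12.swap23.swap12 hA.symm (hcl C (r + m)) (hcl B (r + m))
      (hclt C (r + m)) (hclt B (r + m)) (hmass C hεC _ hrm) (hmass B hεB _ hrm)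
      (lam := 2 ^ 33) hlam
    refine le_trans (le_trans (Pr_mono hp ?_) (le_trans (Pr_or_le hp _ _)
      (add_le_add h1 h2))) ?_
    · intro t ht
      by_contra hcon
      push Not at hcon
      apply ht
      refine ⟨?_, ?_⟩
      · exact hcon.1
      · have := hcon.2.le
        push_cast at this
        exact this
    have h4 : (((2 ^ (r + m) : ℕ) : ℝ)) ^ 3 * ε ≤ 1 / 100 := by
      have := h8 _ hrm
      have h5 : (((2 ^ (r + m) : ℕ) : ℝ)) ^ 3 = 8 ^ (r + m) := by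
        push_cast
        rw [← pow_mul, mul_comm, pow_mul]
        norm_num
      rw [h5]
      linarith
    push_cast at h4 ⊢
    norm_num at hx ⊢
    linarith
  have hV : Pr p (fun t => (2 : ℝ) ^ 33 < 2 ^ r * vis p C (cell p A r) (cell p B r)
      (cell p A r t) (cell p B r t)) ≤ 2 / 100 := by
    have h1 := big_u hp hs hβ1 hβ2 (hpos r) (hNβ _ hr') hbox hC (hcl A r) (hcl B r)
      (hclt A r) (hclt B r) (hmass A hεA _ hr') (hmass B hεB _ hr') (M := 2 ^ 33) hlam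
    push_cast at h1
    refine le_trans h1 ?_
    norm_num at hx ⊢
    linarith
  -- deviations
  have hdevs : ∀ τ : ℝ, τ ≤ 2 / (W : ℕ) →
      30 * (y ^ 3) ^ (β - 1) + e / 3 + 8 * √(y ^ 3) * τ / (e / 3) ≤ e := by
    intro τ hτ
    have h1 : 30 * (y ^ 3) ^ (β - 1) ≤ e / 3 := by
      have := cube_rpow_le hy1 hβ2
      have h2 : 1 / y = e / 90 := by
        rw [hydef]
        field_simp
      linarith
    have h2 : 8 * √(y ^ 3) * τ / (e / 3) ≤ e / 3 := by
      have hWr : (w : ℝ) ≤ (W : ℝ) := by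
        rw [hW]
        push_cast
        linarith
      have hWp : (0 : ℝ) < (W : ℝ) := by
        rw [hW]
        positivity
      have he3 : 0 < e / 3 := by positivity
      have hsy : 0 ≤ √(y ^ 3) := Real.sqrt_nonneg _
      have h3 : 8 * √(y ^ 3) * 2 / (e / 3) / (e / 3) ≤ (W : ℝ) := le_trans hw hWr
      rw [div_le_iff₀ he3] at h3 ⊢
      rw [div_le_iff₀ he3] at h3
      calc 8 * √(y ^ 3) * τ ≤ 8 * √(y ^ 3) * (2 / W) :=
            mul_le_mul_of_nonneg_left hτ (by positivity)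
        _ = (8 * √(y ^ 3) * 2) / W := by ring
        _ ≤ ((W : ℝ) * (e / 3) * (e / 3)) / W := by
            apply div_le_div_of_nonneg_right h3 hWp.le
        _ = e / 3 * (e / 3) := by field_simp
    linarith
  have hy3 : 1 ≤ y ^ 3 := one_le_pow₀ hy1
  have hE1 : ∑ u ∈ univ.image A, ∑ J ∈ range (2 ^ r), dev p A B r m u J ≤ e := by
    have h1 := tail hp hs hβ1 hβ2 (hpos r) (hNβ _ hr') (U := A) (V := B) (W := C)
      hbox hC (hcl A r) (hcl B r)
      (hclt A r) (hclt B r) (hmass A hεA _ hr') (hmass B hεB _ hr') (lam := y ^ 3) hy3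
    exact le_trans (dev_total hp hs A B r m hy3 (θ := e / 3) (by positivity) h1 le_rfl)
      (hdevs _ hen1)
  have hE2 : ∑ u ∈ univ.image B, ∑ J ∈ range (2 ^ r), dev p B A r m u J ≤ e := by
    have h1 := tail hp hs hβ1 hβ2 (hpos r) (hNβ _ hr') (U := B) (V := A) (W := C)
      hbox.swap12 hC.symm (hcl B r) (hcl A r)
      (hclt B r) (hclt A r) (hmass B hεB _ hr') (hmass A hεA _ hr') (lam := y ^ 3) hy3
    exact le_trans (dev_total hp hs B A r m hy3 (θ := e / 3) (by positivity) h1 le_rfl)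
      (hdevs _ hen2)
  exact block_false hp hs hA hB hC r m (D := 2 ^ 40) (by norm_num) Typ hδ0 hδ1
    (lam := 2 ^ 33) (M := 2 ^ 33) (e := e) (by norm_num) (by norm_num) he0
    (fun t ht => ht.1) (fun t ht => ht.2) hT hV hE1 hE2
    (by rw [hedef]; linarith) hm

end Pool.Agent.Work.MP_7eddf1_co
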