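import Pool.Agent.Work.MP_7eddf1_co.Main

set_option autoImplicit false

namespace Pool.Agent.Results.MP_7eddf1_co.PowerSaving

/-- There is an absolute constant `c > 0` such that any family of triples with coordinates in
`1..n`, any two of which are comparable in the relation 2-less, has at most `n ^ (2 - c)`
members. -/
theorem result : ∃ c : ℝ, 0 < c ∧ ∀ n m : ℕ, ∀ s : Fin m → (Fin 3 → ℕ),
    (∀ k : Fin m, ∀ i : Fin 3, 1 ≤ s k i ∧ s k i ≤ n) →
    (∀ j k : Fin m, j ≠ k →
      2 ≤ (Finset.univ.filter (fun i : Fin 3 => s j i < s k i)).card ∨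
      2 ≤ (Finset.univ.filter (fun i : Fin 3 => s k i < s j i)).card) →
    (m : ℝ) ≤ (n : ℝ) ^ (2 - c) :=
  Pool.Agent.Work.MP_7eddf1_co.bound_seq

end Pool.Agent.Results.MP_7eddf1_co.PowerSaving
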