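import Pool.Agent.Work.MP_7eddf1_co.Tail

set_option autoImplicit false
set_option linter.unusedSectionVars false
set_option linter.unusedVariables false

/-!
Few points lie in light boxes; few points lie in cells visited by many values.
-/

namespace Pool.Agent.Work.MP_7eddf1_co

open Finset

variable {Ω : Type*} [Fintype Ω]

/-- A fibre of `W` meets at most `2 N` values of `φ`, when `φ` is determined on the fibre by
the cells of `U` and of `V`. -/
lemma count_fibre {κ : Type*} [DecidableEq κ] {W U V I J : Ω → ℕ} {N : ℕ} (hW : Chain W U V)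
    (hI : CellOf U I) (hJ : CellOf V J) (hIN : ∀ t, I t < N) (hJN : ∀ t, J t < N) (φ : Ω → κ)
    (hφ : ∀ s t, W s = W t → I s = I t → J s = J t → φ s = φ t) (w : ℕ)
    (Q : Finset κ) (hQ : ∀ q ∈ Q, ∃ s, W s = w ∧ φ s = q) :
    Q.card ≤ 2 * N := by
  classical
  set F := univ.filter fun s => W s = w with hF
  have h1 : Q ⊆ F.image φ := by
    intro q hq
    obtain ⟨s, hs1, hs2⟩ := hQ q hq
    exact Finset.mem_image.mpr ⟨s, by simp [hF, hs1], hs2⟩
  refine le_trans (Finset.card_le_card h1) ?_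
  apply card_image_le_of_sep F _ (fun s => I s + J s)
  · intro s _
    have := hIN s
    have := hJN s
    omega
  · intro s hs t ht hst
    have hs' : W s = w := by simpa [hF] using hs
    have ht' : W t = w := by simpa [hF] using ht
    have := sep_of_chain hW hI hJ (hs'.trans ht'.symm) hst
    exact hφ s t (hs'.trans ht'.symm) this.1 this.2

/-- Arithmetic of a light box. -/
lemma light_arith {x y z P s : ℝ} (hx : 0 ≤ x) (hy : 0 ≤ y) (hz : 0 ≤ z) (hs : 0 < s)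
    (hP0 : 0 ≤ P) (hP : P < s ^ 3) (hP2 : P ^ 2 ≤ 64 * (x * y * z)) :
    P ≤ 4 * s * ((x + y + z) / 3) := by
  have h1 : x * y * z ≤ ((x + y + z) / 3) ^ 3 := by
    have h1 : 0 ≤ x + y + z := by positivity
    nlinarith [mul_nonneg hx (sq_nonneg (y - z)), mul_nonneg hy (sq_nonneg (x - z)),
      mul_nonneg hz (sq_nonneg (x - y)), mul_nonneg h1 (sq_nonneg (x - y)),
      mul_nonneg h1 (sq_nonneg (y - z)), mul_nonneg h1 (sq_nonneg (x - z))]
  have h2 : P ^ 3 ≤ (4 * s * ((x + y + z) / 3)) ^ 3 := by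
    have h3 : P ^ 2 ≤ 64 * ((x + y + z) / 3) ^ 3 := by linarith
    calc P ^ 3 = P * P ^ 2 := by ring
      _ ≤ s ^ 3 * (64 * ((x + y + z) / 3) ^ 3) :=
          mul_le_mul hP.le h3 (by positivity) (by positivity)
      _ = _ := by ring
  exact le_of_pow_le_pow_left₀ (by norm_num) (by positivity) h2

/-- Arithmetic of the box inequality for three cells. -/
lemma box_sq {β x y z N P : ℝ} (hβ1 : 1 / 2 ≤ β) (hβ2 : β ≤ 2 / 3) (hN : 0 < N)
    (hNβ : (1 / N ^ 3) ^ β ≤ 2 / N ^ 2) (hx0 : 0 ≤ x) (hx1 : x ≤ 2 / N) (hy0 : 0 ≤ y)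
    (hy1 : y ≤ 2 / N) (hz0 : 0 ≤ z) (hz1 : z ≤ 2 / N) (hP0 : 0 ≤ P)
    (hP : P ≤ (x * y * z) ^ β) :
    (N ^ 2 * P) ^ 2 ≤ 64 * ((N / 2 * x) * (N / 2 * y) * (N / 2 * z)) := by
  set x' := N / 2 * x with hx'
  set y' := N / 2 * y with hy'
  set z' := N / 2 * z with hz'
  have key : ∀ u : ℝ, u ≤ 2 / N → N / 2 * u ≤ 1 := by
    intro u hu
    calc N / 2 * u ≤ N / 2 * (2 / N) := mul_le_mul_of_nonneg_left hu (by positivity)
      _ = 1 := by field_simp
  have hx1' : x' ≤ 1 := key x hx1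
  have hy1' : y' ≤ 1 := key y hy1
  have hz1' : z' ≤ 1 := key z hz1
  have hx0' : 0 ≤ x' := by positivity
  have hy0' : 0 ≤ y' := by positivity
  have hz0' : 0 ≤ z' := by positivity
  set w := x' * y' * z' with hw
  have hw0 : 0 ≤ w := by positivity
  have hw1 : w ≤ 1 := by
    have : x' * y' ≤ 1 := mul_le_one₀ hx1' hy0' hy1'
    exact mul_le_one₀ this hz0' hz1'
  have h1 : x * y * z = 8 * (1 / N ^ 3) * w := by
    rw [hw, hx', hy', hz']
    field_simp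
    ring
  have h2 : (x * y * z) ^ β = 8 ^ β * (1 / N ^ 3) ^ β * w ^ β := by
    rw [h1, Real.mul_rpow (by positivity) hw0, Real.mul_rpow (by positivity) (by positivity)]
  have h3 := eight_rpow_le hβ2
  have h4 : 0 ≤ w ^ β := Real.rpow_nonneg hw0 _
  have h5 : (8 : ℝ) ^ β * (1 / N ^ 3) ^ β ≤ 8 / N ^ 2 := by
    calc (8 : ℝ) ^ β * (1 / N ^ 3) ^ β ≤ 4 * (2 / N ^ 2) :=
          mul_le_mul h3 hNβ (Real.rpow_nonneg (by positivity) _) (by norm_num)
      _ = 8 / N ^ 2 := by ring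
  have h6 : N ^ 2 * P ≤ 8 * w ^ β := by
    calc N ^ 2 * P ≤ N ^ 2 * (x * y * z) ^ β := mul_le_mul_of_nonneg_left hP (by positivity)
      _ ≤ N ^ 2 * (8 / N ^ 2 * w ^ β) := by
          rw [h2]
          apply mul_le_mul_of_nonneg_left _ (by positivity)
          exact mul_le_mul_of_nonneg_right h5 h4
      _ = 8 * w ^ β := by field_simp
  have h7 : (w ^ β) ^ 2 ≤ w := by
    have e1 : (w ^ β) ^ 2 = w ^ (β * 2) := by
      rw [← Real.rpow_natCast, ← Real.rpow_mul hw0]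
      norm_num
    rw [e1]
    calc w ^ (β * 2) ≤ w ^ (1 : ℝ) :=
          Real.rpow_le_rpow_of_exponent_ge' hw0 hw1 (by norm_num) (by linarith)
      _ = w := Real.rpow_one w
  have h8 : 0 ≤ N ^ 2 * P := by positivity
  calc (N ^ 2 * P) ^ 2 ≤ (8 * w ^ β) ^ 2 := by
        exact pow_le_pow_left₀ h8 h6 2
    _ = 64 * (w ^ β) ^ 2 := by ring
    _ ≤ 64 * w := by linarith

/-- Few points lie in light boxes. -/
theorem small_box {p : Ω → ℝ} (hp : ∀ t, 0 < p t) (hs : ∑ t, p t = 1) {β : ℝ}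
    (hβ1 : 1 / 2 ≤ β) (hβ2 : β ≤ 2 / 3) {A B C I J K : Ω → ℕ} {N : ℕ} (hN : 0 < N)
    (hNβ : (1 / (N : ℝ) ^ 3) ^ β ≤ 2 / (N : ℝ) ^ 2) (hbox : BoxLe p β A B C)
    (hA : Chain A B C) (hB : Chain B A C) (hC : Chain C A B)
    (hI : CellOf A I) (hJ : CellOf B J) (hK : CellOf C K) (hIN : ∀ t, I t < N)
    (hJN : ∀ t, J t < N) (hKN : ∀ t, K t < N) (hIm : ∀ i, Pr p (fun t => I t = i) ≤ 2 / N)
    (hJm : ∀ j, Pr p (fun t => J t = j) ≤ 2 / N) (hKm : ∀ j, Pr p (fun t => K t = j) ≤ 2 / N)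
    {s : ℝ} (hs0 : 0 < s) :
    Pr p (fun t => (N : ℝ) ^ 2 * Pr p (fun t' => I t' = I t ∧ J t' = J t ∧ K t' = K t) < s ^ 3)
      ≤ 4 * s := by
  classical
  have hNr : (0 : ℝ) < N := by exact_mod_cast hN
  set φ : Ω → ℕ × ℕ × ℕ := fun t => (I t, J t, K t) with hφ
  set bad : Ω → Prop := fun t =>
    (N : ℝ) ^ 2 * Pr p (fun t' => I t' = I t ∧ J t' = J t ∧ K t' = K t) < s ^ 3 with hbad
  let X : ℕ × ℕ × ℕ → Set ℕ := fun q => {a | ∃ t, A t = a ∧ φ t = q}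
  let Y : ℕ × ℕ × ℕ → Set ℕ := fun q => {b | ∃ t, B t = b ∧ φ t = q}
  let Z : ℕ × ℕ × ℕ → Set ℕ := fun q => {c | ∃ t, C t = c ∧ φ t = q}
  set Q := univ.image φ with hQ
  have h1 : Pr p bad = ∑ q ∈ Q, Pr p (fun t => φ t = q ∧ bad t) := by
    rw [sum_Pr_fiber φ Q]
    intro t
    simp [hQ]
  have h2 : ∀ q ∈ Q, Pr p (fun t => φ t = q ∧ bad t) ≤
      4 * s / (N : ℝ) ^ 2 * (((N : ℝ) / 2 * Pr p (fun t => A t ∈ X q) +
        (N : ℝ) / 2 * Pr p (fun t => B t ∈ Y q) + (N : ℝ) / 2 * Pr p (fun t => C t ∈ Z q)) / 3) := by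
    intro q _
    have hnn1 : 0 ≤ Pr p (fun t => A t ∈ X q) := Pr_nonneg hp _
    have hnn2 : 0 ≤ Pr p (fun t => B t ∈ Y q) := Pr_nonneg hp _
    have hnn3 : 0 ≤ Pr p (fun t => C t ∈ Z q) := Pr_nonneg hp _
    by_cases hex : ∃ t, φ t = q ∧ bad t
    · obtain ⟨t0, ht0, hb0⟩ := hex
      have e0 : Pr p (fun t => φ t = q ∧ bad t) ≤ Pr p (fun t => φ t = q) :=
        Pr_mono hp fun t ht => ht.1
      have e1 : Pr p (fun t => φ t = q) ≤ Pr p (fun t => A t ∈ X q ∧ B t ∈ Y q ∧ C t ∈ Z q) :=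
        Pr_mono hp fun t ht => ⟨⟨t, rfl, ht⟩, ⟨t, rfl, ht⟩, ⟨t, rfl, ht⟩⟩
      have e2 := le_trans e1 (hbox (X q) (Y q) (Z q))
      have e3 : Pr p (fun t => A t ∈ X q) ≤ 2 / N := by
        refine le_trans (Pr_mono hp ?_) (hIm q.1)
        rintro t ⟨s, hs1, hs2⟩
        rw [← hs2]
        exact hI.eq hs1.symm
      have e4 : Pr p (fun t => B t ∈ Y q) ≤ 2 / N := by
        refine le_trans (Pr_mono hp ?_) (hJm q.2.1)
        rintro t ⟨s, hs1, hs2⟩
        rw [← hs2]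
        exact hJ.eq hs1.symm
      have e5 : Pr p (fun t => C t ∈ Z q) ≤ 2 / N := by
        refine le_trans (Pr_mono hp ?_) (hKm q.2.2)
        rintro t ⟨s, hs1, hs2⟩
        rw [← hs2]
        exact hK.eq hs1.symm
      have e6 := box_sq hβ1 hβ2 hNr hNβ hnn1 e3 hnn2 e4 hnn3 e5 (Pr_nonneg hp _) e2
      have e7 : (N : ℝ) ^ 2 * Pr p (fun t => φ t = q) < s ^ 3 := by
        have : Pr p (fun t => φ t = q) =
            Pr p (fun t' => I t' = I t0 ∧ J t' = J t0 ∧ K t' = K t0) := by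
          apply Pr_congr
          intro t
          rw [← ht0]
          simp [hφ, Prod.ext_iff]
        rw [this]
        exact hb0
      have e8 := light_arith (by positivity) (by positivity) (by positivity) hs0
        (mul_nonneg (by positivity) (Pr_nonneg hp _)) e7 e6
      refine le_trans e0 ?_
      rw [div_mul_eq_mul_div, le_div_iff₀ (by positivity)]
      linarith
    · push Not at hex
      rw [Pr_false p (E := fun t => φ t = q ∧ bad t) (by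
        intro t ht
        exact hex t ht.1 ht.2)]
      positivity
  have hXs : ∑ q ∈ Q, Pr p (fun t => A t ∈ X q) ≤ 2 * (N : ℝ) := by
    apply sum_Pr_le_count hp hs
    intro t Q' hQ' hR
    have := count_fibre hA hJ hK hJN hKN φ (by
      intro s t h1 h2 h3
      simp [hφ, hI.eq h1, h2, h3]) (A t) Q' hR
    exact_mod_cast this
  have hYs : ∑ q ∈ Q, Pr p (fun t => B t ∈ Y q) ≤ 2 * (N : ℝ) := by
    apply sum_Pr_le_count hp hs
    intro t Q' hQ' hR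
    have := count_fibre hB hI hK hIN hKN φ (by
      intro s t h1 h2 h3
      simp [hφ, hJ.eq h1, h2, h3]) (B t) Q' hR
    exact_mod_cast this
  have hZs : ∑ q ∈ Q, Pr p (fun t => C t ∈ Z q) ≤ 2 * (N : ℝ) := by
    apply sum_Pr_le_count hp hs
    intro t Q' hQ' hR
    have := count_fibre hC hI hJ hIN hJN φ (by
      intro s t h1 h2 h3
      simp [hφ, hK.eq h1, h2, h3]) (C t) Q' hR
    exact_mod_cast this
  rw [h1]
  calc ∑ q ∈ Q, Pr p (fun t => φ t = q ∧ bad t)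
      ≤ ∑ q ∈ Q, 4 * s / (N : ℝ) ^ 2 * (((N : ℝ) / 2 * Pr p (fun t => A t ∈ X q) +
        (N : ℝ) / 2 * Pr p (fun t => B t ∈ Y q) +
        (N : ℝ) / 2 * Pr p (fun t => C t ∈ Z q)) / 3) := Finset.sum_le_sum h2
    _ = 4 * s / (N : ℝ) ^ 2 * (((N : ℝ) / 2 * ∑ q ∈ Q, Pr p (fun t => A t ∈ X q) +
        (N : ℝ) / 2 * ∑ q ∈ Q, Pr p (fun t => B t ∈ Y q) +
        (N : ℝ) / 2 * ∑ q ∈ Q, Pr p (fun t => C t ∈ Z q)) / 3) := by
        rw [← Finset.mul_sum, ← Finset.sum_div, Finset.sum_add_distrib, Finset.sum_add_distrib,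
          ← Finset.mul_sum, ← Finset.mul_sum, ← Finset.mul_sum]
    _ ≤ 4 * s / (N : ℝ) ^ 2 * (((N : ℝ) / 2 * (2 * N) +
        (N : ℝ) / 2 * (2 * N) + (N : ℝ) / 2 * (2 * N)) / 3) := by
        apply mul_le_mul_of_nonneg_left _ (by positivity)
        have hN2 : (0 : ℝ) ≤ (N : ℝ) / 2 := by positivity
        have := mul_le_mul_of_nonneg_left hXs hN2
        have := mul_le_mul_of_nonneg_left hYs hN2
        have := mul_le_mul_of_nonneg_left hZs hN2
        linarith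
    _ = 4 * s := by
        field_simp
        ring

/-- The weight of the values of `C` which visit the cell `(i, j)`. -/
noncomputable def vis (p : Ω → ℝ) (C I J : Ω → ℕ) (i j : ℕ) : ℝ :=
  Pr p (fun t => ∃ s, C s = C t ∧ I s = i ∧ J s = j)

/-- A cell visited by few values is light. -/
theorem cell_light {p : Ω → ℝ} (hp : ∀ t, 0 < p t) (hs : ∑ t, p t = 1) {β : ℝ}
    (hβ1 : 1 / 2 ≤ β) (hβ2 : β ≤ 2 / 3) {A B C I J : Ω → ℕ} {N : ℕ} (hN : 0 < N)
    (hNβ : (1 / (N : ℝ) ^ 3) ^ β ≤ 2 / (N : ℝ) ^ 2) (hbox : BoxLe p β A B C)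
    (hI : CellOf A I) (hJ : CellOf B J) (hIm : ∀ i, Pr p (fun t => I t = i) ≤ 2 / N)
    (hJm : ∀ j, Pr p (fun t => J t = j) ≤ 2 / N) {M : ℝ} (hM : 1 ≤ M) (i j : ℕ) :
    Pr p (fun t => I t = i ∧ J t = j) ≤
      6 / (N : ℝ) ^ 2 * M ^ (β - 1) * (M + N * vis p C I J i j) := by
  have hNr : (0 : ℝ) < N := by exact_mod_cast hN
  let X : Set ℕ := {a | ∃ t, A t = a ∧ I t = i}
  let Y : Set ℕ := {b | ∃ t, B t = b ∧ J t = j}
  let Z : Set ℕ := {c | ∃ t, C t = c ∧ I t = i ∧ J t = j}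
  have e1 : Pr p (fun t => I t = i ∧ J t = j) ≤ Pr p (fun t => A t ∈ X ∧ B t ∈ Y ∧ C t ∈ Z) :=
    Pr_mono hp fun t ht => ⟨⟨t, rfl, ht.1⟩, ⟨t, rfl, ht.2⟩, ⟨t, rfl, ht.1, ht.2⟩⟩
  have e2 := le_trans e1 (hbox X Y Z)
  have e3 : Pr p (fun t => A t ∈ X) ≤ 2 / N := by
    refine le_trans (Pr_mono hp ?_) (hIm i)
    rintro t ⟨s, hs1, hs2⟩
    rw [← hs2]
    exact hI.eq hs1.symm
  have e4 : Pr p (fun t => B t ∈ Y) ≤ 2 / N := by
    refine le_trans (Pr_mono hp ?_) (hJm j)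
    rintro t ⟨s, hs1, hs2⟩
    rw [← hs2]
    exact hJ.eq hs1.symm
  have e5 : Pr p (fun t => C t ∈ Z) = vis p C I J i j := rfl
  have e6 := box_term hβ1 hβ2 hNr hNβ (Pr_nonneg hp _) e3 (Pr_nonneg hp _) e4
    (Pr_nonneg hp (fun t => C t ∈ Z)) hM
  refine le_trans e2 (le_trans e6 ?_)
  rw [e5]
  have hlb : 0 ≤ M ^ (β - 1) := Real.rpow_nonneg (by linarith) _
  apply mul_le_mul_of_nonneg_left _ (by positivity)
  have : (N : ℝ) / 2 * Pr p (fun t => A t ∈ X) ≤ 1 := by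
    calc (N : ℝ) / 2 * Pr p (fun t => A t ∈ X) ≤ N / 2 * (2 / N) :=
          mul_le_mul_of_nonneg_left e3 (by positivity)
      _ = 1 := by field_simp
  nlinarith

/-- Few points lie in cells visited by many values. -/
theorem big_u {p : Ω → ℝ} (hp : ∀ t, 0 < p t) (hs : ∑ t, p t = 1) {β : ℝ}
    (hβ1 : 1 / 2 ≤ β) (hβ2 : β ≤ 2 / 3) {A B C I J : Ω → ℕ} {N : ℕ} (hN : 0 < N)
    (hNβ : (1 / (N : ℝ) ^ 3) ^ β ≤ 2 / (N : ℝ) ^ 2) (hbox : BoxLe p β A B C)
    (hC : Chain C A B)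
    (hI : CellOf A I) (hJ : CellOf B J) (hIN : ∀ t, I t < N)
    (hJN : ∀ t, J t < N) (hIm : ∀ i, Pr p (fun t => I t = i) ≤ 2 / N)
    (hJm : ∀ j, Pr p (fun t => J t = j) ≤ 2 / N) {M : ℝ} (hM : 1 ≤ M) :
    Pr p (fun t => M < N * vis p C I J (I t) (J t)) ≤ 24 * M ^ (β - 1) := by
  classical
  have hNr : (0 : ℝ) < N := by exact_mod_cast hN
  have hlb : 0 ≤ M ^ (β - 1) := Real.rpow_nonneg (by linarith) _
  set Q := range N ×ˢ range N with hQ
  have h1 : Pr p (fun t => M < N * vis p C I J (I t) (J t)) =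
      ∑ q ∈ Q, Pr p (fun t => (I t, J t) = q ∧ M < N * vis p C I J (I t) (J t)) := by
    rw [sum_Pr_fiber (fun t => (I t, J t)) Q]
    intro t
    simp [hQ, hIN t, hJN t]
  have h2 : ∀ q ∈ Q, Pr p (fun t => (I t, J t) = q ∧ M < N * vis p C I J (I t) (J t)) ≤
      12 / (N : ℝ) ^ 2 * M ^ (β - 1) * (N * vis p C I J q.1 q.2) := by
    intro q _
    have hv0 : 0 ≤ vis p C I J q.1 q.2 := Pr_nonneg hp _
    by_cases hex : M < N * vis p C I J q.1 q.2
    · have e0 : Pr p (fun t => (I t, J t) = q ∧ M < N * vis p C I J (I t) (J t)) ≤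
          Pr p (fun t => I t = q.1 ∧ J t = q.2) := by
        apply Pr_mono hp
        rintro t ⟨ht, -⟩
        rw [← ht]
        exact ⟨rfl, rfl⟩
      refine le_trans e0 (le_trans (cell_light hp hs hβ1 hβ2 hN hNβ hbox hI hJ hIm hJm hM
        q.1 q.2) ?_)
      calc 6 / (N : ℝ) ^ 2 * M ^ (β - 1) * (M + N * vis p C I J q.1 q.2)
          ≤ 6 / (N : ℝ) ^ 2 * M ^ (β - 1) * (2 * (N * vis p C I J q.1 q.2)) := by
            apply mul_le_mul_of_nonneg_left _ (by positivity)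
            linarith
        _ = _ := by ring
    · rw [Pr_false p (E := fun t => (I t, J t) = q ∧ M < N * vis p C I J (I t) (J t)) (by
        rintro t ⟨ht1, ht2⟩
        apply hex
        rw [← ht1]
        exact ht2)]
      positivity
  have h3 : ∑ q ∈ Q, vis p C I J q.1 q.2 ≤ 2 * (N : ℝ) := by
    unfold vis
    apply sum_Pr_le_count hp hs
    intro t Q' hQ' hR
    have := count_chain hC hI hJ hIN hJN (C t) Q' hR
    exact_mod_cast this
  rw [h1]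
  calc ∑ q ∈ Q, Pr p (fun t => (I t, J t) = q ∧ M < N * vis p C I J (I t) (J t))
      ≤ ∑ q ∈ Q, 12 / (N : ℝ) ^ 2 * M ^ (β - 1) * (N * vis p C I J q.1 q.2) :=
        Finset.sum_le_sum h2
    _ = 12 / (N : ℝ) ^ 2 * M ^ (β - 1) * (N * ∑ q ∈ Q, vis p C I J q.1 q.2) := by
        rw [← Finset.mul_sum, ← Finset.mul_sum]
    _ ≤ 12 / (N : ℝ) ^ 2 * M ^ (β - 1) * (N * (2 * N)) := by
        apply mul_le_mul_of_nonneg_left _ (by positivity)
        exact mul_le_mul_of_nonneg_left h3 hNr.le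
    _ = 24 * M ^ (β - 1) := by
        field_simp
        ring

end Pool.Agent.Work.MP_7eddf1_co
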