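import Pool.Agent.Work.MP_7eddf1_co.SmallBox

set_option autoImplicit false
set_option linter.unusedSectionVars false
set_option linter.unusedVariables false

/-!
Few points lie in cells of long vertical span.
-/

namespace Pool.Agent.Work.MP_7eddf1_co

open Finset

variable {Ω : Type*} [Fintype Ω]

/-- The part of the fibre `A = a` in the cell `K = k` spans at least `D` cells of `B`. -/
def Span (A J K : Ω → ℕ) (D : ℕ) (a k : ℕ) : Prop :=
  ∃ s s', A s = a ∧ A s' = a ∧ K s = k ∧ K s' = k ∧ J s + D ≤ J s'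

lemma span_count {A B C J K : Ω → ℕ} {N : ℕ} (hA : Chain A B C) (hJ : CellOf B J)
    (hK : CellOf C K) (hJN : ∀ t, J t < N) (D : ℕ) (a : ℕ) (Q : Finset ℕ)
    (hQ : ∀ k ∈ Q, Span A J K D a k) : Q.card * D ≤ N := by
  classical
  let lo : ℕ → ℕ := fun k => if h : Span A J K D a k then J h.choose else 0
  have hlo : ∀ k ∈ Q, ∃ s s', A s = a ∧ A s' = a ∧ K s = k ∧ K s' = k ∧ J s + D ≤ J s' ∧
      lo k = J s := by
    intro k hk
    have h := hQ k hk
    obtain ⟨s', hs'⟩ := h.choose_spec
    refine ⟨h.choose, s', hs'.1, hs'.2.1, hs'.2.2.1, hs'.2.2.2.1, hs'.2.2.2.2, ?_⟩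
    simp only [lo, dif_pos h]
  have hord : ∀ k ∈ Q, ∀ k' ∈ Q, k < k' → lo k + D ≤ lo k' := by
    intro k hk k' hk' hlt
    obtain ⟨s, s', h1, h2, h3, h4, h5, h6⟩ := hlo k hk
    obtain ⟨t, t', g1, g2, g3, g4, g5, g6⟩ := hlo k' hk'
    have hC : C s' < C t := hK.lt (by omega)
    have hB : B s' < B t := hA.symm.lt (h2.trans g1.symm) hC
    have := hJ s' t hB.le
    omega
  have hdisj : (Q : Set ℕ).PairwiseDisjoint (fun k => Finset.Ico (lo k) (lo k + D)) := by
    intro k hk k' hk' hne
    rw [Function.onFun, Finset.disjoint_left]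
    intro x hx hx'
    simp only [Finset.mem_Ico] at hx hx'
    rcases lt_or_gt_of_ne hne with h | h
    · have := hord k hk k' hk' h
      omega
    · have := hord k' hk' k hk h
      omega
  have hsub : Q.biUnion (fun k => Finset.Ico (lo k) (lo k + D)) ⊆ range N := by
    intro x hx
    simp only [Finset.mem_biUnion, Finset.mem_Ico] at hx
    obtain ⟨k, hk, h1, h2⟩ := hx
    obtain ⟨s, s', g1, g2, g3, g4, g5, g6⟩ := hlo k hk
    have := hJN s'
    exact Finset.mem_range.mpr (by omega)
  have hcard := Finset.card_le_card hsub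
  rw [Finset.card_biUnion hdisj, Finset.card_range] at hcard
  simpa using hcard

/-- Few points lie in cells of long vertical span. -/
theorem span_small {p : Ω → ℝ} (hp : ∀ t, 0 < p t) (hs : ∑ t, p t = 1)
    {A B C J K : Ω → ℕ} {N : ℕ} (hN : 0 < N) (hA : Chain A B C) (hJ : CellOf B J)
    (hK : CellOf C K) (hJN : ∀ t, J t < N) (hKN : ∀ t, K t < N) {D : ℕ} (hD : 0 < D)
    {lam : ℝ} (hlam : 0 ≤ lam) :
    Pr p (fun t => Span A J K D (A t) (K t) ∧
      N * Pr p (fun s => A s = A t ∧ K s = K t) ≤ lam * Pr p (fun s => A s = A t)) ≤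
      lam / D := by
  classical
  have hNr : (0 : ℝ) < N := by exact_mod_cast hN
  have hDr : (0 : ℝ) < D := by exact_mod_cast hD
  set bad : Ω → Prop := fun t => Span A J K D (A t) (K t) ∧
      N * Pr p (fun s => A s = A t ∧ K s = K t) ≤ lam * Pr p (fun s => A s = A t) with hbad
  set Q := univ.image A with hQ
  have h1 : Pr p bad = ∑ a ∈ Q, Pr p (fun t => A t = a ∧ bad t) := by
    rw [sum_Pr_fiber A Q]
    intro t
    simp [hQ]
  have h2 : ∀ a ∈ Q, Pr p (fun t => A t = a ∧ bad t) ≤ lam / D * Pr p (fun s => A s = a) := by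
    intro a _
    have hPa : 0 ≤ Pr p (fun s => A s = a) := Pr_nonneg hp _
    have e1 : Pr p (fun t => A t = a ∧ bad t) =
        ∑ k ∈ range N, Pr p (fun t => K t = k ∧ (A t = a ∧ bad t)) := by
      rw [sum_Pr_fiber K (range N)]
      intro t
      simp [hKN t]
    have e2 : ∑ k ∈ range N, Pr p (fun t => K t = k ∧ (A t = a ∧ bad t)) =
        ∑ k ∈ (range N).filter (fun k => Span A J K D a k),
          Pr p (fun t => K t = k ∧ (A t = a ∧ bad t)) := by
      symm
      apply Finset.sum_subset (Finset.filter_subset _ _)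
      intro k hk hk'
      apply Pr_false
      rintro t ⟨h1, h2, h3, h4⟩
      apply hk'
      refine Finset.mem_filter.mpr ⟨hk, ?_⟩
      rw [← h1, ← h2]
      exact h3
    have e3 : ∀ k ∈ (range N).filter (fun k => Span A J K D a k),
        Pr p (fun t => K t = k ∧ (A t = a ∧ bad t)) ≤ lam / N * Pr p (fun s => A s = a) := by
      intro k _
      by_cases hex : ∃ t, K t = k ∧ (A t = a ∧ bad t)
      · obtain ⟨t, ht1, ht2, ht3, ht4⟩ := hex
        rw [ht1, ht2] at ht4
        rw [div_mul_eq_mul_div, le_div_iff₀ hNr, mul_comm]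
        refine le_trans ?_ ht4
        apply mul_le_mul_of_nonneg_left _ hNr.le
        apply Pr_mono hp
        rintro s ⟨h1, h2, -⟩
        exact ⟨h2, h1⟩
      · push Not at hex
        rw [Pr_false p (E := fun t => K t = k ∧ (A t = a ∧ bad t)) (by
          rintro t ⟨h1, h2, h3⟩
          exact hex t h1 h2 h3)]
        positivity
    have e4 : (((range N).filter (fun k => Span A J K D a k)).card : ℝ) * D ≤ N := by
      have := span_count hA hJ hK hJN D a ((range N).filter (fun k => Span A J K D a k))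
        (fun k hk => (Finset.mem_filter.mp hk).2)
      exact_mod_cast this
    rw [e1, e2]
    calc ∑ k ∈ (range N).filter (fun k => Span A J K D a k),
          Pr p (fun t => K t = k ∧ (A t = a ∧ bad t))
        ≤ ∑ k ∈ (range N).filter (fun k => Span A J K D a k),
          lam / N * Pr p (fun s => A s = a) := Finset.sum_le_sum e3
      _ = (((range N).filter (fun k => Span A J K D a k)).card : ℝ) *
          (lam / N * Pr p (fun s => A s = a)) := by rw [Finset.sum_const, nsmul_eq_mul]
      _ ≤ (N / D) * (lam / N * Pr p (fun s => A s = a)) := by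
          apply mul_le_mul_of_nonneg_right _ (by positivity)
          rw [le_div_iff₀ hDr]
          exact e4
      _ = lam / D * Pr p (fun s => A s = a) := by
          field_simp
  have h3 : ∑ a ∈ Q, Pr p (fun s => A s = a) = 1 := by
    have := sum_Pr_fiber (p := p) A Q (by intro t; simp [hQ]) (fun _ => True)
    rw [Pr_true hs] at this
    rw [← this]
    apply Finset.sum_congr rfl
    intro a _
    apply Pr_congr
    intro t
    simp
  rw [h1]
  calc ∑ a ∈ Q, Pr p (fun t => A t = a ∧ bad t)
      ≤ ∑ a ∈ Q, lam / D * Pr p (fun s => A s = a) := Finset.sum_le_sum h2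
    _ = lam / D := by rw [← Finset.mul_sum, h3, mul_one]

end Pool.Agent.Work.MP_7eddf1_co
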