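import Pool.Agent.Work.MP_7eddf1_co.Cells

set_option autoImplicit false
set_option linter.unusedSectionVars false
set_option linter.unusedVariables false

/-!
Tail bounds coming from the box inequality and the chain condition.
-/

namespace Pool.Agent.Work.MP_7eddf1_co

open Finset

variable {Ω : Type*} [Fintype Ω]

/-- The box inequality with exponent `β`. -/
def BoxLe (p : Ω → ℝ) (β : ℝ) (A B C : Ω → ℕ) : Prop :=
  ∀ X Y Z : Set ℕ, Pr p (fun t => A t ∈ X ∧ B t ∈ Y ∧ C t ∈ Z) ≤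
    (Pr p (fun t => A t ∈ X) * Pr p (fun t => B t ∈ Y) * Pr p (fun t => C t ∈ Z)) ^ β

lemma BoxLe.swap12 {p : Ω → ℝ} {β : ℝ} {A B C : Ω → ℕ} (h : BoxLe p β A B C) :
    BoxLe p β B A C := by
  intro X Y Z
  have h1 := h Y X Z
  rw [mul_comm (Pr p fun t => A t ∈ Y)] at h1
  refine le_trans (le_of_eq (Pr_congr ?_)) h1
  intro t
  tauto

lemma BoxLe.swap23 {p : Ω → ℝ} {β : ℝ} {A B C : Ω → ℕ} (h : BoxLe p β A B C) :
    BoxLe p β A C B := by
  intro X Y Z
  have h1 := h X Z Y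
  rw [mul_right_comm] at h1
  refine le_trans (le_of_eq (Pr_congr ?_)) h1
  intro t
  tauto

lemma four_rpow_le {β : ℝ} (hβ2 : β ≤ 2 / 3) : (4 : ℝ) ^ β ≤ 3 := by
  have h1 : (4 : ℝ) ^ β ≤ (4 : ℝ) ^ (2 / 3 : ℝ) :=
    Real.rpow_le_rpow_of_exponent_le (by norm_num) hβ2
  have h2 : (4 : ℝ) ^ (2 / 3 : ℝ) = (16 : ℝ) ^ (1 / 3 : ℝ) := by
    rw [show (16 : ℝ) = (4 : ℝ) ^ (2 : ℝ) by norm_num, ← Real.rpow_mul (by norm_num)]
    norm_num
  have h3 : (16 : ℝ) ^ (1 / 3 : ℝ) ≤ (27 : ℝ) ^ (1 / 3 : ℝ) :=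
    Real.rpow_le_rpow (by norm_num) (by norm_num) (by norm_num)
  have h4 : (27 : ℝ) ^ (1 / 3 : ℝ) = 3 := by
    rw [show (27 : ℝ) = (3 : ℝ) ^ (3 : ℝ) by norm_num, ← Real.rpow_mul (by norm_num)]
    norm_num
  linarith

lemma eight_rpow_le {β : ℝ} (hβ2 : β ≤ 2 / 3) : (8 : ℝ) ^ β ≤ 4 := by
  have h1 : (8 : ℝ) ^ β ≤ (8 : ℝ) ^ (2 / 3 : ℝ) :=
    Real.rpow_le_rpow_of_exponent_le (by norm_num) hβ2
  have h2 : (8 : ℝ) ^ (2 / 3 : ℝ) = 4 := by
    rw [show (8 : ℝ) = (2 : ℝ) ^ (3 : ℝ) by norm_num, ← Real.rpow_mul (by norm_num)]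
    norm_num
  linarith

lemma aux_pow {β x u lam : ℝ} (hβ1 : 1 / 2 ≤ β) (hβ2 : β ≤ 2 / 3) (hx0 : 0 ≤ x) (hx1 : x ≤ 1)
    (hu : 0 ≤ u) (hlam : 1 ≤ lam) :
    (x * u) ^ β ≤ lam ^ (β - 1) * (lam * x + u) := by
  have hl0 : 0 < lam := by linarith
  have h1 : (x * u) ^ β = x ^ β * u ^ β := Real.mul_rpow hx0 hu
  have h2 : x ^ β ≤ x ^ (1 - β) :=
    Real.rpow_le_rpow_of_exponent_ge' hx0 hx1 (by linarith) (by linarith)
  have h3 : x ^ (1 - β) = lam ^ (β - 1) * (lam * x) ^ (1 - β) := by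
    rw [Real.mul_rpow hl0.le hx0, ← mul_assoc, ← Real.rpow_add hl0]
    norm_num
  have h4 : (lam * x) ^ (1 - β) * u ^ β ≤ (1 - β) * (lam * x) + β * u :=
    Real.geom_mean_le_arith_mean2_weighted (by linarith) (by linarith)
      (mul_nonneg hl0.le hx0) hu (by ring)
  have hub : 0 ≤ u ^ β := Real.rpow_nonneg hu _
  have hlx : 0 ≤ lam * x := mul_nonneg hl0.le hx0
  have hlb : 0 ≤ lam ^ (β - 1) := Real.rpow_nonneg hl0.le _
  calc (x * u) ^ β = x ^ β * u ^ β := h1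
    _ ≤ x ^ (1 - β) * u ^ β := mul_le_mul_of_nonneg_right h2 hub
    _ = lam ^ (β - 1) * ((lam * x) ^ (1 - β) * u ^ β) := by rw [h3]; ring
    _ ≤ lam ^ (β - 1) * ((1 - β) * (lam * x) + β * u) := mul_le_mul_of_nonneg_left h4 hlb
    _ ≤ lam ^ (β - 1) * (lam * x + u) := by
        apply mul_le_mul_of_nonneg_left _ hlb
        nlinarith

lemma box_term {β x v w lam N : ℝ} (hβ1 : 1 / 2 ≤ β) (hβ2 : β ≤ 2 / 3) (hN : 0 < N)
    (hNβ : (1 / N ^ 3) ^ β ≤ 2 / N ^ 2) (hx0 : 0 ≤ x) (hx1 : x ≤ 2 / N) (hv0 : 0 ≤ v)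
    (hv1 : v ≤ 2 / N) (hw : 0 ≤ w) (hlam : 1 ≤ lam) :
    (x * v * w) ^ β ≤ 6 / N ^ 2 * lam ^ (β - 1) * (lam * (N / 2 * x) + N * w) := by
  have hβ0 : 0 ≤ β := by linarith
  have h1 : x * v * w ≤ 4 * (1 / N ^ 3) * ((N / 2 * x) * (N * w)) := by
    have : 4 * (1 / N ^ 3) * ((N / 2 * x) * (N * w)) = x * (2 / N) * w := by
      field_simp
      ring
    rw [this]
    apply mul_le_mul_of_nonneg_right _ hw
    exact mul_le_mul_of_nonneg_left hv1 hx0
  have hy0 : 0 ≤ N / 2 * x := by positivity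
  have hy1 : N / 2 * x ≤ 1 := by
    calc N / 2 * x ≤ N / 2 * (2 / N) := mul_le_mul_of_nonneg_left hx1 (by positivity)
      _ = 1 := by field_simp
  have hz0 : 0 ≤ N * w := by positivity
  have h2 : (x * v * w) ^ β ≤ (4 * (1 / N ^ 3) * ((N / 2 * x) * (N * w))) ^ β :=
    Real.rpow_le_rpow (by positivity) h1 hβ0
  have h3 : (4 * (1 / N ^ 3) * ((N / 2 * x) * (N * w))) ^ β =
      4 ^ β * (1 / N ^ 3) ^ β * ((N / 2 * x) * (N * w)) ^ β := by
    rw [Real.mul_rpow (by positivity) (by positivity), Real.mul_rpow (by positivity) (by positivity)]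
  have h4 := aux_pow hβ1 hβ2 hy0 hy1 hz0 hlam
  have h5 := four_rpow_le hβ2
  have hA : 0 ≤ ((N / 2 * x) * (N * w)) ^ β := Real.rpow_nonneg (by positivity) _
  have hB : 0 ≤ (1 / N ^ 3) ^ β := Real.rpow_nonneg (by positivity) _
  have h6 : (4 : ℝ) ^ β * (1 / N ^ 3) ^ β ≤ 6 / N ^ 2 := by
    calc (4 : ℝ) ^ β * (1 / N ^ 3) ^ β ≤ 3 * (2 / N ^ 2) :=
          mul_le_mul h5 hNβ hB (by norm_num)
      _ = 6 / N ^ 2 := by ring
  calc (x * v * w) ^ β ≤ 4 ^ β * (1 / N ^ 3) ^ β * ((N / 2 * x) * (N * w)) ^ β := by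
        rw [← h3]; exact h2
    _ ≤ 6 / N ^ 2 * (lam ^ (β - 1) * (lam * (N / 2 * x) + N * w)) :=
        mul_le_mul h6 h4 hA (by positivity)
    _ = _ := by ring

/-- A fibre of `W` meets at most `2 N` cells. -/
lemma count_chain {W U V I J : Ω → ℕ} {N : ℕ} (hW : Chain W U V) (hI : CellOf U I)
    (hJ : CellOf V J) (hIN : ∀ t, I t < N) (hJN : ∀ t, J t < N) (w : ℕ)
    (Q : Finset (ℕ × ℕ)) (hQ : ∀ q ∈ Q, ∃ s, W s = w ∧ I s = q.1 ∧ J s = q.2) :
    Q.card ≤ 2 * N := by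
  classical
  set F := univ.filter fun s => W s = w with hF
  have h1 : Q ⊆ F.image (fun s => (I s, J s)) := by
    intro q hq
    obtain ⟨s, hs1, hs2, hs3⟩ := hQ q hq
    exact Finset.mem_image.mpr ⟨s, by simp [hF, hs1], by rw [hs2, hs3]⟩
  refine le_trans (Finset.card_le_card h1) ?_
  apply card_image_le_of_sep F _ (fun s => I s + J s)
  · intro s _
    have := hIN s
    have := hJN s
    omega
  · intro s hs t ht hst
    have hs' : W s = w := by simpa [hF] using hs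
    have ht' : W t = w := by simpa [hF] using ht
    have := sep_of_chain hW hI hJ (hs'.trans ht'.symm) hst
    rw [this.1, this.2]

/-- Tail bound: the conditional weight of the `V` cell given `U` is typically `O(1/N)`. -/
theorem tail {p : Ω → ℝ} (hp : ∀ t, 0 < p t) (hs : ∑ t, p t = 1) {β : ℝ} (hβ1 : 1 / 2 ≤ β)
    (hβ2 : β ≤ 2 / 3) {U V W I J : Ω → ℕ} {N : ℕ} (hN : 0 < N)
    (hNβ : (1 / (N : ℝ) ^ 3) ^ β ≤ 2 / (N : ℝ) ^ 2) (hbox : BoxLe p β U V W)
    (hW : Chain W U V) (hI : CellOf U I) (hJ : CellOf V J) (hIN : ∀ t, I t < N)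
    (hJN : ∀ t, J t < N) (hIm : ∀ i, Pr p (fun t => I t = i) ≤ 2 / N)
    (hJm : ∀ j, Pr p (fun t => J t = j) ≤ 2 / N) {lam : ℝ} (hlam : 1 ≤ lam) :
    Pr p (fun t => lam * Pr p (fun s => U s = U t) ≤
      N * Pr p (fun s => U s = U t ∧ J s = J t)) ≤ 15 * lam ^ (β - 1) := by
  classical
  have hNr : (0 : ℝ) < N := by exact_mod_cast hN
  have hl0 : 0 < lam := by linarith
  set bad : Ω → Prop := fun t => lam * Pr p (fun s => U s = U t) ≤
      N * Pr p (fun s => U s = U t ∧ J s = J t) with hbad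
  let X : ℕ × ℕ → Set ℕ := fun q => {u | ∃ t, U t = u ∧ I t = q.1 ∧ J t = q.2 ∧ bad t}
  let Y : ℕ × ℕ → Set ℕ := fun q => {v | ∃ t, V t = v ∧ J t = q.2}
  let Z : ℕ × ℕ → Set ℕ := fun q => {w | ∃ t, W t = w ∧ I t = q.1 ∧ J t = q.2}
  set Q := range N ×ˢ range N with hQ
  have h1 : Pr p bad = ∑ q ∈ Q, Pr p (fun t => (I t, J t) = q ∧ bad t) := by
    rw [sum_Pr_fiber (fun t => (I t, J t)) Q]
    intro t
    simp [hQ, hIN t, hJN t]
  have h2 : ∀ q ∈ Q, Pr p (fun t => (I t, J t) = q ∧ bad t) ≤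
      6 / (N : ℝ) ^ 2 * lam ^ (β - 1) *
        (lam * ((N : ℝ) / 2 * Pr p (fun t => U t ∈ X q)) + N * Pr p (fun t => W t ∈ Z q)) := by
    intro q _
    have e1 : Pr p (fun t => (I t, J t) = q ∧ bad t) ≤
        Pr p (fun t => U t ∈ X q ∧ V t ∈ Y q ∧ W t ∈ Z q) := by
      apply Pr_mono hp
      rintro t ⟨ht1, ht2⟩
      have hi : I t = q.1 := by rw [← ht1]
      have hj : J t = q.2 := by rw [← ht1]
      exact ⟨⟨t, rfl, hi, hj, ht2⟩, ⟨t, rfl, hj⟩, ⟨t, rfl, hi, hj⟩⟩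
    have e2 := hbox (X q) (Y q) (Z q)
    have e3 : Pr p (fun t => U t ∈ X q) ≤ 2 / N := by
      refine le_trans (Pr_mono hp ?_) (hIm q.1)
      rintro t ⟨s, hs1, hs2, -, -⟩
      rw [← hs2]
      exact hI.eq hs1.symm
    have e4 : Pr p (fun t => V t ∈ Y q) ≤ 2 / N := by
      refine le_trans (Pr_mono hp ?_) (hJm q.2)
      rintro t ⟨s, hs1, hs2⟩
      rw [← hs2]
      exact hJ.eq hs1.symm
    exact le_trans e1 (le_trans e2 (box_term hβ1 hβ2 hNr hNβ (Pr_nonneg hp _) e3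
      (Pr_nonneg hp _) e4 (Pr_nonneg hp _) hlam))
  have h3 : ∑ q ∈ Q, Pr p (fun t => U t ∈ X q) ≤ (N : ℝ) / lam := by
    apply sum_Pr_le_count hp hs
    intro t Q' hQ' hR
    have hpu : 0 < Pr p (fun s => U s = U t) := Pr_pos hp (t := t) rfl
    have hfst : ∀ q ∈ Q', q.1 = I t := by
      intro q hq
      obtain ⟨s, hs1, hs2, -, -⟩ := hR q hq
      rw [← hs2]
      exact hI.eq hs1
    have hterm : ∀ q ∈ Q', lam * Pr p (fun s => U s = U t) ≤
        N * Pr p (fun s => U s = U t ∧ J s = q.2) := by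
      intro q hq
      obtain ⟨s, hs1, hs2, hs3, hs4⟩ := hR q hq
      have := hs4
      simp only [hbad] at this
      rw [hs1, hs3] at this
      exact this
    have hinj : Set.InjOn (fun q : ℕ × ℕ => q.2) (Q' : Set (ℕ × ℕ)) := by
      intro q hq q' hq' h
      have h1 := hfst q hq
      have h2 := hfst q' hq'
      exact Prod.ext (h1.trans h2.symm) h
    have hsum : ∑ q ∈ Q', Pr p (fun s => U s = U t ∧ J s = q.2) ≤ Pr p (fun s => U s = U t) := by
      calc ∑ q ∈ Q', Pr p (fun s => U s = U t ∧ J s = q.2)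
          = ∑ j ∈ Q'.image (fun q : ℕ × ℕ => q.2), Pr p (fun s => U s = U t ∧ J s = j) := by
            rw [Finset.sum_image hinj]
        _ ≤ ∑ j ∈ range N, Pr p (fun s => U s = U t ∧ J s = j) := by
            apply Finset.sum_le_sum_of_subset_of_nonneg
            · intro j hj
              obtain ⟨q, hq, rfl⟩ := Finset.mem_image.mp hj
              have := hQ' hq
              simp only [hQ, Finset.mem_product, Finset.mem_range] at this
              exact Finset.mem_range.mpr this.2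
            · intro j _ _
              exact Pr_nonneg hp _
        _ = ∑ j ∈ range N, Pr p (fun s => J s = j ∧ U s = U t) := by
            apply Finset.sum_congr rfl
            intro j _
            apply Pr_congr
            intro s
            tauto
        _ = Pr p (fun s => U s = U t) := by
            rw [sum_Pr_fiber J (range N)]
            intro s
            exact Finset.mem_range.mpr (hJN s)
    have h5 : (Q'.card : ℝ) * (lam * Pr p (fun s => U s = U t)) ≤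
        N * Pr p (fun s => U s = U t) := by
      calc (Q'.card : ℝ) * (lam * Pr p (fun s => U s = U t))
          = ∑ q ∈ Q', lam * Pr p (fun s => U s = U t) := by
            rw [Finset.sum_const, nsmul_eq_mul]
        _ ≤ ∑ q ∈ Q', N * Pr p (fun s => U s = U t ∧ J s = q.2) := Finset.sum_le_sum hterm
        _ = N * ∑ q ∈ Q', Pr p (fun s => U s = U t ∧ J s = q.2) := by rw [Finset.mul_sum]
        _ ≤ N * Pr p (fun s => U s = U t) := mul_le_mul_of_nonneg_left hsum hNr.le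
    rw [le_div_iff₀ hl0]
    have h6 : ((Q'.card : ℝ) * lam) * Pr p (fun s => U s = U t) ≤
        N * Pr p (fun s => U s = U t) := by
      calc ((Q'.card : ℝ) * lam) * Pr p (fun s => U s = U t) =
          (Q'.card : ℝ) * (lam * Pr p (fun s => U s = U t)) := by ring
        _ ≤ _ := h5
    exact le_of_mul_le_mul_right h6 hpu
  have h4 : ∑ q ∈ Q, Pr p (fun t => W t ∈ Z q) ≤ 2 * (N : ℝ) := by
    apply sum_Pr_le_count hp hs
    intro t Q' hQ' hR
    have := count_chain hW hI hJ hIN hJN (W t) Q' hR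
    exact_mod_cast this
  have hlb : 0 ≤ lam ^ (β - 1) := Real.rpow_nonneg hl0.le _
  rw [h1]
  calc ∑ q ∈ Q, Pr p (fun t => (I t, J t) = q ∧ bad t)
      ≤ ∑ q ∈ Q, 6 / (N : ℝ) ^ 2 * lam ^ (β - 1) *
        (lam * ((N : ℝ) / 2 * Pr p (fun t => U t ∈ X q)) + N * Pr p (fun t => W t ∈ Z q)) :=
        Finset.sum_le_sum h2
    _ = 6 / (N : ℝ) ^ 2 * lam ^ (β - 1) * (lam * ((N : ℝ) / 2 *
        ∑ q ∈ Q, Pr p (fun t => U t ∈ X q)) + N * ∑ q ∈ Q, Pr p (fun t => W t ∈ Z q)) := by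
        rw [← Finset.mul_sum, Finset.sum_add_distrib, ← Finset.mul_sum, ← Finset.mul_sum,
          ← Finset.mul_sum]
    _ ≤ 6 / (N : ℝ) ^ 2 * lam ^ (β - 1) * (lam * ((N : ℝ) / 2 * (N / lam)) + N * (2 * N)) := by
        apply mul_le_mul_of_nonneg_left _ (by positivity)
        apply add_le_add
        · apply mul_le_mul_of_nonneg_left _ hl0.le
          exact mul_le_mul_of_nonneg_left h3 (by positivity)
        · exact mul_le_mul_of_nonneg_left h4 hNr.le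
    _ = 15 * lam ^ (β - 1) := by
        field_simp
        ring

end Pool.Agent.Work.MP_7eddf1_co
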