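import Pool.Agent.Work.MP_7eddf1_co.Tail

set_option autoImplicit false
set_option linter.unusedSectionVars false
set_option linter.unusedVariables false

/-!
A window of levels in which the conditional distributions hardly change.
-/

namespace Pool.Agent.Work.MP_7eddf1_co

open Finset

variable {Ω : Type*} [Fintype Ω]

/-- The cells of the finer level which lie in the cell `j`. -/
def blk (m j : ℕ) : Finset ℕ := Finset.Ico (j * 2 ^ m) ((j + 1) * 2 ^ m)

lemma mem_blk {m j i : ℕ} : i ∈ blk m j ↔ i / 2 ^ m = j := by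
  unfold blk
  rw [Finset.mem_Ico]
  have h : 0 < 2 ^ m := by positivity
  constructor
  · rintro ⟨h1, h2⟩
    apply Nat.div_eq_of_lt_le
    · exact h1
    · exact h2
  · rintro rfl
    constructor
    · exact Nat.div_mul_le_self i (2 ^ m)
    · rw [add_mul, one_mul]
      exact Nat.lt_div_mul_add h

lemma card_blk (m j : ℕ) : (blk m j).card = 2 ^ m := by
  unfold blk
  rw [Nat.card_Ico, add_mul, one_mul, Nat.add_sub_cancel_left]

lemma sum_blk (r m : ℕ) (f : ℕ → ℝ) :
    ∑ j ∈ range (2 ^ (r + m)), f j = ∑ J ∈ range (2 ^ r), ∑ j ∈ blk m J, f j := by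
  classical
  have h : 0 < 2 ^ m := by positivity
  have hmaps : ∀ j ∈ range (2 ^ (r + m)), j / 2 ^ m ∈ range (2 ^ r) := by
    intro j hj
    rw [Finset.mem_range] at hj ⊢
    rw [pow_add] at hj
    exact Nat.div_lt_of_lt_mul (by rw [mul_comm]; exact hj)
  rw [← Finset.sum_fiberwise_of_maps_to hmaps]
  apply Finset.sum_congr rfl
  intro J hJ
  apply Finset.sum_congr _ (fun _ _ => rfl)
  ext j
  rw [Finset.mem_filter, mem_blk, Finset.mem_range]
  rw [Finset.mem_range] at hJ
  constructor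
  · exact fun h => h.2
  · intro hj
    refine ⟨?_, hj⟩
    have h1 : j < (J + 1) * 2 ^ m := by
      rw [← hj, add_mul, one_mul]
      exact Nat.lt_div_mul_add h
    calc j < (J + 1) * 2 ^ m := h1
      _ ≤ 2 ^ r * 2 ^ m := Nat.mul_le_mul_right _ hJ
      _ = 2 ^ (r + m) := by rw [pow_add]

/-- Deviation from uniformity is controlled by the defect in Cauchy's inequality. -/
lemma vec_dev {κ : Type*} (S : Finset κ) (x : κ → ℝ) (hx : ∀ j ∈ S, 0 ≤ x j) {n : ℝ}
    (hn0 : 0 < n) (hn : (S.card : ℝ) = n) :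
    ∑ j ∈ S, √(x j) / √n ≤ √(∑ j ∈ S, x j) ∧
    (∑ j ∈ S, |x j - (∑ j ∈ S, x j) / n|) ^ 2 ≤
      8 * (∑ j ∈ S, x j) * (√(∑ j ∈ S, x j) *
        (√(∑ j ∈ S, x j) - ∑ j ∈ S, √(x j) / √n)) := by
  set X := ∑ j ∈ S, x j with hX
  set T := ∑ j ∈ S, √(x j) / √n with hT
  have hX0 : 0 ≤ X := Finset.sum_nonneg hx
  have hT0 : 0 ≤ T := Finset.sum_nonneg fun j _ => by positivity
  have hsn : 0 < √n := Real.sqrt_pos.mpr hn0
  have hsn2 : √n * √n = n := Real.mul_self_sqrt hn0.le
  have hsX2 : √X * √X = X := Real.mul_self_sqrt hX0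
  have hsX0 : 0 ≤ √X := Real.sqrt_nonneg _
  have hTX : T ≤ √X := by
    apply Real.le_sqrt_of_sq_le
    have h1 := Finset.sum_mul_sq_le_sq_mul_sq S (fun j => √(x j)) (fun _ => 1 / √n)
    have h2 : ∑ j ∈ S, √(x j) * (1 / √n) = T := by
      rw [hT]
      apply Finset.sum_congr rfl
      intro j _
      ring
    have h3 : ∑ j ∈ S, √(x j) ^ 2 = X := by
      rw [hX]
      apply Finset.sum_congr rfl
      intro j hj
      exact Real.sq_sqrt (hx j hj)
    have h4 : ∑ j ∈ S, (1 / √n) ^ 2 = 1 := by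
      rw [Finset.sum_const, nsmul_eq_mul, hn, div_pow, one_pow, sq, hsn2]
      field_simp
    rw [h2, h3, h4, mul_one] at h1
    exact h1
  refine ⟨hTX, ?_⟩
  -- the uniform value
  set v := √X / √n with hv
  have hv2 : v * v = X / n := by
    rw [hv, div_mul_div_comm, hsX2, hsn2]
  have hv0 : 0 ≤ v := by positivity
  have hA : ∑ j ∈ S, (√(x j) - v) ^ 2 = 2 * X - 2 * √X * T := by
    have : ∀ j ∈ S, (√(x j) - v) ^ 2 = x j - 2 * √X * (√(x j) / √n) + X / n := by
      intro j hj
      have h1 : √(x j) * √(x j) = x j := Real.mul_self_sqrt (hx j hj)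
      calc (√(x j) - v) ^ 2 = √(x j) * √(x j) - 2 * v * √(x j) + v * v := by ring
        _ = x j - 2 * √X * (√(x j) / √n) + X / n := by
            rw [h1, hv2, hv]
            ring
    rw [Finset.sum_congr rfl this, Finset.sum_add_distrib, Finset.sum_sub_distrib,
      ← Finset.mul_sum, Finset.sum_const, nsmul_eq_mul, hn]
    have : n * (X / n) = X := by field_simp
    rw [this]
    ring
  have hB : ∑ j ∈ S, (√(x j) + v) ^ 2 = 2 * X + 2 * √X * T := by
    have : ∀ j ∈ S, (√(x j) + v) ^ 2 = x j + 2 * √X * (√(x j) / √n) + X / n := by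
      intro j hj
      have h1 : √(x j) * √(x j) = x j := Real.mul_self_sqrt (hx j hj)
      calc (√(x j) + v) ^ 2 = √(x j) * √(x j) + 2 * v * √(x j) + v * v := by ring
        _ = x j + 2 * √X * (√(x j) / √n) + X / n := by
            rw [h1, hv2, hv]
            ring
    rw [Finset.sum_congr rfl this, Finset.sum_add_distrib, Finset.sum_add_distrib,
      ← Finset.mul_sum, Finset.sum_const, nsmul_eq_mul, hn]
    have : n * (X / n) = X := by field_simp
    rw [this]
    ring
  have hC : ∑ j ∈ S, |x j - X / n| = ∑ j ∈ S, |√(x j) - v| * (√(x j) + v) := by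
    apply Finset.sum_congr rfl
    intro j hj
    have h1 : √(x j) * √(x j) = x j := Real.mul_self_sqrt (hx j hj)
    have h2 : x j - X / n = (√(x j) - v) * (√(x j) + v) := by
      rw [← hv2]
      nlinarith
    rw [h2, abs_mul, abs_of_nonneg (a := √(x j) + v) (by positivity)]
  have hD := Finset.sum_mul_sq_le_sq_mul_sq S (fun j => |√(x j) - v|) (fun j => √(x j) + v)
  simp only [sq_abs] at hD
  rw [hC]
  refine le_trans hD ?_
  rw [hA, hB]
  have h5 : 0 ≤ 2 * X - 2 * √X * T := by
    nlinarith [mul_le_mul_of_nonneg_left hTX hsX0]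
  have h6 : 2 * X + 2 * √X * T ≤ 4 * X := by
    nlinarith [mul_le_mul_of_nonneg_left hTX hsX0]
  calc (2 * X - 2 * √X * T) * (2 * X + 2 * √X * T) ≤ (2 * X - 2 * √X * T) * (4 * X) :=
        mul_le_mul_of_nonneg_left h6 h5
    _ = 8 * X * (√X * √X - √X * T) := by
        rw [hsX2]
        ring
    _ = _ := by ring

/-- The energy of the pair of coordinates `U`, `V` at level `l`. -/
noncomputable def en (p : Ω → ℝ) (U V : Ω → ℕ) (l : ℕ) : ℝ :=
  ∑ u ∈ univ.image U, ∑ j ∈ range (2 ^ l), √(Pr p (fun t => U t = u) / 2 ^ l) *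
    √(Pr p (fun t => U t = u ∧ cell p V l t = j))

/-- The loss of energy at `(u, J)` between the levels `r` and `r + m`. -/
noncomputable def loss (p : Ω → ℝ) (U V : Ω → ℕ) (r m u J : ℕ) : ℝ :=
  √(Pr p (fun t => U t = u) / 2 ^ r) *
    (√(Pr p (fun t => U t = u ∧ cell p V r t = J)) -
      ∑ j ∈ blk m J, √(Pr p (fun t => U t = u ∧ cell p V (r + m) t = j)) / √((2 : ℝ) ^ m))

lemma sum_fine {p : Ω → ℝ} (U V : Ω → ℕ) (r m u J : ℕ) :
    ∑ j ∈ blk m J, Pr p (fun t => U t = u ∧ cell p V (r + m) t = j) =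
      Pr p (fun t => U t = u ∧ cell p V r t = J) := by
  classical
  have h1 : ∀ j ∈ blk m J, Pr p (fun t => U t = u ∧ cell p V (r + m) t = j) =
      Pr p (fun t => (if cell p V r t = J then cell p V (r + m) t else J * 2 ^ m) = j ∧
        (U t = u ∧ cell p V r t = J)) := by
    intro j hj
    apply Pr_congr
    intro t
    rw [mem_blk] at hj
    have hn := cell_nest p V r m t
    constructor
    · rintro ⟨h1, h2⟩
      have h3 : cell p V r t = J := by rw [← hn, h2, hj]
      exact ⟨by rw [if_pos h3, h2], h1, h3⟩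
    · rintro ⟨h1, h2, h3⟩
      rw [if_pos h3] at h1
      exact ⟨h2, h1⟩
  rw [Finset.sum_congr rfl h1, sum_Pr_fiber]
  intro t
  rw [mem_blk]
  split_ifs with h
  · rw [cell_nest]
    exact h
  · exact Nat.mul_div_cancel _ (by positivity)

lemma loss_nonneg {p : Ω → ℝ} (hp : ∀ t, 0 < p t) (U V : Ω → ℕ) (r m u J : ℕ) :
    0 ≤ loss p U V r m u J := by
  unfold loss
  apply mul_nonneg (Real.sqrt_nonneg _)
  have h := (vec_dev (blk m J) (fun j => Pr p (fun t => U t = u ∧ cell p V (r + m) t = j))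
    (fun j _ => Pr_nonneg hp _) (n := 2 ^ m) (by positivity)
    (by rw [card_blk]; push_cast; rfl)).1
  rw [sum_fine] at h
  linarith

lemma dev_le {p : Ω → ℝ} (hp : ∀ t, 0 < p t) (U V : Ω → ℕ) (r m u J : ℕ) {lam : ℝ}
    (hlam : 0 ≤ lam) (htyp : 2 ^ r * Pr p (fun t => U t = u ∧ cell p V r t = J) ≤
      lam * Pr p (fun t => U t = u)) :
    (∑ j ∈ blk m J, |Pr p (fun t => U t = u ∧ cell p V (r + m) t = j) -
      Pr p (fun t => U t = u ∧ cell p V r t = J) / 2 ^ m|) ^ 2 ≤
      8 * Pr p (fun t => U t = u ∧ cell p V r t = J) * (√lam * loss p U V r m u J) := by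
  have h := vec_dev (blk m J) (fun j => Pr p (fun t => U t = u ∧ cell p V (r + m) t = j))
    (fun j _ => Pr_nonneg hp _) (n := 2 ^ m) (by positivity)
    (by rw [card_blk]; push_cast; rfl)
  rw [sum_fine] at h
  obtain ⟨h1, h2⟩ := h
  refine le_trans h2 ?_
  set X := Pr p (fun t => U t = u ∧ cell p V r t = J) with hX
  have hX0 : 0 ≤ X := Pr_nonneg hp _
  apply mul_le_mul_of_nonneg_left _ (by positivity)
  unfold loss
  rw [← mul_assoc]
  rw [← Real.sqrt_mul hlam]
  apply mul_le_mul_of_nonneg_right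
  · apply Real.sqrt_le_sqrt
    have h2r : (0 : ℝ) < 2 ^ r := by positivity
    rw [← mul_div_assoc, le_div_iff₀ h2r, mul_comm]
    exact htyp
  · exact sub_nonneg.mpr h1

lemma en_sub {p : Ω → ℝ} (U V : Ω → ℕ) (r m : ℕ) :
    en p U V r - en p U V (r + m) =
      ∑ u ∈ univ.image U, ∑ J ∈ range (2 ^ r), loss p U V r m u J := by
  unfold en loss
  rw [← Finset.sum_sub_distrib]
  apply Finset.sum_congr rfl
  intro u _
  rw [sum_blk, ← Finset.sum_sub_distrib]
  apply Finset.sum_congr rfl
  intro J _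
  rw [mul_sub, Finset.mul_sum]
  congr 1
  apply Finset.sum_congr rfl
  intro j _
  rw [pow_add, ← div_div, Real.sqrt_div' _ (by positivity)]
  ring

lemma en_anti {p : Ω → ℝ} (hp : ∀ t, 0 < p t) (U V : Ω → ℕ) (r m : ℕ) :
    en p U V (r + m) ≤ en p U V r := by
  have h := en_sub (p := p) U V r m
  have h2 : 0 ≤ ∑ u ∈ univ.image U, ∑ J ∈ range (2 ^ r), loss p U V r m u J :=
    Finset.sum_nonneg fun u _ => Finset.sum_nonneg fun J _ => loss_nonneg hp U V r m u J
  linarith

lemma en_nonneg {p : Ω → ℝ} (U V : Ω → ℕ) (l : ℕ) : 0 ≤ en p U V l :=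
  Finset.sum_nonneg fun u _ => Finset.sum_nonneg fun j _ => by positivity

lemma sum_Pr_image {p : Ω → ℝ} (hs : ∑ t, p t = 1) (U : Ω → ℕ) :
    ∑ u ∈ univ.image U, Pr p (fun t => U t = u) = 1 := by
  have h := sum_Pr_fiber (p := p) U (univ.image U) (by intro t; simp) (fun _ => True)
  rw [Pr_true hs] at h
  rw [← h]
  apply Finset.sum_congr rfl
  intro u _
  apply Pr_congr
  intro t
  simp

lemma en_zero {p : Ω → ℝ} (hp : ∀ t, 0 < p t) (hs : ∑ t, p t = 1) (U V : Ω → ℕ) :
    en p U V 0 ≤ 1 := by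
  have h1 : en p U V 0 = ∑ u ∈ univ.image U, Pr p (fun t => U t = u) := by
    unfold en
    apply Finset.sum_congr rfl
    intro u _
    rw [pow_zero, Finset.range_one, Finset.sum_singleton, pow_zero, div_one]
    have : Pr p (fun t => U t = u ∧ cell p V 0 t = 0) = Pr p (fun t => U t = u) := by
      apply Pr_congr
      intro t
      have := cell_lt hp hs V 0 t
      rw [pow_zero] at this
      constructor
      · exact fun h => h.1
      · exact fun h => ⟨h, by omega⟩
    rw [this, Real.mul_self_sqrt (Pr_nonneg hp _)]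
  rw [h1, sum_Pr_image hs]

/-- In some window both energies lose little. -/
lemma exists_window {p : Ω → ℝ} (hp : ∀ t, 0 < p t) (hs : ∑ t, p t = 1) (U V : Ω → ℕ)
    (m w : ℕ) (hw : 0 < w) : ∃ i < w, en p U V (i * m) - en p U V (i * m + m) ≤ 2 / w ∧
      en p V U (i * m) - en p V U (i * m + m) ≤ 2 / w := by
  set H : ℕ → ℝ := fun i => en p U V (i * m) + en p V U (i * m) with hH
  have hsum : ∑ i ∈ range w, (H i - H (i + 1)) = H 0 - H w := Finset.sum_range_sub' H w
  have h0 : H 0 ≤ 2 := by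
    simp only [hH, zero_mul]
    have := en_zero hp hs U V
    have := en_zero hp hs V U
    linarith
  have hw0 : 0 ≤ H w := add_nonneg (en_nonneg U V _) (en_nonneg V U _)
  have hwr : (0 : ℝ) < w := by exact_mod_cast hw
  have h1 : ∑ i ∈ range w, (H i - H (i + 1)) ≤ ∑ i ∈ range w, (2 : ℝ) / w := by
    rw [hsum, Finset.sum_const, Finset.card_range, nsmul_eq_mul]
    have : (w : ℝ) * (2 / w) = 2 := by field_simp
    linarith
  obtain ⟨i, hi, hle⟩ := Finset.exists_le_of_sum_le
    (Finset.nonempty_range_iff.mpr hw.ne') h1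
  refine ⟨i, Finset.mem_range.mp hi, ?_⟩
  have e1 := en_anti hp U V (i * m) m
  have e2 := en_anti hp V U (i * m) m
  have e3 : H (i + 1) = en p U V (i * m + m) + en p V U (i * m + m) := by
    simp only [hH]
    rw [add_mul, one_mul]
  have e4 : H i = en p U V (i * m) + en p V U (i * m) := rfl
  constructor <;> linarith

/-- The deviation at `(u, J)`. -/
noncomputable def dev (p : Ω → ℝ) (U V : Ω → ℕ) (r m u J : ℕ) : ℝ :=
  ∑ j ∈ blk m J, |Pr p (fun t => U t = u ∧ cell p V (r + m) t = j) -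
      Pr p (fun t => U t = u ∧ cell p V r t = J) / 2 ^ m|

lemma dev_nonneg {p : Ω → ℝ} (U V : Ω → ℕ) (r m u J : ℕ) : 0 ≤ dev p U V r m u J :=
  Finset.sum_nonneg fun _ _ => abs_nonneg _

lemma dev_le_two {p : Ω → ℝ} (hp : ∀ t, 0 < p t) (U V : Ω → ℕ) (r m u J : ℕ) :
    dev p U V r m u J ≤ 2 * Pr p (fun t => U t = u ∧ cell p V r t = J) := by
  unfold dev
  have hX0 : 0 ≤ Pr p (fun t => U t = u ∧ cell p V r t = J) := Pr_nonneg hp _
  calc ∑ j ∈ blk m J, |Pr p (fun t => U t = u ∧ cell p V (r + m) t = j) -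
      Pr p (fun t => U t = u ∧ cell p V r t = J) / 2 ^ m|
      ≤ ∑ j ∈ blk m J, (Pr p (fun t => U t = u ∧ cell p V (r + m) t = j) +
      Pr p (fun t => U t = u ∧ cell p V r t = J) / 2 ^ m) := by
        apply Finset.sum_le_sum
        intro j _
        have h1 : 0 ≤ Pr p (fun t => U t = u ∧ cell p V (r + m) t = j) := Pr_nonneg hp _
        have h2 : 0 ≤ Pr p (fun t => U t = u ∧ cell p V r t = J) / 2 ^ m := by positivity
        rw [abs_le]
        constructor <;> linarith
    _ = _ := by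
        rw [Finset.sum_add_distrib, sum_fine, Finset.sum_const, card_blk, nsmul_eq_mul]
        push_cast
        field_simp
        ring

/-- Total deviation. -/
theorem dev_total {p : Ω → ℝ} (hp : ∀ t, 0 < p t) (hs : ∑ t, p t = 1) {β : ℝ}
    (U V : Ω → ℕ) (r m : ℕ) {lam θ τ : ℝ} (hlam : 1 ≤ lam) (hθ : 0 < θ)
    (htail : Pr p (fun t => lam * Pr p (fun s => U s = U t) ≤
      ((2 ^ r : ℕ) : ℝ) * Pr p (fun s => U s = U t ∧ cell p V r s = cell p V r t)) ≤
        15 * lam ^ (β - 1))
    (hτ : en p U V r - en p U V (r + m) ≤ τ) :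
    ∑ u ∈ univ.image U, ∑ J ∈ range (2 ^ r), dev p U V r m u J ≤
      30 * lam ^ (β - 1) + θ + 8 * √lam * τ / θ := by
  classical
  set bad : Ω → Prop := fun t => lam * Pr p (fun s => U s = U t) ≤
      ((2 ^ r : ℕ) : ℝ) * Pr p (fun s => U s = U t ∧ cell p V r s = cell p V r t) with hbad
  have hl0 : 0 ≤ lam := by linarith
  have hterm : ∀ u ∈ univ.image U, ∀ J ∈ range (2 ^ r), dev p U V r m u J ≤
      2 * Pr p (fun t => cell p V r t = J ∧ (U t = u ∧ bad t)) +
      θ * Pr p (fun t => cell p V r t = J ∧ U t = u) + 8 * √lam / θ * loss p U V r m u J := by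
    intro u _ J _
    set X := Pr p (fun t => U t = u ∧ cell p V r t = J) with hX
    have hX0 : 0 ≤ X := Pr_nonneg hp _
    have hX' : Pr p (fun t => cell p V r t = J ∧ U t = u) = X := by
      rw [hX]
      apply Pr_congr
      intro t
      tauto
    have hL0 := loss_nonneg hp U V r m u J
    have hsl : 0 ≤ √lam := Real.sqrt_nonneg _
    rw [hX']
    by_cases htyp : lam * Pr p (fun t => U t = u) ≤ 2 ^ r * X
    · have h1 := dev_le_two hp U V r m u J
      have h2 : Pr p (fun t => cell p V r t = J ∧ (U t = u ∧ bad t)) = X := by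
        rw [hX]
        apply Pr_congr
        intro t
        constructor
        · rintro ⟨h1, h2, h3⟩
          exact ⟨h2, h1⟩
        · rintro ⟨h1, h2⟩
          refine ⟨h2, h1, ?_⟩
          simp only [hbad]
          rw [h1, h2]
          push_cast
          exact htyp
      rw [h2]
      have h3 : 0 ≤ 8 * √lam / θ * loss p U V r m u J := by positivity
      have h4 : 0 ≤ θ * X := by positivity
      rw [← hX] at h1
      linarith
    · push Not at htyp
      have h1 := dev_le hp U V r m u J hl0 htyp.le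
      rw [← hX] at h1
      have h0 : 0 ≤ Pr p (fun t => cell p V r t = J ∧ (U t = u ∧ bad t)) := Pr_nonneg hp _
      have h2 : dev p U V r m u J ≤ θ * X + 8 * √lam / θ * loss p U V r m u J := by
        have h3 : (dev p U V r m u J) ^ 2 ≤
            (θ * X + 8 * √lam / θ * loss p U V r m u J) ^ 2 := by
          have h4 : (dev p U V r m u J) ^ 2 ≤ 8 * X * (√lam * loss p U V r m u J) := h1
          have h5 : 8 * X * (√lam * loss p U V r m u J) =
              (θ * X) * (8 * √lam / θ * loss p U V r m u J) := by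
            field_simp
          have h6 : 0 ≤ θ * X := by positivity
          have h7 : 0 ≤ 8 * √lam / θ * loss p U V r m u J := by positivity
          nlinarith
        exact le_of_pow_le_pow_left₀ (by norm_num) (by positivity) h3
      linarith
  have hP1 : ∑ u ∈ univ.image U, ∑ J ∈ range (2 ^ r),
      Pr p (fun t => cell p V r t = J ∧ (U t = u ∧ bad t)) = Pr p bad := by
    have : ∀ u ∈ univ.image U, ∑ J ∈ range (2 ^ r),
        Pr p (fun t => cell p V r t = J ∧ (U t = u ∧ bad t)) =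
        Pr p (fun t => U t = u ∧ bad t) := by
      intro u _
      rw [sum_Pr_fiber]
      intro t
      exact Finset.mem_range.mpr (cell_lt hp hs V r t)
    rw [Finset.sum_congr rfl this, sum_Pr_fiber]
    intro t
    simp
  have hP2 : ∑ u ∈ univ.image U, ∑ J ∈ range (2 ^ r),
      Pr p (fun t => cell p V r t = J ∧ U t = u) = 1 := by
    have : ∀ u ∈ univ.image U, ∑ J ∈ range (2 ^ r),
        Pr p (fun t => cell p V r t = J ∧ U t = u) = Pr p (fun t => U t = u) := by
      intro u _
      rw [sum_Pr_fiber]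
      intro t
      exact Finset.mem_range.mpr (cell_lt hp hs V r t)
    rw [Finset.sum_congr rfl this, sum_Pr_image hs]
  have hsl : 0 ≤ √lam := Real.sqrt_nonneg _
  calc ∑ u ∈ univ.image U, ∑ J ∈ range (2 ^ r), dev p U V r m u J
      ≤ ∑ u ∈ univ.image U, ∑ J ∈ range (2 ^ r),
        (2 * Pr p (fun t => cell p V r t = J ∧ (U t = u ∧ bad t)) +
        θ * Pr p (fun t => cell p V r t = J ∧ U t = u) +
          8 * √lam / θ * loss p U V r m u J) :=
        Finset.sum_le_sum fun u hu => Finset.sum_le_sum fun J hJ => hterm u hu J hJ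
    _ = 2 * Pr p bad + θ * 1 + 8 * √lam / θ * (en p U V r - en p U V (r + m)) := by
        rw [en_sub, ← hP1, ← hP2]
        simp only [Finset.sum_add_distrib, Finset.mul_sum]
    _ ≤ 2 * (15 * lam ^ (β - 1)) + θ * 1 + 8 * √lam / θ * τ := by
        gcongr
    _ = _ := by ring

end Pool.Agent.Work.MP_7eddf1_co
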